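import Pool.Agent.Lib.MP_73a842_co.Basic

/-!
# NCS-BStep: the boundary of a tetrahedron and of `insert (insert w T) B`
-/

open Finset

namespace Pool.NCS

theorem bdry_single {σ : Finset ℤ} (h : σ.card = 4) {S : Finset ℤ} :
    S ∈ bdry {σ} ↔ S ⊆ σ ∧ S.card = 3 := by
  rw [mem_bdry]
  constructor
  · rintro ⟨h1, τ, hτ, h2, -⟩
    rw [mem_singleton.1 hτ] at h2
    exact ⟨h2, h1⟩
  · rintro ⟨h1, h2⟩
    exact ⟨h2, σ, mem_singleton_self _, h1, fun τ hτ _ => mem_singleton.1 hτ⟩

theorem bdry_step {B : Finset (Finset ℤ)} {T : Finset ℤ} {w : ℤ} (hT : T ∈ bdry B)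
    (hw : w ∉ verts B) {S : Finset ℤ} :
    S ∈ bdry (insert (insert w T) B) ↔
      (S ∈ bdry B ∧ S ≠ T) ∨ ∃ e : Finset ℤ, e ⊆ T ∧ e.card = 2 ∧ S = insert w e := by
  obtain ⟨hT3, σT, hσT, hTσ, -⟩ := mem_bdry.1 hT
  have hwB : ∀ τ ∈ B, w ∉ τ := fun τ hτ h0 => hw (mem_verts.2 ⟨τ, hτ, h0⟩)
  have hwT : w ∉ T := fun h0 => hwB σT hσT (hTσ h0)
  have hN : insert w T ∉ B := fun h0 => hwB _ h0 (mem_insert_self _ _)
  constructor
  · intro hS
    obtain ⟨h3, ρ, hρ, hSρ, hu⟩ := mem_bdry.1 hS
    by_cases hwS : w ∈ S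
    · right
      have hρN : ρ = insert w T := by
        rcases mem_insert.1 hρ with h0 | h0
        · exact h0
        · exact absurd (hSρ hwS) (hwB ρ h0)
      refine ⟨S.erase w, fun x hx => ?_, ?_, (insert_erase hwS).symm⟩
      · obtain ⟨hx1, hx2⟩ := mem_erase.1 hx
        have hx3 := hSρ hx2
        rw [hρN] at hx3
        exact (mem_insert.1 hx3).resolve_left hx1
      · rw [card_erase_of_mem hwS, h3]
    · left
      have key : ∀ τ, τ = insert w T → S ⊆ τ → S = T := by
        intro τ hτ hSτ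
        refine eq_of_subset_of_card_le (fun x hx => ?_) (by rw [h3, hT3])
        have := hSτ hx
        rw [hτ] at this
        rcases mem_insert.1 this with h0 | h0
        · exact absurd (h0 ▸ hx) hwS
        · exact h0
      have hρB : ρ ∈ B := by
        rcases mem_insert.1 hρ with h0 | h0
        · have hST := key ρ h0 hSρ
          have := hu σT (mem_insert_of_mem hσT) (hST ▸ hTσ)
          rw [← this]
          exact hσT
        · exact h0
      refine ⟨mem_bdry.2 ⟨h3, ρ, hρB, hSρ, fun τ hτ h => hu τ (mem_insert_of_mem hτ) h⟩, ?_⟩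
      intro hST
      have := hu (insert w T) (mem_insert_self _ _) (by rw [hST]; exact subset_insert _ _)
      exact hN (this ▸ hρB)
  · rintro (⟨hS, hST⟩ | ⟨e, he, he2, rfl⟩)
    · obtain ⟨h3, ρ, hρ, hSρ, hu⟩ := mem_bdry.1 hS
      refine mem_bdry.2 ⟨h3, ρ, mem_insert_of_mem hρ, hSρ, fun τ hτ h => ?_⟩
      rcases mem_insert.1 hτ with h0 | h0
      · exfalso
        apply hST
        refine eq_of_subset_of_card_le (fun x hx => ?_) (by rw [h3, hT3])
        have := h hx
        rw [h0] at this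
        rcases mem_insert.1 this with h4 | h4
        · exact absurd (hSρ (h4 ▸ hx)) (hwB ρ hρ)
        · exact h4
      · exact hu τ h0 h
    · refine mem_bdry.2 ⟨?_, insert w T, mem_insert_self _ _, insert_subset_insert _ he,
        fun τ hτ h => ?_⟩
      · rw [card_insert_of_notMem (fun h0 => hwT (he h0)), he2]
      · rcases mem_insert.1 hτ with h0 | h0
        · exact h0
        · exact absurd (h (mem_insert_self _ _)) (hwB τ h0)

end Pool.NCS
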