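import Pool.Agent.Lib.MP_73a842_co.Basic

/-!
# The boundary complex of the 4-dimensional cross-polytope
-/

open Finset

namespace Pool.NCS

/-- the 16 facets of the cross-polytope -/
def cross : Finset (Finset ℤ) :=
  {{1, 2, 3, 4}, {1, 2, 3, -4}, {1, 2, -3, 4}, {1, 2, -3, -4},
    {1, -2, 3, 4}, {1, -2, 3, -4}, {1, -2, -3, 4}, {1, -2, -3, -4},
    {-1, 2, 3, 4}, {-1, 2, 3, -4}, {-1, 2, -3, 4}, {-1, 2, -3, -4},
    {-1, -2, 3, 4}, {-1, -2, 3, -4}, {-1, -2, -3, 4}, {-1, -2, -3, -4}}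

end Pool.NCS
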