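import Pool.Agent.Lib.MP_73a842_co.Paths
import Pool.Agent.Lib.MP_73a842_co.CrossDef

/-!
# The stacked balls of the base sphere
-/

open Finset

namespace Pool.NCS

/-- the stacked ball used to pass from `V n` to `V (n + 1)` in the base construction -/
def baseBall (n : ℕ) : Finset (Finset ℤ) :=
  insert {-(n : ℤ), 1, 2, -((n : ℤ) - 1)} (insert {(n : ℤ), -2, -1, -3}
    (fan 1 n (inc 2 (n - 2)) ∪ fan 2 n (1 :: (inc (-((n : ℤ) - 1)) (n - 3) ++ [-1]))))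

/-- the base spheres: `base m` is on `V (m + 4)` -/
noncomputable def base : ℕ → Finset (Finset ℤ)
  | 0 => cross
  | m + 1 => ins2 (base m) (baseBall (m + 4)) (((m + 4 : ℕ) : ℤ) + 1)

theorem adj_second {n : ℕ} (hn : 4 ≤ n) {p q : ℤ} :
    adj (1 :: (inc (-((n : ℤ) - 1)) (n - 3) ++ [-1])) p q ↔
      (p = 1 ∧ q = -((n : ℤ) - 1)) ∨ (-((n : ℤ) - 1) ≤ p ∧ p ≤ -4 ∧ q = p + 1) ∨
        (p = -3 ∧ q = -1) := by
  obtain ⟨k, rfl⟩ : ∃ k, n = k + 4 := ⟨n - 4, by omega⟩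
  have h0 : inc (-(((k + 4 : ℕ) : ℤ) - 1)) (k + 4 - 3) ≠ [] := inc_ne_nil (by omega)
  have h1 : adj (1 :: (inc (-(((k + 4 : ℕ) : ℤ) - 1)) (k + 4 - 3) ++ [-1])) p q ↔
      adj ([1] ++ (inc (-(((k + 4 : ℕ) : ℤ) - 1)) (k + 4 - 3) ++ [-1])) p q := Iff.rfl
  rw [h1, adj_append (by simp) (by simp), adj_append h0 (by simp), adj_inc, getLast_inc]
  have h2 : (inc (-(((k + 4 : ℕ) : ℤ) - 1)) (k + 4 - 3) ++ [-1]).head (by simp) =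
      -(((k + 4 : ℕ) : ℤ) - 1) := by
    rw [List.head_append_of_ne_nil h0, head_inc]
  rw [h2]
  simp only [adj, List.getLast_singleton, List.head_cons, false_or, or_false]
  push_cast
  omega

theorem mem_baseBall {n : ℕ} (hn : 4 ≤ n) {σ : Finset ℤ} :
    σ ∈ baseBall n ↔ σ = {-(n : ℤ), 1, 2, -((n : ℤ) - 1)} ∨ σ = {(n : ℤ), -2, -1, -3} ∨
      (∃ p : ℤ, 2 ≤ p ∧ p ≤ n - 2 ∧ σ = {1, (n : ℤ), p, p + 1}) ∨
      σ = {2, (n : ℤ), 1, -((n : ℤ) - 1)} ∨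
      (∃ p : ℤ, -((n : ℤ) - 1) ≤ p ∧ p ≤ -4 ∧ σ = {2, (n : ℤ), p, p + 1}) ∨
      σ = {2, (n : ℤ), -3, -1} := by
  unfold baseBall
  rw [mem_insert, mem_insert, mem_union, mem_fan, mem_fan]
  simp only [adj_second hn, adj_inc]
  constructor
  · rintro (h | h | ⟨p, q, ⟨h1, h2, rfl⟩, h3⟩ | ⟨p, q, ⟨rfl, rfl⟩ | ⟨h1, h2, rfl⟩ | ⟨rfl, rfl⟩, h3⟩)
    · exact Or.inl h
    · exact Or.inr (Or.inl h)
    · exact Or.inr (Or.inr (Or.inl ⟨p, h1, by omega, h3⟩))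
    · exact Or.inr (Or.inr (Or.inr (Or.inl h3)))
    · exact Or.inr (Or.inr (Or.inr (Or.inr (Or.inl ⟨p, h1, h2, h3⟩))))
    · exact Or.inr (Or.inr (Or.inr (Or.inr (Or.inr h3))))
  · rintro (h | h | ⟨p, h1, h2, h3⟩ | h3 | ⟨p, h1, h2, h3⟩ | h3)
    · exact Or.inl h
    · exact Or.inr (Or.inl h)
    · exact Or.inr (Or.inr (Or.inl ⟨p, p + 1, ⟨h1, by omega, rfl⟩, h3⟩))
    · exact Or.inr (Or.inr (Or.inr ⟨_, _, Or.inl ⟨rfl, rfl⟩, h3⟩))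
    · exact Or.inr (Or.inr (Or.inr ⟨p, p + 1, Or.inr (Or.inl ⟨h1, h2, rfl⟩), h3⟩))
    · exact Or.inr (Or.inr (Or.inr ⟨_, _, Or.inr (Or.inr ⟨rfl, rfl⟩), h3⟩))

theorem sub4 {a b c u o p q : ℤ} : ({a, b, c} : Finset ℤ) ⊆ {u, o, p, q} ↔
    (a = u ∨ a = o ∨ a = p ∨ a = q) ∧ (b = u ∨ b = o ∨ b = p ∨ b = q) ∧
      (c = u ∨ c = o ∨ c = p ∨ c = q) := by
  simp only [insert_subset_iff, singleton_subset_iff, mem_insert, mem_singleton]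

/-- a triangle of the ball is a boundary triangle if no other tetrahedron contains it -/
theorem bdry_intro {B : Finset (Finset ℤ)} {a b c : ℤ} {σ : Finset ℤ} (h1 : a ≠ b) (h2 : a ≠ c)
    (h3 : b ≠ c) (hσ : σ ∈ B) (hs : ({a, b, c} : Finset ℤ) ⊆ σ)
    (hu : ∀ τ ∈ B, ({a, b, c} : Finset ℤ) ⊆ τ → τ = σ) : {a, b, c} ∈ bdry B :=
  mem_bdry.2 ⟨card_three h1 h2 h3, σ, hσ, hs, hu⟩

end Pool.NCS
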