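import Pool.Agent.Lib.MP_73a842_co.BaseBall

/-!
# Boundary triangles of `baseBall n`
-/

open Finset

namespace Pool.NCS

theorem bb1 {n : ℕ} (hn : 4 ≤ n) {p : ℤ} (h1 : 2 ≤ p) (h2 : p ≤ n - 2) :
    {1, p, p + 1} ∈ bdry (baseBall n) := by
  refine bdry_intro (by omega) (by omega) (by omega) ((mem_baseBall hn).2 (Or.inr (Or.inr (Or.inl ⟨p, by omega, by omega, rfl⟩))))
    (sub4.2 (by omega)) fun τ hτ hs => ?_
  rcases (mem_baseBall hn).1 hτ with rfl | rfl | ⟨q, h3, h4, rfl⟩ | rfl | ⟨q, h3, h4, rfl⟩ | rfl <;>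
    rw [sub4] at hs <;> first | omega | skip
  all_goals 
    obtain rfl : q = p := by omega
    rfl

theorem bb2 {n : ℕ} (hn : 4 ≤ n)  :
    {1, (n : ℤ) - 1, (n : ℤ)} ∈ bdry (baseBall n) := by
  refine bdry_intro (by omega) (by omega) (by omega) ((mem_baseBall hn).2 (Or.inr (Or.inr (Or.inl ⟨(n:ℤ) - 2, by omega, by omega, rfl⟩))))
    (sub4.2 (by omega)) fun τ hτ hs => ?_
  rcases (mem_baseBall hn).1 hτ with rfl | rfl | ⟨q, h3, h4, rfl⟩ | rfl | ⟨q, h3, h4, rfl⟩ | rfl <;>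
    rw [sub4] at hs <;> first | omega | skip
  all_goals 
    obtain rfl : q = (n:ℤ) - 2 := by omega
    rfl

theorem bb3 {n : ℕ} (hn : 4 ≤ n)  :
    {1, 2, -(n : ℤ)} ∈ bdry (baseBall n) := by
  refine bdry_intro (by omega) (by omega) (by omega) ((mem_baseBall hn).2 (Or.inl rfl))
    (sub4.2 (by omega)) fun τ hτ hs => ?_
  rcases (mem_baseBall hn).1 hτ with rfl | rfl | ⟨q, h3, h4, rfl⟩ | rfl | ⟨q, h3, h4, rfl⟩ | rfl <;>
    rw [sub4] at hs <;> first | omega | skip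
  all_goals rfl

theorem bb4 {n : ℕ} (hn : 4 ≤ n)  :
    {2, -(n : ℤ), -((n : ℤ) - 1)} ∈ bdry (baseBall n) := by
  refine bdry_intro (by omega) (by omega) (by omega) ((mem_baseBall hn).2 (Or.inl rfl))
    (sub4.2 (by omega)) fun τ hτ hs => ?_
  rcases (mem_baseBall hn).1 hτ with rfl | rfl | ⟨q, h3, h4, rfl⟩ | rfl | ⟨q, h3, h4, rfl⟩ | rfl <;>
    rw [sub4] at hs <;> first | omega | skip
  all_goals rfl

theorem bb5 {n : ℕ} (hn : 4 ≤ n) {p : ℤ} (h1 : -((n : ℤ) - 1) ≤ p) (h2 : p ≤ -4) :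
    {2, p, p + 1} ∈ bdry (baseBall n) := by
  refine bdry_intro (by omega) (by omega) (by omega) ((mem_baseBall hn).2 (Or.inr (Or.inr (Or.inr (Or.inr (Or.inl ⟨p, by omega, by omega, rfl⟩))))))
    (sub4.2 (by omega)) fun τ hτ hs => ?_
  rcases (mem_baseBall hn).1 hτ with rfl | rfl | ⟨q, h3, h4, rfl⟩ | rfl | ⟨q, h3, h4, rfl⟩ | rfl <;>
    rw [sub4] at hs <;> first | omega | skip
  all_goals 
    obtain rfl : q = p := by omega
    rfl

theorem bb6 {n : ℕ} (hn : 4 ≤ n)  :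
    {2, -3, -1} ∈ bdry (baseBall n) := by
  refine bdry_intro (by omega) (by omega) (by omega) ((mem_baseBall hn).2 (Or.inr (Or.inr (Or.inr (Or.inr (Or.inr rfl))))))
    (sub4.2 (by omega)) fun τ hτ hs => ?_
  rcases (mem_baseBall hn).1 hτ with rfl | rfl | ⟨q, h3, h4, rfl⟩ | rfl | ⟨q, h3, h4, rfl⟩ | rfl <;>
    rw [sub4] at hs <;> first | omega | skip
  all_goals rfl

theorem bb7 {n : ℕ} (hn : 4 ≤ n)  :
    {-2, -1, -3} ∈ bdry (baseBall n) := by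
  refine bdry_intro (by omega) (by omega) (by omega) ((mem_baseBall hn).2 (Or.inr (Or.inl rfl)))
    (sub4.2 (by omega)) fun τ hτ hs => ?_
  rcases (mem_baseBall hn).1 hτ with rfl | rfl | ⟨q, h3, h4, rfl⟩ | rfl | ⟨q, h3, h4, rfl⟩ | rfl <;>
    rw [sub4] at hs <;> first | omega | skip
  all_goals rfl

theorem bb8 {n : ℕ} (hn : 4 ≤ n)  :
    {-1, -2, (n : ℤ)} ∈ bdry (baseBall n) := by
  refine bdry_intro (by omega) (by omega) (by omega) ((mem_baseBall hn).2 (Or.inr (Or.inl rfl)))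
    (sub4.2 (by omega)) fun τ hτ hs => ?_
  rcases (mem_baseBall hn).1 hτ with rfl | rfl | ⟨q, h3, h4, rfl⟩ | rfl | ⟨q, h3, h4, rfl⟩ | rfl <;>
    rw [sub4] at hs <;> first | omega | skip
  all_goals rfl

theorem bb9 {n : ℕ} (hn : 4 ≤ n) {p : ℤ} (h1 : 2 ≤ p) (h2 : p ≤ n - 2) :
    {(n : ℤ), p, p + 1} ∈ bdry (baseBall n) := by
  refine bdry_intro (by omega) (by omega) (by omega) ((mem_baseBall hn).2 (Or.inr (Or.inr (Or.inl ⟨p, by omega, by omega, rfl⟩))))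
    (sub4.2 (by omega)) fun τ hτ hs => ?_
  rcases (mem_baseBall hn).1 hτ with rfl | rfl | ⟨q, h3, h4, rfl⟩ | rfl | ⟨q, h3, h4, rfl⟩ | rfl <;>
    rw [sub4] at hs <;> first | omega | skip
  all_goals 
    obtain rfl : q = p := by omega
    rfl

theorem bb10 {n : ℕ} (hn : 4 ≤ n)  :
    {(n : ℤ), 1, -((n : ℤ) - 1)} ∈ bdry (baseBall n) := by
  refine bdry_intro (by omega) (by omega) (by omega) ((mem_baseBall hn).2 (Or.inr (Or.inr (Or.inr (Or.inl rfl)))))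
    (sub4.2 (by omega)) fun τ hτ hs => ?_
  rcases (mem_baseBall hn).1 hτ with rfl | rfl | ⟨q, h3, h4, rfl⟩ | rfl | ⟨q, h3, h4, rfl⟩ | rfl <;>
    rw [sub4] at hs <;> first | omega | skip
  all_goals rfl

theorem bb11 {n : ℕ} (hn : 4 ≤ n) {p : ℤ} (h1 : -((n : ℤ) - 1) ≤ p) (h2 : p ≤ -4) :
    {(n : ℤ), p, p + 1} ∈ bdry (baseBall n) := by
  refine bdry_intro (by omega) (by omega) (by omega) ((mem_baseBall hn).2 (Or.inr (Or.inr (Or.inr (Or.inr (Or.inl ⟨p, by omega, by omega, rfl⟩))))))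
    (sub4.2 (by omega)) fun τ hτ hs => ?_
  rcases (mem_baseBall hn).1 hτ with rfl | rfl | ⟨q, h3, h4, rfl⟩ | rfl | ⟨q, h3, h4, rfl⟩ | rfl <;>
    rw [sub4] at hs <;> first | omega | skip
  all_goals 
    obtain rfl : q = p := by omega
    rfl

theorem bb12 {n : ℕ} (hn : 4 ≤ n)  :
    {(n : ℤ), -3, -2} ∈ bdry (baseBall n) := by
  refine bdry_intro (by omega) (by omega) (by omega) ((mem_baseBall hn).2 (Or.inr (Or.inl rfl)))
    (sub4.2 (by omega)) fun τ hτ hs => ?_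
  rcases (mem_baseBall hn).1 hτ with rfl | rfl | ⟨q, h3, h4, rfl⟩ | rfl | ⟨q, h3, h4, rfl⟩ | rfl <;>
    rw [sub4] at hs <;> first | omega | skip
  all_goals rfl

theorem bb14 {n : ℕ} (hn : 4 ≤ n)  :
    {(n : ℤ), -1, 2} ∈ bdry (baseBall n) := by
  refine bdry_intro (by omega) (by omega) (by omega) ((mem_baseBall hn).2 (Or.inr (Or.inr (Or.inr (Or.inr (Or.inr rfl))))))
    (sub4.2 (by omega)) fun τ hτ hs => ?_
  rcases (mem_baseBall hn).1 hτ with rfl | rfl | ⟨q, h3, h4, rfl⟩ | rfl | ⟨q, h3, h4, rfl⟩ | rfl <;>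
    rw [sub4] at hs <;> first | omega | skip
  all_goals rfl

theorem bb15 {n : ℕ} (hn : 4 ≤ n)  :
    {-(n : ℤ), -((n : ℤ) - 1), 1} ∈ bdry (baseBall n) := by
  refine bdry_intro (by omega) (by omega) (by omega) ((mem_baseBall hn).2 (Or.inl rfl))
    (sub4.2 (by omega)) fun τ hτ hs => ?_
  rcases (mem_baseBall hn).1 hτ with rfl | rfl | ⟨q, h3, h4, rfl⟩ | rfl | ⟨q, h3, h4, rfl⟩ | rfl <;>
    rw [sub4] at hs <;> first | omega | skip
  all_goals rfl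

end Pool.NCS
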