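import Pool.Agent.Lib.MP_73a842_co.Flips
import Pool.Agent.Lib.MP_73a842_co.CrossDef

/-!
# NCS-Cross: the cross-polytope is the first cs-2-neighborly 3-sphere

`pl`: from the 5 facets on `{-4,-1,2,3,4}` by the bistellar moves (use `flip_of_facets`, conditions by `decide`)
`(A, B)` = `({-4,-1,2,4}, {-3})`, `({-4,2,3,4}, {1})`, `({-4,2,4}, {-3,1})`, `({-4,1,3,4}, {-2})`,
`({-4,1,4}, {-3,-2})`, `({-4,-3,4}, {-2,-1})`, `({-4,4}, {-2,-1,3})`.
`pm`: a triangle in a facet is in the powerset of `{-4,...,4}`; `decide` over the triangles, or argue with the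
fourth vertex.
-/

open Finset

namespace Pool.NCS

private def crF0 : Finset (Finset ℤ) :=
  {{-4, -1, 2, 3},
    {-4, -1, 2, 4},
    {-4, -1, 3, 4},
    {-4, 2, 3, 4},
    {-1, 2, 3, 4}}

private def crF1 : Finset (Finset ℤ) :=
  {{-4, -3, -1, 2},
    {-4, -3, -1, 4},
    {-4, -3, 2, 4},
    {-4, -1, 2, 3},
    {-4, -1, 3, 4},
    {-4, 2, 3, 4},
    {-3, -1, 2, 4},
    {-1, 2, 3, 4}}

private def crF2 : Finset (Finset ℤ) :=
  {{-4, -3, -1, 2},
    {-4, -3, -1, 4},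
    {-4, -3, 2, 4},
    {-4, -1, 2, 3},
    {-4, -1, 3, 4},
    {-4, 1, 2, 3},
    {-4, 1, 2, 4},
    {-4, 1, 3, 4},
    {-3, -1, 2, 4},
    {-1, 2, 3, 4},
    {1, 2, 3, 4}}

private def crF3 : Finset (Finset ℤ) :=
  {{-4, -3, -1, 2},
    {-4, -3, -1, 4},
    {-4, -3, 1, 2},
    {-4, -3, 1, 4},
    {-4, -1, 2, 3},
    {-4, -1, 3, 4},
    {-4, 1, 2, 3},
    {-4, 1, 3, 4},
    {-3, -1, 2, 4},
    {-3, 1, 2, 4},
    {-1, 2, 3, 4},
    {1, 2, 3, 4}}

private def crF4 : Finset (Finset ℤ) :=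
  {{-4, -3, -1, 2},
    {-4, -3, -1, 4},
    {-4, -3, 1, 2},
    {-4, -3, 1, 4},
    {-4, -2, 1, 3},
    {-4, -2, 1, 4},
    {-4, -2, 3, 4},
    {-4, -1, 2, 3},
    {-4, -1, 3, 4},
    {-4, 1, 2, 3},
    {-3, -1, 2, 4},
    {-3, 1, 2, 4},
    {-2, 1, 3, 4},
    {-1, 2, 3, 4},
    {1, 2, 3, 4}}

private def crF5 : Finset (Finset ℤ) :=
  {{-4, -3, -2, 1},
    {-4, -3, -2, 4},
    {-4, -3, -1, 2},
    {-4, -3, -1, 4},
    {-4, -3, 1, 2},
    {-4, -2, 1, 3},
    {-4, -2, 3, 4},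
    {-4, -1, 2, 3},
    {-4, -1, 3, 4},
    {-4, 1, 2, 3},
    {-3, -2, 1, 4},
    {-3, -1, 2, 4},
    {-3, 1, 2, 4},
    {-2, 1, 3, 4},
    {-1, 2, 3, 4},
    {1, 2, 3, 4}}

private def crF6 : Finset (Finset ℤ) :=
  {{-4, -3, -2, -1},
    {-4, -3, -2, 1},
    {-4, -3, -1, 2},
    {-4, -3, 1, 2},
    {-4, -2, -1, 4},
    {-4, -2, 1, 3},
    {-4, -2, 3, 4},
    {-4, -1, 2, 3},
    {-4, -1, 3, 4},
    {-4, 1, 2, 3},
    {-3, -2, -1, 4},
    {-3, -2, 1, 4},
    {-3, -1, 2, 4},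
    {-3, 1, 2, 4},
    {-2, 1, 3, 4},
    {-1, 2, 3, 4},
    {1, 2, 3, 4}}

private def crF7 : Finset (Finset ℤ) := cross

private theorem flip_cr {F F' : Finset (Finset ℤ)} (A B : Finset ℤ) (hA : A.Nonempty) (hB : B.Nonempty)
    (hd : Disjoint A B) (hc : A.card + B.card = 5)
    (h1 : ∀ σ ∈ F, A ⊆ σ → ∃ b ∈ B, σ = (A ∪ B).erase b)
    (h2 : ∀ b ∈ B, (A ∪ B).erase b ∈ F)
    (h3 : ∀ σ ∈ F, ¬ B ⊆ σ)
    (h4 : (F.filter fun σ => ¬ A ⊆ σ) ∪ (A.image fun a => (A ∪ B).erase a) = F') :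
    Flip 3 (cl F) (cl F') := by
  rw [← h4]
  exact flip_of_facets hA hB hd hc h1 h2 h3

private theorem cr_flip0 : Flip 3 (cl crF0) (cl crF1) :=
  flip_cr {-4, -1, 2, 4} {-3} (by decide) (by decide) (by decide) (by decide)
    (by decide +kernel) (by decide +kernel) (by decide +kernel) (by decide +kernel)

private theorem cr_flip1 : Flip 3 (cl crF1) (cl crF2) :=
  flip_cr {-4, 2, 3, 4} {1} (by decide) (by decide) (by decide) (by decide)
    (by decide +kernel) (by decide +kernel) (by decide +kernel) (by decide +kernel)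

private theorem cr_flip2 : Flip 3 (cl crF2) (cl crF3) :=
  flip_cr {-4, 2, 4} {-3, 1} (by decide) (by decide) (by decide) (by decide)
    (by decide +kernel) (by decide +kernel) (by decide +kernel) (by decide +kernel)

private theorem cr_flip3 : Flip 3 (cl crF3) (cl crF4) :=
  flip_cr {-4, 1, 3, 4} {-2} (by decide) (by decide) (by decide) (by decide)
    (by decide +kernel) (by decide +kernel) (by decide +kernel) (by decide +kernel)

private theorem cr_flip4 : Flip 3 (cl crF4) (cl crF5) :=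
  flip_cr {-4, 1, 4} {-3, -2} (by decide) (by decide) (by decide) (by decide)
    (by decide +kernel) (by decide +kernel) (by decide +kernel) (by decide +kernel)

private theorem cr_flip5 : Flip 3 (cl crF5) (cl crF6) :=
  flip_cr {-4, -3, 4} {-2, -1} (by decide) (by decide) (by decide) (by decide)
    (by decide +kernel) (by decide +kernel) (by decide +kernel) (by decide +kernel)

private theorem cr_flip6 : Flip 3 (cl crF6) (cl crF7) :=
  flip_cr {-4, 4} {-2, -1, 3} (by decide) (by decide) (by decide) (by decide)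
    (by decide +kernel) (by decide +kernel) (by decide +kernel) (by decide +kernel)

private theorem cr_start : cl crF0 = {s | s ⊂ ({-4, -1, 2, 3, 4} : Finset ℤ)} := by
  have h0 : crF0 = ({-4, -1, 2, 3, 4} : Finset ℤ).image fun a => ({-4, -1, 2, 3, 4} : Finset ℤ).erase a := by
    decide +kernel
  ext s
  simp only [cl, Set.mem_ofPred_eq, h0, mem_image]
  constructor
  · rintro ⟨σ, ⟨a, ha, rfl⟩, hs⟩
    exact hs.trans_ssubset (erase_ssubset ha)
  · intro hs
    obtain ⟨a, ha, ha'⟩ := exists_of_ssubset hs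
    exact ⟨_, ⟨a, ha, rfl⟩, subset_erase.2 ⟨hs.subset, ha'⟩⟩

theorem pl_cross : PLSphere 3 (cl cross) := by
  refine ⟨{-4, -1, 2, 3, 4}, by decide, ?_⟩
  rw [← cr_start]
  exact (((((((Relation.ReflTransGen.refl.tail cr_flip0).tail cr_flip1).tail cr_flip2).tail
    cr_flip3).tail cr_flip4).tail cr_flip5).tail cr_flip6)

theorem pm_cross : PM cross := by
  intro T hT
  by_contra hcon
  have hne : (cross.filter (T ⊆ ·)).Nonempty := by
    rw [← card_pos]
    omega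
  obtain ⟨σ, hσ⟩ := hne
  rw [mem_filter] at hσ
  have key : ∀ σ ∈ cross, ∀ T ∈ σ.powersetCard 3, (cross.filter (T ⊆ ·)).card ≤ 2 := by
    decide +kernel
  exact hcon (key σ hσ.1 T (mem_powersetCard.2 ⟨hσ.2, hT⟩))

theorem good_cross : Good 4 cross where
  card4 := by decide +kernel
  sub := by
    have h : ∀ σ ∈ cross, ∀ x ∈ σ, x ≠ 0 ∧ -((4 : ℕ) : ℤ) ≤ x ∧ x ≤ ((4 : ℕ) : ℤ) := by
      decide +kernel
    exact fun σ hσ x hx => mem_V.2 (h σ hσ x hx)
  free := by decide +kernel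
  cs := by decide +kernel
  pm := pm_cross
  nb := by
    have hV : V 4 = {-4, -3, -2, -1, 1, 2, 3, 4} := by
      ext x
      rw [mem_V]
      simp only [mem_insert, mem_singleton]
      push_cast
      omega
    rw [hV]
    decide +kernel
  pl := pl_cross

end Pool.NCS
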