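import Pool.Agent.Lib.MP_73a842_co.BStep

/-!
# NCS-StackB: an edge is in at most two boundary triangles of a stacked ball

Induction on `Stacked` with `bdry_single`, `bdry_step`.  In the step: if `w ∈ e`, `e = {w, x}`, only the triangles
`insert w e'`, `x ∈ e' ⊆ T`, `e'.card = 2` contain `e` (no triangle of `bdry B` contains `w`, as
`w ∉ verts B`); at most two.  If `e ⊆ T` then `T` is lost and only `insert w e` is new.  Otherwise only
triangles of `bdry B` contain `e`.
-/

open Finset

namespace Pool.NCS

private theorem notMem_of_bdry' {B : Finset (Finset ℤ)} {T : Finset ℤ} {w : ℤ} (hT : T ∈ bdry B)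
    (hw : w ∉ verts B) : w ∉ T := by
  intro h
  obtain ⟨-, σ, hσ, hs, -⟩ := mem_bdry.1 hT
  exact hw (mem_verts.2 ⟨σ, hσ, hs h⟩)

/-- the `3`-subsets of a `4`-set that contain a given `2`-set -/
private theorem three_sub_four {σ e : Finset ℤ} (h : σ.card = 4) (he : e ⊆ σ) (hc : e.card = 2) :
    ((σ.powersetCard 3).filter (e ⊆ ·)).card ≤ 2 := by
  have hsub : (σ.powersetCard 3).filter (e ⊆ ·) ⊆ (σ \ e).image fun x => σ.erase x := by
    intro S hS
    rw [mem_filter, mem_powersetCard] at hS
    obtain ⟨⟨h1, h2⟩, h3⟩ := hS
    have h4 : (σ \ S).card = 1 := by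
      rw [card_sdiff_of_subset h1]
      omega
    obtain ⟨x, hx⟩ := card_eq_one.1 h4
    have hx' : x ∈ σ \ S := by
      rw [hx]
      exact mem_singleton_self x
    rw [mem_sdiff] at hx'
    refine mem_image.2 ⟨x, mem_sdiff.2 ⟨hx'.1, fun h5 => hx'.2 (h3 h5)⟩, ?_⟩
    ext y
    rw [mem_erase]
    constructor
    · rintro ⟨h5, h6⟩
      by_contra h7
      exact h5 (mem_singleton.1 (hx ▸ mem_sdiff.2 ⟨h6, h7⟩))
    · intro h5
      exact ⟨fun h6 => hx'.2 (h6 ▸ h5), h1 h5⟩
  refine (card_le_card hsub).trans (card_image_le.trans ?_)
  rw [card_sdiff_of_subset he]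
  omega

theorem Stacked.edge_le {B : Finset (Finset ℤ)} (h : Stacked B) {e : Finset ℤ} (hc : e.card = 2) :
    ((bdry B).filter (e ⊆ ·)).card ≤ 2 := by
  induction h with
  | single σ h =>
    by_cases he : e ⊆ σ
    · refine (card_le_card ?_).trans (three_sub_four h he hc)
      intro S hS
      rw [mem_filter, bdry_single h] at hS
      rw [mem_filter, mem_powersetCard]
      exact hS
    · have : (bdry {σ}).filter (e ⊆ ·) = ∅ := by
        rw [filter_eq_empty_iff]
        intro S hS heS
        exact he (heS.trans ((bdry_single h).1 hS).1)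
      rw [this, card_empty]
      omega
  | step B T w hB hT hw ih =>
    have hwT : w ∉ T := notMem_of_bdry' hT hw
    have hTc : T.card = 3 := (mem_bdry.1 hT).1
    by_cases hwe : w ∈ e
    · -- `e = {w, x}`
      by_cases heT : e ⊆ insert w T
      · refine (card_le_card ?_).trans (three_sub_four (σ := insert w T)
          (by rw [card_insert_of_notMem hwT, hTc]) heT hc)
        intro S hS
        rw [mem_filter, bdry_step hT hw] at hS
        obtain ⟨h1 | ⟨e', h2, h3, h4⟩, h5⟩ := hS
        · exact absurd (h5 hwe) (notMem_of_bdry' h1.1 hw)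
        · rw [mem_filter, mem_powersetCard]
          refine ⟨⟨?_, ?_⟩, h5⟩
          · rw [h4]
            exact insert_subset_insert _ h2
          · rw [h4, card_insert_of_notMem (fun h6 => hwT (h2 h6)), h3]
      · have : (bdry (insert (insert w T) B)).filter (e ⊆ ·) = ∅ := by
          rw [filter_eq_empty_iff]
          intro S hS heS
          rcases (bdry_step hT hw).1 hS with h1 | ⟨e', h2, h3, h4⟩
          · exact notMem_of_bdry' h1.1 hw (heS hwe)
          · apply heT
            rw [h4] at heS
            exact heS.trans (insert_subset_insert _ h2)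
        rw [this, card_empty]
        omega
    · by_cases heT : e ⊆ T
      · -- `T` is lost, `insert w e` is new
        have hsub : (bdry (insert (insert w T) B)).filter (e ⊆ ·) ⊆
            insert (insert w e) (((bdry B).filter (e ⊆ ·)).erase T) := by
          intro S hS
          rw [mem_filter, bdry_step hT hw] at hS
          obtain ⟨h1 | ⟨e', h2, h3, h4⟩, h5⟩ := hS
          · exact mem_insert_of_mem (mem_erase.2 ⟨h1.2, mem_filter.2 ⟨h1.1, h5⟩⟩)
          · have : e ⊆ e' := by
              intro x hx
              have := h5 hx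
              rw [h4, mem_insert] at this
              rcases this with h6 | h6
              · exact absurd (h6 ▸ hx) hwe
              · exact h6
            have : e = e' := eq_of_subset_of_card_le this (by omega)
            rw [h4, this]
            exact mem_insert_self _ _
        refine (card_le_card hsub).trans ((card_insert_le _ _).trans ?_)
        have h8 : (((bdry B).filter (e ⊆ ·)).erase T).card = ((bdry B).filter (e ⊆ ·)).card - 1 :=
          card_erase_of_mem (mem_filter.2 ⟨hT, heT⟩)
        have h9 : ((bdry B).filter (e ⊆ ·)).card ≤ 2 := ih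
        calc (((bdry B).filter (e ⊆ ·)).erase T).card + 1 ≤ (2 - 1) + 1 := by
              rw [h8]
              exact Nat.add_le_add_right (Nat.sub_le_sub_right h9 1) 1
          _ = 2 := rfl
      · refine (card_le_card ?_).trans ih
        intro S hS
        rw [mem_filter, bdry_step hT hw] at hS
        obtain ⟨h1 | ⟨e', h2, h3, h4⟩, h5⟩ := hS
        · exact mem_filter.2 ⟨h1.1, h5⟩
        · exfalso
          apply heT
          intro x hx
          have := h5 hx
          rw [h4, mem_insert] at this
          rcases this with h6 | h6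
          · exact absurd (h6 ▸ hx) hwe
          · exact h2 h6

end Pool.NCS
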