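import Pool.Agent.Lib.MP_73a842_co.StackA
import Pool.Agent.Lib.MP_73a842_co.StackB

/-!
# NCS-InsPM: `ins` keeps the pseudomanifold property

Let `T.card = 3`.  If `v ∈ T`, the facets of `ins F B v` containing `T` are the `insert v S`, `S ∈ bdry B`,
`T.erase v ⊆ S`: at most two by `Stacked.edge_le`.  If `v ∉ T`, they are facets of `F \ B` and possibly
`insert v T` when `T ∈ bdry B`; in that case one of the at most two facets of `F` containing `T` is in `B`.
-/

open Finset

namespace Pool.NCS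

private theorem notMem_of_bdry {F B : Finset (Finset ℤ)} (hs : B ⊆ F) {v : ℤ}
    (hv : v ∉ verts F) {S : Finset ℤ} (hS : S ∈ bdry B) : v ∉ S := by
  intro h
  obtain ⟨-, σ, hσ, hsub, -⟩ := mem_bdry.1 hS
  exact hv (mem_verts.2 ⟨σ, hs hσ, hsub h⟩)

theorem ins_card4 {F B : Finset (Finset ℤ)} (h4 : ∀ τ ∈ F, τ.card = 4) (hs : B ⊆ F) {v : ℤ}
    (hv : v ∉ verts F) : ∀ τ ∈ ins F B v, τ.card = 4 := by
  intro τ hτ
  rcases mem_ins.1 hτ with ⟨h, -⟩ | ⟨T, hT, rfl⟩
  · exact h4 τ h
  · rw [card_insert_of_notMem (notMem_of_bdry hs hv hT), (mem_bdry.1 hT).1]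

theorem ins_pm {F B : Finset (Finset ℤ)} (hp : PM F) (hB : Stacked B)
    (hs : B ⊆ F) {v : ℤ} (hv : v ∉ verts F) : PM (ins F B v) := by
  intro T hT
  by_cases hvT : v ∈ T
  · -- facets containing `v`
    have he : (T.erase v).card = 2 := by rw [card_erase_of_mem hvT, hT]
    have hsub : (ins F B v).filter (T ⊆ ·) ⊆
        ((bdry B).filter (T.erase v ⊆ ·)).image (insert v) := by
      intro τ hτ
      rw [mem_filter] at hτ
      rcases mem_ins.1 hτ.1 with ⟨h, -⟩ | ⟨S, hS, rfl⟩
      · exact absurd (mem_verts.2 ⟨τ, h, hτ.2 hvT⟩) hv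
      · refine mem_image.2 ⟨S, mem_filter.2 ⟨hS, ?_⟩, rfl⟩
        intro x hx
        rw [mem_erase] at hx
        exact (mem_insert.1 (hτ.2 hx.2)).resolve_left hx.1
    exact (card_le_card hsub).trans (card_image_le.trans (hB.edge_le he))
  · by_cases hTB : T ∈ bdry B
    · obtain ⟨-, σ, hσ, hTσ, -⟩ := mem_bdry.1 hTB
      have hsub : (ins F B v).filter (T ⊆ ·) ⊆
          insert (insert v T) ((F.filter (T ⊆ ·)).erase σ) := by
        intro τ hτ
        rw [mem_filter] at hτ
        rcases mem_ins.1 hτ.1 with ⟨h, h'⟩ | ⟨S, hS, rfl⟩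
        · refine mem_insert_of_mem (mem_erase.2 ⟨?_, mem_filter.2 ⟨h, hτ.2⟩⟩)
          rintro rfl
          exact h' hσ
        · have hTS : T ⊆ S := fun x hx => (mem_insert.1 (hτ.2 hx)).resolve_left
            (fun e => hvT (e ▸ hx))
          have : T = S := eq_of_subset_of_card_le hTS (by rw [(mem_bdry.1 hS).1, hT])
          rw [this]
          exact mem_insert_self _ _
      refine (card_le_card hsub).trans ((card_insert_le _ _).trans ?_)
      have h1 := hp T hT
      have h2 : σ ∈ F.filter (T ⊆ ·) := mem_filter.2 ⟨hs hσ, hTσ⟩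
      rw [card_erase_of_mem h2]
      omega
    · have hsub : (ins F B v).filter (T ⊆ ·) ⊆ F.filter (T ⊆ ·) := by
        intro τ hτ
        rw [mem_filter] at hτ
        rcases mem_ins.1 hτ.1 with ⟨h, -⟩ | ⟨S, hS, rfl⟩
        · exact mem_filter.2 ⟨h, hτ.2⟩
        · have hTS : T ⊆ S := fun x hx => (mem_insert.1 (hτ.2 hx)).resolve_left
            (fun e => hvT (e ▸ hx))
          have : T = S := eq_of_subset_of_card_le hTS (by rw [(mem_bdry.1 hS).1, hT])
          exact absurd (this ▸ hS) hTB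
      exact (card_le_card hsub).trans (hp T hT)

end Pool.NCS
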