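import Pool.Agent.Lib.MP_73a842_co.Basic

/-!
# NCS-Neg: everything commutes with the antipodal map
-/

open Finset

namespace Pool.NCS

private theorem sub_neg_iff {s t : Finset ℤ} : neg s ⊆ t ↔ s ⊆ neg t := by
  rw [← neg_subset_neg, neg_neg']

private theorem bdry_negF_aux {B : Finset (Finset ℤ)} {T : Finset ℤ} (h : neg T ∈ bdry B) :
    T ∈ bdry (negF B) := by
  rw [mem_bdry] at h ⊢
  obtain ⟨h1, σ, hσ, h2, h3⟩ := h
  rw [neg_card] at h1
  refine ⟨h1, neg σ, mem_negF.2 (by rwa [neg_neg']), sub_neg_iff.1 h2, fun τ hτ h4 => ?_⟩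
  have h5 := h3 (neg τ) (mem_negF.1 hτ) (neg_subset_neg.2 h4)
  rw [← h5, neg_neg']

private theorem negF_negF (B : Finset (Finset ℤ)) : negF (negF B) = B := by
  ext σ
  rw [mem_negF, mem_negF, neg_neg']

theorem bdry_negF {B : Finset (Finset ℤ)} {T : Finset ℤ} : T ∈ bdry (negF B) ↔ neg T ∈ bdry B := by
  constructor
  · intro h
    have h1 : neg (neg T) ∈ bdry (negF B) := by rwa [neg_neg']
    have h2 := bdry_negF_aux h1
    rwa [negF_negF] at h2
  · exact bdry_negF_aux

theorem mem_verts_negF {B : Finset (Finset ℤ)} {x : ℤ} : x ∈ verts (negF B) ↔ -x ∈ verts B := by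
  rw [mem_verts, mem_verts]
  constructor
  · rintro ⟨σ, hσ, hx⟩
    exact ⟨neg σ, mem_negF.1 hσ, mem_neg.2 (by rwa [neg_neg])⟩
  · rintro ⟨σ, hσ, hx⟩
    exact ⟨neg σ, mem_negF.2 (by rwa [neg_neg']), mem_neg.2 hx⟩

theorem Stacked.negF {B : Finset (Finset ℤ)} (h : Stacked B) : Stacked (negF B) := by
  induction h with
  | single σ h =>
    have h1 : Pool.NCS.negF {σ} = {neg σ} := by
      unfold Pool.NCS.negF
      rw [image_singleton]
    rw [h1]
    exact Stacked.single _ (by rwa [neg_card])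
  | step B T w h hT hw ih =>
    have h1 : Pool.NCS.negF (insert (insert w T) B)
        = insert (insert (-w) (neg T)) (Pool.NCS.negF B) := by
      unfold Pool.NCS.negF
      rw [image_insert, neg_insert]
    rw [h1]
    refine Stacked.step _ _ _ ih (bdry_negF.2 (by rwa [neg_neg'])) ?_
    rw [mem_verts_negF, neg_neg]
    exact hw

end Pool.NCS
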