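import Pool.Agent.Lib.MP_73a842_co.InsFlip
import Pool.Agent.Lib.MP_73a842_co.InsPM
import Pool.Agent.Lib.MP_73a842_co.Neg

/-!
# NCS-GoodStep: the inductive step for cs-2-neighborly spheres

`ins_flips` by induction on `Stacked` from `ins_single`, `ins_step`.  `ins2_eq`: `v = n + 1` is in no facet of
`F`, so `cone v (bdry B)` and `negF B` are disjoint.  `good_step`: `pm`, `pl`, `card4` by two applications of
`ins_*` (to `F, B, v` and to `ins F B v, negF B, -v`); `nb`: two vertices of `V n` that were in a common facet in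
`B` or `negF B` are in a common boundary triangle by `Stacked.edge_mem`; `v` (and `-v`) is in a
common facet with every vertex of `verts B = V n` (same lemma with an edge at that vertex).
-/

open Finset

namespace Pool.NCS

theorem ins_flips {F : Finset (Finset ℤ)} (h4 : ∀ τ ∈ F, τ.card = 4) (hp : PM F)
    {B : Finset (Finset ℤ)} (hB : Stacked B) (hs : B ⊆ F) {v : ℤ} (hv : v ∉ verts F) :
    Relation.ReflTransGen (Flip 3) (cl F) (cl (ins F B v)) := by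
  induction hB with
  | single σ h =>
    exact Relation.ReflTransGen.single (ins_single (hs (mem_singleton_self σ)) h4 hv)
  | step B T w h hT hw ih =>
    exact (ih ((subset_insert _ _).trans hs)).tail (ins_step h4 hp h hT hw hs hv)

private theorem not_mem_V (n : ℕ) : ((n : ℤ) + 1) ∉ V n ∧ (-((n : ℤ) + 1)) ∉ V n := by
  constructor
  · rw [mem_V]
    omega
  · rw [mem_V]
    omega

private theorem mem_V_succ (n : ℕ) (x : ℤ) :
    x ∈ V (n + 1) ↔ x ∈ V n ∨ x = (n : ℤ) + 1 ∨ x = -((n : ℤ) + 1) := by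
  rw [mem_V, mem_V]
  push_cast
  omega

theorem ins2_eq {n : ℕ} {F : Finset (Finset ℤ)} (h : Good n F) {B : Finset (Finset ℤ)} (hs : B ⊆ F) :
    ins2 F B ((n : ℤ) + 1) = ins (ins F B ((n : ℤ) + 1)) (negF B) (-((n : ℤ) + 1)) := by
  ext σ
  rw [mem_ins2, mem_ins, mem_ins, mem_negF]
  constructor
  · rintro (h1 | h1 | h1)
    · exact Or.inl ⟨Or.inl ⟨h1.1, h1.2.1⟩, h1.2.2⟩
    · refine Or.inl ⟨Or.inr h1, fun h2 => ?_⟩
      obtain ⟨T, hT, rfl⟩ := h1
      have h3 := h.sub _ (hs h2)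
      rw [neg_insert] at h3
      exact (not_mem_V n).2 (h3 (mem_insert_self _ _))
    · exact Or.inr h1
  · rintro (⟨h1 | h1, h2⟩ | h1)
    · exact Or.inl ⟨h1.1, h1.2, h2⟩
    · exact Or.inr (Or.inl h1)
    · exact Or.inr (Or.inr h1)

theorem good_step {n : ℕ} {F : Finset (Finset ℤ)} (h : Good n F) {B : Finset (Finset ℤ)}
    (hB : Stacked B) (hs : B ⊆ F) (hv : V n ⊆ verts B) (hd : ∀ σ ∈ B, neg σ ∉ B) :
    Good (n + 1) (ins2 F B ((n : ℤ) + 1)) := by
  have hvV := (not_mem_V n).1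
  have hvV' := (not_mem_V n).2
  have hvs : (n : ℤ) + 1 ≠ -((n : ℤ) + 1) := by omega
  have hV1 : ∀ x, x ∈ V (n + 1) ↔ x ∈ V n ∨ x = (n : ℤ) + 1 ∨ x = -((n : ℤ) + 1) := mem_V_succ n
  have heq := ins2_eq h hs
  set v : ℤ := (n : ℤ) + 1 with hvdef
  have hvF : v ∉ verts F := fun hc => by
    obtain ⟨σ, hσ, hx⟩ := mem_verts.1 hc
    exact hvV (h.sub σ hσ hx)
  have hTB : ∀ T ∈ bdry B, ∃ τ ∈ F, T ⊆ τ := fun T hT => by
    obtain ⟨-, σ, hσ, h1, -⟩ := mem_bdry.1 hT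
    exact ⟨σ, hs hσ, h1⟩
  have hTB' : ∀ T ∈ bdry (negF B), ∃ τ ∈ F, T ⊆ τ := fun T hT => by
    obtain ⟨-, σ, hσ, h1, -⟩ := mem_bdry.1 hT
    refine ⟨σ, ?_, h1⟩
    have h2 := h.cs _ (hs (mem_negF.1 hσ))
    rwa [neg_neg'] at h2
  have hsub' : negF B ⊆ ins F B v := by
    intro σ hσ
    have h1 := mem_negF.1 hσ
    have h2 := h.cs _ (hs h1)
    rw [neg_neg'] at h2
    exact mem_ins.2 (Or.inl ⟨h2, fun h3 => hd σ h3 h1⟩)
  have hvF' : -v ∉ verts (ins F B v) := fun hc => by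
    obtain ⟨σ, hσ, hx⟩ := mem_verts.1 hc
    rcases mem_ins.1 hσ with h1 | ⟨T, hT, rfl⟩
    · exact hvV' (h.sub σ h1.1 hx)
    · rcases mem_insert.1 hx with h1 | h1
      · exact hvs h1.symm
      · obtain ⟨τ, hτ, hTτ⟩ := hTB T hT
        exact hvV' (h.sub τ hτ (hTτ h1))
  have h4' := ins_card4 h.card4 hs hvF
  have hp' := ins_pm h.pm hB hs hvF
  have hBn := hB.negF
  have hcs : ∀ σ ∈ ins2 F B v, neg σ ∈ ins2 F B v := by
    intro σ hσ
    rw [mem_ins2] at hσ ⊢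
    rcases hσ with h1 | ⟨T, hT, rfl⟩ | ⟨T, hT, rfl⟩
    · exact Or.inl ⟨h.cs σ h1.1, h1.2.2, by rw [neg_neg']; exact h1.2.1⟩
    · refine Or.inr (Or.inr ⟨neg T, ?_, (neg_insert _ _).symm⟩)
      rw [bdry_negF, neg_neg']
      exact hT
    · refine Or.inr (Or.inl ⟨neg T, bdry_negF.1 hT, ?_⟩)
      rw [neg_insert, neg_neg]
  have hA : ∀ σ ∈ B, ∀ x ∈ σ, ∀ y ∈ σ, x ≠ y → ∃ T ∈ bdry B, x ∈ T ∧ y ∈ T := by
    intro σ hσ x hx y hy hxy
    obtain ⟨T, hT, he⟩ := hB.edge_mem hσ (e := {x, y})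
      (by rw [insert_subset_iff, singleton_subset_iff]; exact ⟨hx, hy⟩) (card_pair hxy)
    exact ⟨T, hT, he (mem_insert_self _ _), he (mem_insert_of_mem (mem_singleton_self _))⟩
  have hins : ∀ T ∈ bdry B, insert v T ∈ ins2 F B v := fun T hT =>
    mem_ins2.2 (Or.inr (Or.inl ⟨T, hT, rfl⟩))
  have hBv : ∀ x ∈ V n, ∃ σ ∈ ins2 F B v, v ∈ σ ∧ x ∈ σ := by
    intro x hx
    obtain ⟨σ, hσ, hxσ⟩ := mem_verts.1 (hv hx)
    have hc := hB.card4 σ hσ
    obtain ⟨y, hy, hyx⟩ := Finset.exists_mem_ne (by omega : 1 < σ.card) x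
    obtain ⟨T, hT, hxT, -⟩ := hA σ hσ x hxσ y hy hyx.symm
    exact ⟨insert v T, hins T hT, mem_insert_self _ _, mem_insert_of_mem hxT⟩
  have hnV : ∀ x, x ∈ V n → -x ∈ V n := fun x hx => by
    rw [mem_V] at hx ⊢
    omega
  have hBv' : ∀ x ∈ V n, ∃ σ ∈ ins2 F B v, -v ∈ σ ∧ x ∈ σ := by
    intro x hx
    obtain ⟨σ, hσ, h1, h2⟩ := hBv (-x) (hnV x hx)
    exact ⟨neg σ, hcs σ hσ, mem_neg.2 (by rw [neg_neg]; exact h1), mem_neg.2 h2⟩
  refine ⟨?_, ?_, ?_, hcs, ?_, ?_, ?_⟩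
  · rw [heq]
    exact ins_card4 h4' hsub' hvF'
  · intro σ hσ x hx
    rw [hV1]
    rcases mem_ins2.1 hσ with h1 | ⟨T, hT, rfl⟩ | ⟨T, hT, rfl⟩
    · exact Or.inl (h.sub σ h1.1 hx)
    · rcases mem_insert.1 hx with h1 | h1
      · exact Or.inr (Or.inl h1)
      · obtain ⟨τ, hτ, hTτ⟩ := hTB T hT
        exact Or.inl (h.sub τ hτ (hTτ h1))
    · rcases mem_insert.1 hx with h1 | h1
      · exact Or.inr (Or.inr h1)
      · obtain ⟨τ, hτ, hTτ⟩ := hTB' T hT
        exact Or.inl (h.sub τ hτ (hTτ h1))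
  · intro σ hσ x hx hx'
    rcases mem_ins2.1 hσ with h1 | ⟨T, hT, rfl⟩ | ⟨T, hT, rfl⟩
    · exact h.free σ h1.1 x hx hx'
    · obtain ⟨τ, hτ, hTτ⟩ := hTB T hT
      rcases mem_insert.1 hx with h1 | h1
      · rcases mem_insert.1 hx' with h2 | h2
        · rw [h1] at h2
          exact hvs h2.symm
        · rw [h1] at h2
          exact hvV' (h.sub τ hτ (hTτ h2))
      · rcases mem_insert.1 hx' with h2 | h2
        · have h3 : x = -v := by rw [← h2, neg_neg]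
          rw [h3] at h1
          exact hvV' (h.sub τ hτ (hTτ h1))
        · exact h.free τ hτ x (hTτ h1) (hTτ h2)
    · obtain ⟨τ, hτ, hTτ⟩ := hTB' T hT
      rcases mem_insert.1 hx with h1 | h1
      · rcases mem_insert.1 hx' with h2 | h2
        · rw [h1, neg_neg] at h2
          exact hvs h2
        · rw [h1, neg_neg] at h2
          exact hvV (h.sub τ hτ (hTτ h2))
      · rcases mem_insert.1 hx' with h2 | h2
        · have h3 : x = v := neg_injective h2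
          rw [h3] at h1
          exact hvV (h.sub τ hτ (hTτ h1))
        · exact h.free τ hτ x (hTτ h1) (hTτ h2)
  · rw [heq]
    exact ins_pm hp' hBn hsub' hvF'
  · intro x hx y hy hxy hxy'
    rw [hV1] at hx hy
    rcases hx with hx | hx | hx
    · rcases hy with hy | hy | hy
      · obtain ⟨σ, hσ, hxσ, hyσ⟩ := h.nb x hx y hy hxy hxy'
        by_cases h1 : σ ∈ B
        · obtain ⟨T, hT, hxT, hyT⟩ := hA σ h1 x hxσ y hyσ hxy
          exact ⟨insert v T, hins T hT, mem_insert_of_mem hxT, mem_insert_of_mem hyT⟩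
        · by_cases h2 : neg σ ∈ B
          · obtain ⟨T, hT, hxT, hyT⟩ := hA (neg σ) h2 (-x) (mem_neg.2 (by rw [neg_neg]; exact hxσ))
              (-y) (mem_neg.2 (by rw [neg_neg]; exact hyσ)) (fun h3 => hxy (neg_injective h3))
            exact ⟨neg (insert v T), hcs _ (hins T hT), mem_neg.2 (mem_insert_of_mem hxT),
              mem_neg.2 (mem_insert_of_mem hyT)⟩
          · exact ⟨σ, mem_ins2.2 (Or.inl ⟨hσ, h1, h2⟩), hxσ, hyσ⟩
      · obtain ⟨σ, hσ, h1, h2⟩ := hBv x hx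
        exact ⟨σ, hσ, h2, hy ▸ h1⟩
      · obtain ⟨σ, hσ, h1, h2⟩ := hBv' x hx
        exact ⟨σ, hσ, h2, hy ▸ h1⟩
    · rcases hy with hy | hy | hy
      · obtain ⟨σ, hσ, h1, h2⟩ := hBv y hy
        exact ⟨σ, hσ, hx ▸ h1, h2⟩
      · exact absurd (hx.trans hy.symm) hxy
      · exact absurd (by rw [hx, hy, neg_neg]) hxy'
    · rcases hy with hy | hy | hy
      · obtain ⟨σ, hσ, h1, h2⟩ := hBv' y hy
        exact ⟨σ, hσ, hx ▸ h1, h2⟩
      · exact absurd (by rw [hx, hy]) hxy'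
      · exact absurd (hx.trans hy.symm) hxy
  · obtain ⟨S, hS, hr⟩ := h.pl
    refine ⟨S, hS, ?_⟩
    rw [heq]
    exact (hr.trans (ins_flips h.card4 h.pm hB hs hvF)).trans
      (ins_flips h4' hp' hBn hsub' hvF')

end Pool.NCS
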