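import Pool.Agent.Lib.MP_73a842_co.Paths

/-!
# Squares and strips

`sq i r = {i, i+1, r, r+1}`; a strip is a monotone lattice path of squares: moves up (`r ↦ r + 1`) and
left (`i ↦ i - 1`), namely up, up, left and then pairs (up, left) or (left, up) according to the bits `c m`.
-/

open Finset

namespace Pool.NCS

def sq (i r : ℤ) : Finset ℤ := {i, i + 1, r, r + 1}

/-- number of up moves among the first `j` moves -/
def up (c : ℕ → Bool) (j : ℕ) : ℕ :=
  if j ≤ 2 then j
  else 2 + (j - 3) / 2 + (if (j - 3) % 2 = 1 ∧ c ((j - 3) / 2) = true then 1 else 0)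

/-- the strip of `k + 1` squares starting at `sq i0 r0` -/
def strip (c : ℕ → Bool) (i0 r0 : ℤ) (k : ℕ) : Finset (Finset ℤ) :=
  (range (k + 1)).image fun j => sq (i0 - j + up c j) (r0 + up c j)

theorem mem_sq {i r x : ℤ} : x ∈ sq i r ↔ x = i ∨ x = i + 1 ∨ x = r ∨ x = r + 1 := by
  simp [sq]

theorem sq_inj {i r i' r' : ℤ} (h : r + 2 ≤ i) (h' : r' + 2 ≤ i') (e : sq i r = sq i' r') :
    i = i' ∧ r = r' := by
  have h1 : i + 1 ∈ sq i' r' := e ▸ mem_sq.2 (by omega)
  have h2 : i' + 1 ∈ sq i r := e.symm ▸ mem_sq.2 (by omega)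
  have h3 : r ∈ sq i' r' := e ▸ mem_sq.2 (by omega)
  have h4 : r' ∈ sq i r := e.symm ▸ mem_sq.2 (by omega)
  rw [mem_sq] at h1 h2 h3 h4
  omega

theorem up_zero (c : ℕ → Bool) : up c 0 = 0 := rfl

theorem up_one (c : ℕ → Bool) : up c 1 = 1 := rfl

theorem up_two (c : ℕ → Bool) : up c 2 = 2 := rfl

theorem up_step (c : ℕ → Bool) (j : ℕ) : up c (j + 1) = up c j ∨ up c (j + 1) = up c j + 1 := by
  rcases Nat.lt_or_ge j 3 with h | h
  · interval_cases j
    · right; rfl
    · right; rfl
    · left; simp [up]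
  · obtain ⟨t, rfl⟩ : ∃ t, j = t + 3 := ⟨j - 3, by omega⟩
    have e1 : up c (t + 3) = 2 + t / 2 + (if t % 2 = 1 ∧ c (t / 2) = true then 1 else 0) := by
      simp [up]
    have e2 : up c (t + 3 + 1) =
        2 + (t + 1) / 2 + (if (t + 1) % 2 = 1 ∧ c ((t + 1) / 2) = true then 1 else 0) := by
      have : t + 3 + 1 - 3 = t + 1 := by omega
      rw [up, if_neg (by omega), this]
    rw [e1, e2]
    rcases Nat.even_or_odd t with ⟨s, rfl⟩ | ⟨s, rfl⟩
    · have h1 : (s + s) / 2 = s := by omega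
      have h2 : (s + s) % 2 = 0 := by omega
      have h3 : (s + s + 1) / 2 = s := by omega
      have h4 : (s + s + 1) % 2 = 1 := by omega
      rw [h1, h2, h3, h4]
      by_cases hc : c s = true
      · simp [hc]
      · simp [hc]
    · have h1 : (2 * s + 1) / 2 = s := by omega
      have h2 : (2 * s + 1) % 2 = 1 := by omega
      have h3 : (2 * s + 1 + 1) / 2 = s + 1 := by omega
      have h4 : (2 * s + 1 + 1) % 2 = 0 := by omega
      rw [h1, h2, h3, h4]
      by_cases hc : c s = true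
      · simp [hc]; omega
      · simp [hc]; omega

theorem up_le (c : ℕ → Bool) (j : ℕ) : up c j ≤ j := by
  induction j with
  | zero => simp [up]
  | succ j ih =>
    rcases up_step c j with h | h <;> omega

theorem up_band (c : ℕ → Bool) (j : ℕ) : j ≤ 2 * up c j ∧ 2 * up c j ≤ j + 2 := by
  rcases Nat.lt_or_ge j 3 with h | h
  · interval_cases j <;> simp [up]
  · obtain ⟨t, rfl⟩ : ∃ t, j = t + 3 := ⟨j - 3, by omega⟩
    have e1 : up c (t + 3) = 2 + t / 2 + (if t % 2 = 1 ∧ c (t / 2) = true then 1 else 0) := by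
      simp [up]
    rw [e1]
    split_ifs with h1 <;> omega

theorem up_bit (c : ℕ → Bool) (m : ℕ) :
    up c (2 * m + 4) = m + 2 + (if c m = true then 1 else 0) := by
  have e1 : up c (2 * m + 4) =
      2 + (2 * m + 1) / 2 + (if (2 * m + 1) % 2 = 1 ∧ c ((2 * m + 1) / 2) = true then 1 else 0) := by
    have : 2 * m + 4 - 3 = 2 * m + 1 := by omega
    rw [up, if_neg (by omega), this]
  have h1 : (2 * m + 1) / 2 = m := by omega
  have h2 : (2 * m + 1) % 2 = 1 := by omega
  rw [e1, h1, h2]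
  by_cases hc : c m = true
  · simp [hc]; omega
  · simp [hc]; omega

theorem mem_strip {c : ℕ → Bool} {i0 r0 : ℤ} {k : ℕ} {σ : Finset ℤ} :
    σ ∈ strip c i0 r0 k ↔ ∃ j : ℕ, j ≤ k ∧ σ = sq (i0 - j + up c j) (r0 + up c j) := by
  unfold strip
  rw [mem_image]
  constructor
  · rintro ⟨j, hj, rfl⟩
    exact ⟨j, by rw [mem_range] at hj; omega, rfl⟩
  · rintro ⟨j, hj, rfl⟩
    exact ⟨j, by rw [mem_range]; omega, rfl⟩

theorem strip_zero {c : ℕ → Bool} {i0 r0 : ℤ} : strip c i0 r0 0 = {sq i0 r0} := by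
  simp [strip, up_zero]

theorem strip_succ {c : ℕ → Bool} {i0 r0 : ℤ} {k : ℕ} :
    strip c i0 r0 (k + 1) =
      insert (sq (i0 - (k + 1 : ℕ) + up c (k + 1)) (r0 + up c (k + 1))) (strip c i0 r0 k) := by
  unfold strip
  rw [range_add_one, image_insert]

theorem strip_band {c : ℕ → Bool} {i0 r0 : ℤ} {k : ℕ} (hk : i0 = r0 + k + 2) {σ : Finset ℤ}
    (h : σ ∈ strip c i0 r0 k) : ∃ i r : ℤ, σ = sq i r ∧ r + 2 ≤ i ∧ i ≤ i0 ∧ r0 ≤ r ∧
      i0 + r0 ≤ i + r ∧ i + r ≤ i0 + r0 + 2 := by
  obtain ⟨j, hj, rfl⟩ := mem_strip.1 h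
  have h1 := up_le c j
  have h2 := up_band c j
  exact ⟨_, _, rfl, by omega, by omega, by omega, by omega, by omega⟩

theorem strip_first {c : ℕ → Bool} {i0 r0 : ℤ} {k : ℕ} (hk : 2 ≤ k) :
    sq i0 r0 ∈ strip c i0 r0 k ∧ sq i0 (r0 + 1) ∈ strip c i0 r0 k ∧
      sq i0 (r0 + 2) ∈ strip c i0 r0 k := by
  refine ⟨mem_strip.2 ⟨0, by omega, ?_⟩, mem_strip.2 ⟨1, by omega, ?_⟩, mem_strip.2 ⟨2, by omega, ?_⟩⟩
  · simp [up_zero]
  · simp [up_one]
  · simp [up_two]

theorem strip_bit {c : ℕ → Bool} {i0 r0 : ℤ} {k : ℕ} (hk : i0 = r0 + k + 2) {m : ℕ}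
    (hm : 2 * m + 4 ≤ k) :
    sq (i0 - 1 - m) (r0 + 3 + m) ∈ strip c i0 r0 k ↔ c m = true := by
  constructor
  · intro h
    obtain ⟨j, hj, e⟩ := mem_strip.1 h
    have h1 := up_le c j
    have h3 := sq_inj (by omega) (by omega) e
    have h4 : j = 2 * m + 4 := by omega
    subst h4
    have h5 := up_bit c m
    by_contra hc
    rw [if_neg hc] at h5
    omega
  · intro h
    have h5 := up_bit c m
    rw [if_pos h] at h5
    refine mem_strip.2 ⟨2 * m + 4, hm, ?_⟩
    rw [h5]
    congr 1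
    · push_cast; ring
    · push_cast; ring

theorem mem_verts_strip_of {c : ℕ → Bool} {i0 r0 : ℤ} (j : ℕ) {x : ℤ}
    (h : (r0 ≤ x ∧ x ≤ r0 + up c j + 1) ∨ (i0 - j + up c j ≤ x ∧ x ≤ i0 + 1)) :
    x ∈ verts (strip c i0 r0 j) := by
  induction j with
  | zero =>
    rw [strip_zero, verts_single, mem_sq]
    rw [up_zero] at h
    push_cast at h
    omega
  | succ j ih =>
    rw [strip_succ, verts_insert, mem_union, mem_sq]
    rcases up_step c j with e | e
    · rw [e] at h ⊢
      by_cases hx : x = i0 - (j + 1 : ℕ) + up c j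
      · left; omega
      · right
        apply ih
        push_cast at h hx
        omega
    · rw [e] at h ⊢
      by_cases hx : x = r0 + up c j + 2
      · left; push_cast; omega
      · right
        apply ih
        push_cast at h hx
        omega

theorem mem_verts_strip {c : ℕ → Bool} {i0 r0 : ℤ} {k : ℕ} (hk : i0 = r0 + k + 2) {x : ℤ} :
    x ∈ verts (strip c i0 r0 k) ↔ r0 ≤ x ∧ x ≤ i0 + 1 := by
  constructor
  · intro h
    obtain ⟨σ, hσ, hx⟩ := mem_verts.1 h
    obtain ⟨i, r, rfl, h1, h2, h3, -, -⟩ := strip_band hk hσ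
    rw [mem_sq] at hx
    omega
  · intro h
    apply mem_verts_strip_of
    omega

theorem strip_chain_aux {c : ℕ → Bool} {i0 r0 : ℤ} {k : ℕ} (hk : i0 = r0 + k + 2)
    {B : Finset (Finset ℤ)} {σ : Finset ℤ} {w : ℤ} (h : Chain B σ w)
    (hT : {i0, i0 + 1, r0} ⊆ σ) (hw : w ∈ ({i0, i0 + 1, r0} : Finset ℤ))
    (hn : ∀ x, r0 < x → x < i0 → x ∉ verts B) (j : ℕ) (hj : j ≤ k) :
    (∃ w', (w' = i0 - j + up c j ∨ w' = r0 + up c j + 1) ∧
      Chain (B ∪ strip c i0 r0 j) (sq (i0 - j + up c j) (r0 + up c j)) w') ∧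
      ∀ x, r0 + up c j + 1 < x → x < i0 - j + up c j → x ∉ verts (B ∪ strip c i0 r0 j) := by
  induction j with
  | zero =>
    rw [up_zero]
    push_cast
    rw [sub_zero, add_zero, add_zero]
    have e : B ∪ strip c i0 r0 0 = insert (insert (r0 + 1) {i0, i0 + 1, r0}) B := by
      rw [strip_zero, union_comm, ← insert_eq]
      congr 1
      ext x
      rw [mem_sq]
      simp only [mem_insert, mem_singleton]
      tauto
    have e' : sq i0 r0 = insert (r0 + 1) {i0, i0 + 1, r0} := by
      ext x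
      rw [mem_sq]
      simp only [mem_insert, mem_singleton]
      tauto
    refine ⟨⟨r0 + 1, Or.inr rfl, ?_⟩, ?_⟩
    · rw [e, e']
      exact h.step hT hw (card_three (by omega) (by omega) (by omega)) (hn _ (by omega) (by omega))
    · intro x h1 h2
      rw [e, verts_insert, mem_union]
      simp only [mem_insert, mem_singleton]
      rintro (h3 | h3)
      · omega
      · exact hn x (by omega) h2 h3
  | succ j ih =>
    obtain ⟨⟨w', hw', h1⟩, h2⟩ := ih (by omega)
    have hle := up_le c j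
    have e : B ∪ strip c i0 r0 (j + 1) =
        insert (sq (i0 - (j + 1 : ℕ) + up c (j + 1)) (r0 + up c (j + 1)))
          (B ∪ strip c i0 r0 j) := by
      rw [strip_succ, union_insert]
    rw [e]
    rcases up_step c j with e1 | e1
    · -- left move
      rw [e1]
      set a : ℤ := i0 - j + up c j with ha
      set b : ℤ := r0 + up c j with hb
      have ea : i0 - (j + 1 : ℕ) + up c j = a - 1 := by push_cast; omega
      rw [ea]
      have e' : sq (a - 1) b = insert (a - 1) {a, b, b + 1} := by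
        ext x
        rw [mem_sq]
        simp only [mem_insert, mem_singleton]
        omega
      have hnew : a - 1 ∉ verts (B ∪ strip c i0 r0 j) := h2 _ (by omega) (by omega)
      refine ⟨⟨a - 1, Or.inl rfl, ?_⟩, ?_⟩
      · rw [e']
        refine h1.step ?_ ?_ (card_three (by omega) (by omega) (by omega)) hnew
        · intro x
          rw [mem_sq]
          simp only [mem_insert, mem_singleton]
          tauto
        · simp only [mem_insert, mem_singleton]
          omega
      · intro x h3 h4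
        rw [verts_insert, mem_union, mem_sq]
        rintro (h5 | h5)
        · omega
        · exact h2 x (by omega) (by omega) h5
    · -- up move
      rw [e1]
      set a : ℤ := i0 - j + up c j with ha
      set b : ℤ := r0 + up c j with hb
      have ea : i0 - (j + 1 : ℕ) + (up c j + 1 : ℕ) = a := by push_cast; omega
      have eb : r0 + (up c j + 1 : ℕ) = b + 1 := by push_cast; omega
      rw [ea, eb]
      have e' : sq a (b + 1) = insert (b + 2) {a, a + 1, b + 1} := by
        ext x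
        rw [mem_sq]
        simp only [mem_insert, mem_singleton]
        omega
      have hnew : b + 2 ∉ verts (B ∪ strip c i0 r0 j) := h2 _ (by omega) (by omega)
      refine ⟨⟨b + 2, Or.inr (by omega), ?_⟩, ?_⟩
      · rw [e']
        refine h1.step ?_ ?_ (card_three (by omega) (by omega) (by omega)) hnew
        · intro x
          rw [mem_sq]
          simp only [mem_insert, mem_singleton]
          tauto
        · simp only [mem_insert, mem_singleton]
          omega
      · intro x h3 h4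
        rw [verts_insert, mem_union, mem_sq]
        rintro (h5 | h5)
        · omega
        · exact h2 x (by omega) (by omega) h5

theorem strip_chain {c : ℕ → Bool} {i0 r0 : ℤ} {k : ℕ} (hk : i0 = r0 + k + 2)
    {B : Finset (Finset ℤ)} {σ : Finset ℤ} {w : ℤ} (h : Chain B σ w)
    (hT : {i0, i0 + 1, r0} ⊆ σ) (hw : w ∈ ({i0, i0 + 1, r0} : Finset ℤ))
    (hn : ∀ x, r0 < x → x < i0 → x ∉ verts B) :
    ∃ σ' w', Chain (B ∪ strip c i0 r0 k) σ' w' := by
  obtain ⟨⟨w', -, h1⟩, -⟩ := strip_chain_aux (c := c) hk h hT hw hn k le_rfl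
  exact ⟨_, _, h1⟩

end Pool.NCS
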