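import Pool.Agent.Lib.MP_73a842_co.BaseStack
import Pool.Agent.Lib.MP_73a842_co.Strip
import Pool.Agent.Lib.MP_73a842_co.GoodStep
import Pool.Agent.Lib.MP_73a842_co.Cross

/-!
# The base spheres
-/

open Finset

namespace Pool.NCS

theorem neg3 (a b c : ℤ) : neg {a, b, c} = {-a, -b, -c} := by
  simp [neg, image_insert]

theorem neg4 (a b c d : ℤ) : neg {a, b, c, d} = {-a, -b, -c, -d} := by
  simp [neg, image_insert]

/-- membership in `ins2` through a boundary triangle -/
theorem ins2_of_bdry {F B : Finset (Finset ℤ)} {v a b c : ℤ} {σ : Finset ℤ}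
    (h : ({a, b, c} : Finset ℤ) ∈ bdry B) (e : ∀ x, x ∈ σ ↔ x = v ∨ x = a ∨ x = b ∨ x = c) :
    σ ∈ ins2 F B v := by
  refine mem_ins2.2 (Or.inr (Or.inl ⟨_, h, ?_⟩))
  ext x
  rw [e]
  simp only [mem_insert, mem_singleton]

theorem ins2_of_bdry_neg {F B : Finset (Finset ℤ)} {v a b c : ℤ} {σ : Finset ℤ}
    (h : ({a, b, c} : Finset ℤ) ∈ bdry B)
    (e : ∀ x, x ∈ σ ↔ x = -v ∨ x = -a ∨ x = -b ∨ x = -c) :
    σ ∈ ins2 F B v := by
  refine mem_ins2.2 (Or.inr (Or.inr ⟨neg {a, b, c}, bdry_negF.2 (by rwa [neg_neg']), ?_⟩))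
  ext x
  rw [e, neg3]
  simp only [mem_insert, mem_singleton]

theorem baseBall_next {n : ℕ} (hn : 4 ≤ n) (F : Finset (Finset ℤ)) :
    baseBall (n + 1) ⊆ ins2 F (baseBall n) ((n : ℤ) + 1) := by
  intro σ hσ
  rcases (mem_baseBall (by omega)).1 hσ with rfl | rfl | ⟨q, h3, h4, rfl⟩ | rfl |
    ⟨q, h3, h4, rfl⟩ | rfl
  · refine ins2_of_bdry_neg (bb8 hn) fun x => ?_
    simp only [mem_insert, mem_singleton]; push_cast; omega
  · refine ins2_of_bdry (bb7 hn) fun x => ?_
    simp only [mem_insert, mem_singleton]; push_cast; omega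
  · by_cases h : q ≤ n - 2
    · refine ins2_of_bdry (bb1 hn h3 h) fun x => ?_
      simp only [mem_insert, mem_singleton]; push_cast; omega
    · refine ins2_of_bdry (bb2 hn) fun x => ?_
      push_cast at h4
      simp only [mem_insert, mem_singleton]; push_cast; omega
  · refine ins2_of_bdry (bb3 hn) fun x => ?_
    simp only [mem_insert, mem_singleton]; push_cast; omega
  · push_cast at h3
    by_cases h : q = -(n : ℤ)
    · refine ins2_of_bdry (bb4 hn) fun x => ?_
      simp only [mem_insert, mem_singleton]; push_cast; omega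
    · refine ins2_of_bdry (bb5 hn (p := q) (by omega) h4) fun x => ?_
      simp only [mem_insert, mem_singleton]; push_cast; omega
  · refine ins2_of_bdry (bb6 hn) fun x => ?_
    simp only [mem_insert, mem_singleton]; push_cast; omega

theorem base_good (m : ℕ) : Good (m + 4) (base m) ∧ baseBall (m + 4) ⊆ base m := by
  induction m with
  | zero =>
    refine ⟨good_cross, ?_⟩
    decide +kernel
  | succ m ih =>
    have h4 : 4 ≤ m + 4 := by omega
    constructor
    · have := good_step ih.1 (baseBall_stacked h4) ih.2 (baseBall_verts h4) (baseBall_neg h4)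
      have e : m + 1 + 4 = m + 4 + 1 := by omega
      rw [e]
      exact this
    · have := baseBall_next h4 (base m)
      have e : m + 1 + 4 = m + 4 + 1 := by omega
      rw [e]
      exact this

theorem base_sq (m : ℕ) {i r : ℤ} (h1 : 2 ≤ r) (h2 : r + 2 ≤ i) (h3 : i ≤ m + 3) :
    sq i r ∈ base m := by
  induction m with
  | zero => push_cast at h3; omega
  | succ m ih =>
    have h4 : 4 ≤ m + 4 := by omega
    rw [base]
    by_cases h : i ≤ m + 3
    · refine mem_ins2.2 (Or.inl ⟨ih h, fun hs => ?_, fun hs => ?_⟩)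
      · have a1 : ∀ x ∈ sq i r, 2 ≤ x := by
          intro x hx
          rw [mem_sq] at hx
          omega
        rcases (mem_baseBall h4).1 hs with e | e | ⟨q, h3, h4, e⟩ | e | ⟨q, h3, h4, e⟩ | e <;>
          rw [e] at a1
        · have := a1 1 (by simp)
          omega
        · have := a1 (-1) (by simp)
          omega
        · have := a1 1 (by simp)
          omega
        · have := a1 1 (by simp)
          omega
        · have := a1 q (by simp)
          omega
        · have := a1 (-1) (by simp)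
          omega
      · have a1 : ∀ x ∈ neg (sq i r), x ≤ -2 := by
          intro x hx
          rw [mem_neg, mem_sq] at hx
          omega
        rcases (mem_baseBall h4).1 hs with e | e | ⟨q, h3, h4, e⟩ | e | ⟨q, h3, h4, e⟩ | e <;>
          rw [e] at a1
        · have := a1 1 (by simp)
          omega
        · have := a1 ((m + 4 : ℕ) : ℤ) (by simp)
          omega
        · have := a1 1 (by simp)
          omega
        · have := a1 1 (by simp)
          omega
        · have := a1 2 (by simp)
          omega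
        · have := a1 2 (by simp)
          omega
    · push_cast at h3
      obtain rfl : i = ((m + 4 : ℕ) : ℤ) := by push_cast; omega
      refine ins2_of_bdry (bb9 h4 h1 (by omega)) fun x => ?_
      rw [mem_sq]
      omega

theorem adj_down {n : ℕ} (hn : 4 ≤ n) {p q : ℤ} :
    adj (2 :: (dec (-1) (n - 1) ++ [1])) p q ↔
      (p = 2 ∧ q = -1) ∨ (-((n : ℤ) - 2) ≤ p ∧ p ≤ -1 ∧ q = p - 1) ∨
        (p = -((n : ℤ) - 1) ∧ q = 1) := by
  have h0 : dec (-1) (n - 1) ≠ [] := dec_ne_nil (by omega)
  have h1 : adj (2 :: (dec (-1) (n - 1) ++ [1])) p q ↔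
      adj ([2] ++ (dec (-1) (n - 1) ++ [1])) p q := Iff.rfl
  rw [h1, adj_append (by simp) (by simp), adj_append h0 (by simp), adj_dec, getLast_dec]
  have h2 : (dec (-1) (n - 1) ++ [1]).head (by simp) = -1 := by
    rw [List.head_append_of_ne_nil h0, head_dec]
  rw [h2]
  simp only [adj, List.getLast_singleton, List.head_cons, false_or, or_false]
  push_cast
  omega

theorem base_path (m : ℕ) {p q : ℤ} (h : adj (2 :: (dec (-1) (m + 4 - 1) ++ [1])) p q) :
    {((m + 4 : ℕ) : ℤ), ((m + 4 : ℕ) : ℤ) + 1, p, q} ∈ base (m + 1) := by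
  have h4 : 4 ≤ m + 4 := by omega
  rw [base]
  rcases (adj_down h4).1 h with ⟨rfl, rfl⟩ | ⟨h1, h2, rfl⟩ | ⟨rfl, rfl⟩
  · refine ins2_of_bdry (bb14 h4) fun x => ?_
    simp only [mem_insert, mem_singleton]; omega
  · by_cases h3 : p = -1
    · refine ins2_of_bdry (bb8 h4) fun x => ?_
      simp only [mem_insert, mem_singleton]; omega
    · by_cases h5 : p = -2
      · refine ins2_of_bdry (bb12 h4) fun x => ?_
        simp only [mem_insert, mem_singleton]; omega
      · refine ins2_of_bdry (bb11 h4 (p := p - 1) (by omega) (by omega)) fun x => ?_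
        simp only [mem_insert, mem_singleton]; omega
  · refine ins2_of_bdry (bb10 h4) fun x => ?_
    simp only [mem_insert, mem_singleton]; omega

theorem base_extra1 (m : ℕ) :
    {((m + 4 : ℕ) : ℤ) + 1, -((m + 4 : ℕ) : ℤ), -(((m + 4 : ℕ) : ℤ) - 1), 1} ∈ base (m + 1) := by
  rw [base]
  refine ins2_of_bdry (bb15 (by omega)) fun x => ?_
  simp only [mem_insert, mem_singleton]

theorem base_extra2 (m : ℕ) :
    {-(((m + 4 : ℕ) : ℤ) + 1), ((m + 4 : ℕ) : ℤ), -1, -2} ∈ base (m + 1) := by
  rw [base]
  refine ins2_of_bdry_neg (bb3 (by omega)) fun x => ?_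
  simp only [mem_insert, mem_singleton]
  omega

end Pool.NCS
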