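import Pool.Agent.Lib.MP_73a842_co.BaseFacts

/-!
# `baseBall n` is a stacked ball with vertex set `V n`
-/

open Finset

namespace Pool.NCS

theorem baseBall_verts {n : ℕ} (hn : 4 ≤ n) : V n ⊆ verts (baseBall n) := by
  intro x hx
  rw [mem_V] at hx
  rw [mem_verts]
  have key : ∀ σ : Finset ℤ, σ ∈ baseBall n → x ∈ σ → ∃ σ ∈ baseBall n, x ∈ σ :=
    fun σ h1 h2 => ⟨σ, h1, h2⟩
  have e1 : ({-(n : ℤ), 1, 2, -((n : ℤ) - 1)} : Finset ℤ) ∈ baseBall n :=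
    (mem_baseBall hn).2 (Or.inl rfl)
  have e2 : ({(n : ℤ), -2, -1, -3} : Finset ℤ) ∈ baseBall n :=
    (mem_baseBall hn).2 (Or.inr (Or.inl rfl))
  by_cases h1 : x = -(n : ℤ) ∨ x = 1 ∨ x = 2 ∨ x = -((n : ℤ) - 1)
  · exact key _ e1 (by simpa using h1)
  by_cases h2 : x = (n : ℤ) ∨ x = -2 ∨ x = -1 ∨ x = -3
  · exact key _ e2 (by simpa using h2)
  by_cases h3 : 0 < x
  · refine key {1, (n : ℤ), x - 1, x - 1 + 1}
      ((mem_baseBall hn).2 (Or.inr (Or.inr (Or.inl ⟨x - 1, by omega, by omega, rfl⟩)))) ?_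
    simp
  · refine key {2, (n : ℤ), x, x + 1}
      ((mem_baseBall hn).2 (Or.inr (Or.inr (Or.inr (Or.inr (Or.inl ⟨x, by omega, by omega, rfl⟩)))))) ?_
    simp

theorem baseBall_neg {n : ℕ} (hn : 4 ≤ n) : ∀ σ ∈ baseBall n, neg σ ∉ baseBall n := by
  have hN : (n : ℤ) ≠ -(n : ℤ) := by omega
  -- every member other than the first contains `n`; the first contains `-n`
  have h1 : ∀ σ ∈ baseBall n, σ = {-(n : ℤ), 1, 2, -((n : ℤ) - 1)} ∨ (n : ℤ) ∈ σ := by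
    intro σ hσ
    rcases (mem_baseBall hn).1 hσ with rfl | rfl | ⟨q, h3, h4, rfl⟩ | rfl | ⟨q, h3, h4, rfl⟩ | rfl <;>
      simp
  have h2 : ∀ σ ∈ baseBall n, -(n : ℤ) ∈ σ → σ = {-(n : ℤ), 1, 2, -((n : ℤ) - 1)} := by
    intro σ hσ h
    rcases (mem_baseBall hn).1 hσ with rfl | rfl | ⟨q, h3, h4, rfl⟩ | rfl | ⟨q, h3, h4, rfl⟩ | rfl
    · rfl
    all_goals
      simp only [mem_insert, mem_singleton] at h
      omega
  have h3 : (neg {-(n : ℤ), 1, 2, -((n : ℤ) - 1)} : Finset ℤ) ∉ baseBall n := by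
    intro h
    have h4 : ((n : ℤ) - 1) ∈ neg {-(n : ℤ), 1, 2, -((n : ℤ) - 1)} := by
      rw [mem_neg]; simp
    have h5 : (-1 : ℤ) ∈ neg {-(n : ℤ), 1, 2, -((n : ℤ) - 1)} := by
      rw [mem_neg]; simp
    rcases (mem_baseBall hn).1 h with e | e | ⟨q, h6, h7, e⟩ | e | ⟨q, h6, h7, e⟩ | e <;>
      rw [e] at h4 h5 <;> simp only [mem_insert, mem_singleton] at h4 h5 <;> omega
  intro σ hσ hσ'
  rcases h1 σ hσ with rfl | h
  · exact h3 hσ'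
  · have : -(n : ℤ) ∈ neg σ := by rw [mem_neg]; simpa using h
    have e := h2 _ hσ' this
    apply h3
    rw [← e, neg_neg']
    exact hσ

theorem baseBall_stacked {n : ℕ} (hn : 4 ≤ n) : Stacked (baseBall n) := by
  obtain ⟨k, rfl⟩ : ∃ k, n = k + 4 := ⟨n - 4, by omega⟩
  -- the first fan
  have hl : inc 2 (k + 4 - 2) = 2 :: 3 :: inc 4 k := rfl
  have hnot : ∀ x : ℤ, x ∉ inc 2 (k + 4 - 2) ↔ ¬ (2 ≤ x ∧ x < 2 + (k + 4 - 2 : ℕ)) := fun x => by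
    rw [mem_inc]
  have c1 : Chain (fan 1 ((k + 4 : ℕ) : ℤ) (2 :: 3 :: inc 4 k)) {1, ((k + 4 : ℕ) : ℤ), 2, 3} 2 := by
    refine fan_chain (by push_cast; omega) ?_ ?_ ?_
    · rw [← hl]; exact nodup_inc
    · rw [← hl, hnot]; omega
    · rw [← hl, hnot]; push_cast; omega
  have hv1 : ∀ x, x ∈ verts (fan 1 ((k + 4 : ℕ) : ℤ) (2 :: 3 :: inc 4 k)) ↔
      x = 1 ∨ x = ((k + 4 : ℕ) : ℤ) ∨ (2 ≤ x ∧ x < 2 + (k + 4 - 2 : ℕ)) := fun x => by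
    rw [mem_verts_fan, ← hl, mem_inc]
  -- the second fan
  have c2 := c1.fan (u := 2) (o := ((k + 4 : ℕ) : ℤ)) (p := 1)
    (l := inc (-(((k + 4 : ℕ) : ℤ) - 1)) (k + 4 - 3) ++ [-1])
    (by intro x; simp only [mem_insert, mem_singleton]; tauto) (by simp)
    (card_three (by omega) (by omega) (by omega))
    (by
      rw [List.nodup_append]
      refine ⟨nodup_inc, by simp, ?_⟩
      intro x hx y hy
      rw [mem_inc] at hx
      simp only [List.mem_singleton] at hy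
      push_cast at hx
      omega)
    (by
      intro x hx
      rw [hv1]
      rw [List.mem_append, mem_inc] at hx
      simp only [List.mem_singleton] at hx
      push_cast at hx ⊢
      omega)
  obtain ⟨σ', w', c2⟩ := c2
  rw [← hl] at c2
  -- the two further tetrahedra
  have hmem : ∀ τ, τ ∈ fan 1 ((k + 4 : ℕ) : ℤ) (inc 2 (k + 4 - 2)) ∪
      fan 2 ((k + 4 : ℕ) : ℤ) (1 :: (inc (-(((k + 4 : ℕ) : ℤ) - 1)) (k + 4 - 3) ++ [-1])) ↔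
      (∃ p : ℤ, 2 ≤ p ∧ p ≤ ((k + 4 : ℕ) : ℤ) - 2 ∧ τ = {1, ((k + 4 : ℕ) : ℤ), p, p + 1}) ∨
      τ = {2, ((k + 4 : ℕ) : ℤ), 1, -(((k + 4 : ℕ) : ℤ) - 1)} ∨
      (∃ p : ℤ, -(((k + 4 : ℕ) : ℤ) - 1) ≤ p ∧ p ≤ -4 ∧ τ = {2, ((k + 4 : ℕ) : ℤ), p, p + 1}) ∨
      τ = {2, ((k + 4 : ℕ) : ℤ), -3, -1} := by
    intro τ
    rw [mem_union, mem_fan, mem_fan]
    simp only [adj_second hn, adj_inc]
    constructor
    · rintro (⟨p, q, ⟨h1, h2, rfl⟩, h3⟩ | ⟨p, q, ⟨rfl, rfl⟩ | ⟨h1, h2, rfl⟩ | ⟨rfl, rfl⟩, h3⟩)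
      · exact Or.inl ⟨p, h1, by omega, h3⟩
      · exact Or.inr (Or.inl h3)
      · exact Or.inr (Or.inr (Or.inl ⟨p, h1, h2, h3⟩))
      · exact Or.inr (Or.inr (Or.inr h3))
    · rintro (⟨p, h1, h2, h3⟩ | h3 | ⟨p, h1, h2, h3⟩ | h3)
      · exact Or.inl ⟨p, p + 1, ⟨h1, by omega, rfl⟩, h3⟩
      · exact Or.inr ⟨_, _, Or.inl ⟨rfl, rfl⟩, h3⟩
      · exact Or.inr ⟨p, p + 1, Or.inr (Or.inl ⟨h1, h2, rfl⟩), h3⟩
      · exact Or.inr ⟨_, _, Or.inr (Or.inr ⟨rfl, rfl⟩), h3⟩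
  set N : ℤ := ((k + 4 : ℕ) : ℤ) with hN
  have hN4 : 4 ≤ N := by omega
  unfold baseBall
  rw [← hN]
  set C := fan 1 N (inc 2 (k + 4 - 2)) ∪ fan 2 N (1 :: (inc (-(N - 1)) (k + 4 - 3) ++ [-1])) with hC
  have b1 : ({N, -1, -3} : Finset ℤ) ∈ bdry C := by
    refine bdry_intro (by omega) (by omega) (by omega)
      ((hmem {2, N, -3, -1}).2 (Or.inr (Or.inr (Or.inr rfl)))) (sub4.2 (by omega)) fun τ hτ hs => ?_
    rcases (hmem τ).1 hτ with ⟨q, h3, h4, rfl⟩ | rfl | ⟨q, h3, h4, rfl⟩ | rfl <;>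
      rw [sub4] at hs <;> omega
  have n1 : (-2 : ℤ) ∉ verts C := by
    rw [mem_verts]
    rintro ⟨τ, hτ, hx⟩
    rcases (hmem τ).1 hτ with ⟨q, h3, h4, rfl⟩ | rfl | ⟨q, h3, h4, rfl⟩ | rfl <;>
      simp only [mem_insert, mem_singleton] at hx <;> omega
  have s1 := Stacked.step C _ (-2) c2.1 b1 n1
  have e1 : (insert (-2) {N, -1, -3} : Finset ℤ) = {N, -2, -1, -3} := by
    ext x; simp only [mem_insert, mem_singleton]; tauto
  rw [e1] at s1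
  have b2 : ({1, 2, -(N - 1)} : Finset ℤ) ∈ bdry (insert {N, -2, -1, -3} C) := by
    refine bdry_intro (by omega) (by omega) (by omega)
      (mem_insert_of_mem ((hmem {2, N, 1, -(N - 1)}).2 (Or.inr (Or.inl rfl))))
      (sub4.2 (by omega)) fun τ hτ hs => ?_
    rcases mem_insert.1 hτ with rfl | hτ
    · rw [sub4] at hs; omega
    rcases (hmem τ).1 hτ with ⟨q, h3, h4, rfl⟩ | rfl | ⟨q, h3, h4, rfl⟩ | rfl <;>
      rw [sub4] at hs <;> omega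
  have n2 : -N ∉ verts (insert {N, -2, -1, -3} C) := by
    rw [mem_verts]
    rintro ⟨τ, hτ, hx⟩
    rcases mem_insert.1 hτ with rfl | hτ
    · simp only [mem_insert, mem_singleton] at hx; omega
    rcases (hmem τ).1 hτ with ⟨q, h3, h4, rfl⟩ | rfl | ⟨q, h3, h4, rfl⟩ | rfl <;>
      simp only [mem_insert, mem_singleton] at hx <;> omega
  exact Stacked.step _ _ (-N) s1 b2 n2

end Pool.NCS
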