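import Pool.Agent.Lib.MP_73a842_co.Fac

/-!
# Basic membership lemmas
-/

open Finset

namespace Pool.NCS

theorem mem_V {n : ℕ} {x : ℤ} : x ∈ V n ↔ x ≠ 0 ∧ -(n : ℤ) ≤ x ∧ x ≤ n := by
  simp [V]

theorem mem_neg {s : Finset ℤ} {x : ℤ} : x ∈ neg s ↔ -x ∈ s := by
  unfold neg
  rw [mem_image]
  constructor
  · rintro ⟨a, ha, rfl⟩
    simpa using ha
  · intro h
    exact ⟨-x, h, by simp⟩

@[simp] theorem neg_neg' (s : Finset ℤ) : neg (neg s) = s := by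
  ext x
  rw [mem_neg, mem_neg, neg_neg]

theorem neg_card (s : Finset ℤ) : (neg s).card = s.card :=
  card_image_of_injective _ neg_injective

theorem neg_subset_neg {s t : Finset ℤ} : neg s ⊆ neg t ↔ s ⊆ t := by
  constructor
  · intro h x hx
    have := h (mem_neg.2 (by simpa using hx) : -x ∈ neg s)
    simpa [mem_neg] using this
  · intro h x hx
    exact mem_neg.2 (h (mem_neg.1 hx))

theorem neg_injective' : Function.Injective neg := fun s t h => by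
  rw [← neg_neg' s, h, neg_neg']

theorem neg_insert (w : ℤ) (s : Finset ℤ) : neg (insert w s) = insert (-w) (neg s) := by
  unfold neg
  rw [image_insert]

theorem mem_negF {F : Finset (Finset ℤ)} {σ : Finset ℤ} : σ ∈ negF F ↔ neg σ ∈ F := by
  unfold negF
  rw [mem_image]
  constructor
  · rintro ⟨a, ha, rfl⟩
    simpa using ha
  · intro h
    exact ⟨neg σ, h, by simp⟩

theorem mem_verts {B : Finset (Finset ℤ)} {x : ℤ} : x ∈ verts B ↔ ∃ σ ∈ B, x ∈ σ := by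
  simp [verts]

theorem mem_cone {v : ℤ} {S : Finset (Finset ℤ)} {σ : Finset ℤ} :
    σ ∈ cone v S ↔ ∃ T ∈ S, insert v T = σ := by
  simp [cone]

theorem mem_bdry {B : Finset (Finset ℤ)} {T : Finset ℤ} :
    T ∈ bdry B ↔ T.card = 3 ∧ ∃ σ ∈ B, T ⊆ σ ∧ ∀ τ ∈ B, T ⊆ τ → τ = σ := by
  unfold bdry
  rw [mem_filter, mem_biUnion]
  constructor
  · rintro ⟨⟨σ, -, h2⟩, h3⟩
    exact ⟨(mem_powersetCard.1 h2).2, h3⟩
  · rintro ⟨h1, σ, hσ, h2, h3⟩
    exact ⟨⟨σ, hσ, mem_powersetCard.2 ⟨h2, h1⟩⟩, σ, hσ, h2, h3⟩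

theorem mem_ins {F B : Finset (Finset ℤ)} {v : ℤ} {σ : Finset ℤ} :
    σ ∈ ins F B v ↔ (σ ∈ F ∧ σ ∉ B) ∨ ∃ T ∈ bdry B, insert v T = σ := by
  unfold ins
  rw [mem_union, mem_sdiff, mem_cone]

theorem mem_ins2 {F B : Finset (Finset ℤ)} {v : ℤ} {σ : Finset ℤ} :
    σ ∈ ins2 F B v ↔ (σ ∈ F ∧ σ ∉ B ∧ neg σ ∉ B) ∨ (∃ T ∈ bdry B, insert v T = σ) ∨
      ∃ T ∈ bdry (negF B), insert (-v) T = σ := by
  unfold ins2
  rw [mem_union, mem_sdiff, mem_union, mem_union, mem_negF, mem_cone, mem_cone, not_or]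

theorem verts_insert (σ : Finset ℤ) (B : Finset (Finset ℤ)) :
    verts (insert σ B) = σ ∪ verts B := by
  unfold verts
  rw [biUnion_insert, id]

theorem verts_union (B C : Finset (Finset ℤ)) : verts (B ∪ C) = verts B ∪ verts C := by
  ext x
  simp only [mem_union, mem_verts]
  constructor
  · rintro ⟨σ, h | h, hx⟩
    · exact Or.inl ⟨σ, h, hx⟩
    · exact Or.inr ⟨σ, h, hx⟩
  · rintro (⟨σ, h, hx⟩ | ⟨σ, h, hx⟩)
    · exact ⟨σ, Or.inl h, hx⟩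
    · exact ⟨σ, Or.inr h, hx⟩

theorem verts_single (σ : Finset ℤ) : verts {σ} = σ := by
  unfold verts
  rw [singleton_biUnion, id]

/-- a vertex of `B` that lies in only one tetrahedron -/
def Leaf (B : Finset (Finset ℤ)) (σ : Finset ℤ) (w : ℤ) : Prop :=
  σ ∈ B ∧ w ∈ σ ∧ ∀ τ ∈ B, w ∈ τ → τ = σ

theorem Leaf.bdry {B : Finset (Finset ℤ)} {σ : Finset ℤ} {w : ℤ} (h : Leaf B σ w) {T : Finset ℤ}
    (hT : T ⊆ σ) (hw : w ∈ T) (hc : T.card = 3) : T ∈ bdry B :=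
  mem_bdry.2 ⟨hc, σ, h.1, hT, fun τ hτ hs => h.2.2 τ hτ (hs hw)⟩

/-- stacked, with a tetrahedron and a leaf of it -/
def Chain (B : Finset (Finset ℤ)) (σ : Finset ℤ) (w : ℤ) : Prop := Stacked B ∧ Leaf B σ w

theorem Chain.single {σ : Finset ℤ} (h : σ.card = 4) {w : ℤ} (hw : w ∈ σ) : Chain {σ} σ w :=
  ⟨Stacked.single σ h, mem_singleton_self _, hw, fun _ hτ _ => mem_singleton.1 hτ⟩

theorem Leaf.new {B : Finset (Finset ℤ)} {T : Finset ℤ} {w : ℤ} (hw : w ∉ verts B) :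
    Leaf (insert (insert w T) B) (insert w T) w := by
  refine ⟨mem_insert_self _ _, mem_insert_self _ _, fun τ hτ h => ?_⟩
  rcases mem_insert.1 hτ with h1 | h1
  · exact h1
  · exact absurd (mem_verts.2 ⟨τ, h1, h⟩) hw

theorem Chain.step {B : Finset (Finset ℤ)} {σ : Finset ℤ} {w : ℤ} (h : Chain B σ w) {T : Finset ℤ}
    (hT : T ⊆ σ) (hw : w ∈ T) (hc : T.card = 3) {w' : ℤ} (hw' : w' ∉ verts B) :
    Chain (insert (insert w' T) B) (insert w' T) w' :=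
  ⟨Stacked.step B T w' h.1 (h.2.bdry hT hw hc) hw', Leaf.new hw'⟩

theorem card_three {a b c : ℤ} (h1 : a ≠ b) (h2 : a ≠ c) (h3 : b ≠ c) :
    ({a, b, c} : Finset ℤ).card = 3 := by
  rw [card_insert_of_notMem (by simp [h1, h2]), card_insert_of_notMem (by simp [h3]), card_singleton]

theorem card_four {a b c d : ℤ} (h1 : a ≠ b) (h2 : a ≠ c) (h3 : a ≠ d) (h4 : b ≠ c) (h5 : b ≠ d)
    (h6 : c ≠ d) : ({a, b, c, d} : Finset ℤ).card = 4 := by
  rw [card_insert_of_notMem (by simp [h1, h2, h3]), card_three h4 h5 h6]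

end Pool.NCS
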