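import Pool.Agent.Lib.MP_73a842_co.Basic

/-!
# NCS-Fin: from facets to spheres; finiteness
-/

open Finset

namespace Pool.NCS

/-- `vert`: a vertex `x ∈ V n` is in a facet by `nb` applied to `x` and some `y ≠ x, -x`. -/
theorem Good.isCs {n : ℕ} {F : Finset (Finset ℤ)} (h : Good n F) (hn : 2 ≤ n) :
    IsCsSphere 3 n (cl F) ∧ CsNeighborly ((3 + 1) / 2) n (cl F) := by
  refine ⟨⟨?_, h.pl, ?_, ?_, ?_⟩, ?_⟩
  · rintro s ⟨σ, hσ, hs⟩ t ht
    exact ⟨σ, hσ, ht.trans hs⟩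
  · intro x
    constructor
    · rintro ⟨σ, hσ, hs⟩
      exact h.sub σ hσ (singleton_subset_iff.1 hs)
    · intro hx
      obtain ⟨y, hy, h1, h2⟩ : ∃ y ∈ V n, x ≠ y ∧ x ≠ -y := by
        by_cases h1 : x = 1 ∨ x = -1
        · refine ⟨2, mem_V.2 ⟨by norm_num, by omega, by omega⟩, by omega, by omega⟩
        · refine ⟨1, mem_V.2 ⟨by norm_num, by omega, by omega⟩, by omega, by omega⟩
      obtain ⟨σ, hσ, hxσ, -⟩ := h.nb x hx y hy h1 h2
      exact ⟨σ, hσ, singleton_subset_iff.2 hxσ⟩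
  · rintro s ⟨σ, hσ, hs⟩
    exact ⟨neg σ, h.cs σ hσ, neg_subset_neg.2 hs⟩
  · rintro s ⟨σ, hσ, hs⟩ x hx hx'
    exact h.free σ hσ x (hs hx) (hs hx')
  · intro s hs hc hf
    have hc' : s.card = 2 := hc
    obtain ⟨x, y, hxy, rfl⟩ := card_eq_two.1 hc'
    have h1 : x ≠ -y := by
      rintro rfl
      exact hf y (by simp) (by simp)
    obtain ⟨σ, hσ, hxσ, hyσ⟩ := h.nb x (hs (by simp)) y (hs (by simp)) hxy h1
    refine ⟨σ, hσ, ?_⟩
    intro z hz
    rcases mem_insert.1 hz with rfl | hz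
    · exact hxσ
    · rw [mem_singleton.1 hz]
      exact hyσ

private theorem cl_inj_aux {F F' : Finset (Finset ℤ)} (h : ∀ σ ∈ F, σ.card = 4) (h' : ∀ σ ∈ F', σ.card = 4)
    (e : cl F = cl F') : F ⊆ F' := by
  intro σ hσ
  have h1 : σ ∈ cl F := ⟨σ, hσ, Subset.refl _⟩
  rw [e] at h1
  obtain ⟨τ, hτ, hs⟩ := h1
  have h2 : σ = τ := eq_of_subset_of_card_le hs (by rw [h σ hσ, h' τ hτ])
  rw [h2]
  exact hτ

theorem cl_inj {F F' : Finset (Finset ℤ)} (h : ∀ σ ∈ F, σ.card = 4) (h' : ∀ σ ∈ F', σ.card = 4)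
    (e : cl F = cl F') : F = F' :=
  Subset.antisymm (cl_inj_aux h h' e) (cl_inj_aux h' h e.symm)

/-- all faces are subsets of `V n` (`down` and `vert`) -/
theorem finite_cs (d n : ℕ) : {K : Set (Finset ℤ) | IsCsSphere d n K}.Finite := by
  refine Set.Finite.subset (Set.Finite.powerset (finite_toSet (V n).powerset)) ?_
  intro K hK s hs
  have hK' : IsCsSphere d n K := hK
  refine mem_coe.2 (mem_powerset.2 ?_)
  intro x hx
  exact (hK'.vert x).1 (hK'.down s hs {x} (singleton_subset_iff.2 hx))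

end Pool.NCS
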