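import Pool.Agent.Lib.MP_73a842_co.FlexMain
import Pool.Agent.Lib.MP_73a842_co.Fin

/-!
# Counting
-/

open Finset

namespace Pool.NCS

/-- the index set of the free bits -/
def bits (K N : ℕ) : Finset (ℕ × ℕ) :=
  ((range (N + 1)) ×ˢ (range K)).filter fun t => 2 * t.2 + 3 * t.1 + 9 ≤ K

open Classical in
/-- the sphere of a set of bits -/
noncomputable def sph (K N : ℕ) (A : Finset (ℕ × ℕ)) : Finset (Finset ℤ) :=
  flex (fun s m => decide ((s, m) ∈ A)) K N

theorem sph_inj {K N : ℕ} (hK : 3 * N + 8 ≤ K) {A B : Finset (ℕ × ℕ)} (hA : A ⊆ bits K N)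
    (hB : B ⊆ bits K N) (h : sph K N A = sph K N B) : A = B := by
  classical
  have key : ∀ s m : ℕ, (s, m) ∈ bits K N → ((s, m) ∈ A ↔ (s, m) ∈ B) := by
    intro s m hsm
    unfold bits at hsm
    rw [mem_filter, mem_product, mem_range, mem_range] at hsm
    have h1 := flex_bit (fun s m => decide ((s, m) ∈ A)) N hK (s := s) (m := m) (by omega)
      (by have := hsm.2; simp only at this; omega)
    have h2 := flex_bit (fun s m => decide ((s, m) ∈ B)) N hK (s := s) (m := m) (by omega)
      (by have := hsm.2; simp only at this; omega)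
    unfold sph at h
    rw [h] at h1
    have h3 := h1.symm.trans h2
    simp only [decide_eq_false_iff_not] at h3
    tauto
  ext ⟨s, m⟩
  constructor
  · intro h
    exact (key s m (hA h)).1 h
  · intro h
    exact (key s m (hB h)).2 h

theorem two_pow_le {K N : ℕ} (hK : 3 * N + 8 ≤ K) : 2 ^ (bits K N).card ≤ ncs 3 (K + N + 1) := by
  classical
  unfold ncs
  have hfin : {S : Set (Finset ℤ) | IsCsSphere 3 (K + N + 1) S ∧
      CsNeighborly ((3 + 1) / 2) (K + N + 1) S}.Finite :=
    (finite_cs 3 (K + N + 1)).subset fun S hS => hS.1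
  rw [← card_powerset, ← Set.ncard_coe_finset]
  refine Set.ncard_le_ncard_of_injOn (fun A => cl (sph K N A)) ?_ ?_ hfin
  · intro A _
    exact (flex_good _ N hK).isCs (by omega)
  · intro A hA B hB h
    rw [mem_coe, mem_powerset] at hA hB
    exact sph_inj hK hA hB (cl_inj (flex_good _ N hK).card4 (flex_good _ N hK).card4 h)

/-- `#bits ≥ ∑_{s ≤ N} (K - 3 s - 8) / 2 = (N + 1) (2 K - 16 - 3 N) / 4` -/
theorem card_bits {K N : ℕ} (hK : 3 * N + 8 ≤ K) :
    (N + 1) * (2 * K) ≤ 4 * (bits K N).card + (N + 1) * (3 * N + 16) := by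
  classical
  have h1 : (bits K N).card = ∑ s ∈ range (N + 1), ((range K).filter fun m => 2 * m + 3 * s + 9 ≤ K).card := by
    unfold bits
    rw [card_filter, sum_product]
    refine sum_congr rfl fun s _ => ?_
    rw [card_filter]
  have h2 : ∀ s ∈ range (N + 1), K ≤ 2 * ((range K).filter fun m => 2 * m + 3 * s + 9 ≤ K).card + 3 * s + 8 := by
    intro s hs
    rw [mem_range] at hs
    have : range ((K - 3 * s - 7) / 2) ⊆ (range K).filter fun m => 2 * m + 3 * s + 9 ≤ K := by
      intro m hm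
      rw [mem_range] at hm
      rw [mem_filter, mem_range]
      omega
    have := card_le_card this
    rw [card_range] at this
    omega
  have h3 := sum_le_sum h2
  rw [sum_const, card_range, smul_eq_mul] at h3
  have h4 : ∑ s ∈ range (N + 1), (2 * ((range K).filter fun m => 2 * m + 3 * s + 9 ≤ K).card + 3 * s + 8) =
      2 * (bits K N).card + 3 * (∑ s ∈ range (N + 1), s) + 8 * (N + 1) := by
    rw [h1, sum_add_distrib, sum_add_distrib, ← mul_sum, ← mul_sum, sum_const, card_range, smul_eq_mul]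
    ring
  rw [h4] at h3
  have h5 := Finset.sum_range_id_mul_two (N + 1)
  rw [Nat.add_sub_cancel] at h5
  nlinarith

theorem ncs_lower (n : ℕ) (hn : 45 ≤ n) :
    (2 : ℝ) ^ ((n : ℝ) * (n - 18) / 20) ≤ ncs 3 n := by
  set N := n / 5 with hN
  have hN1 : 5 * N ≤ n := by omega
  have hN2 : n < 5 * N + 5 := by omega
  set K := n - N - 1 with hK
  have hK1 : K + N + 1 = n := by omega
  have hK2 : 3 * N + 8 ≤ K := by omega
  have h1 := two_pow_le hK2
  rw [hK1] at h1
  have h2 := card_bits hK2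
  have h3 : (n : ℝ) * (n - 18) / 20 ≤ (bits K N).card := by
    have a1 : ((N : ℝ) + 1) * (2 * K) ≤ 4 * (bits K N).card + (N + 1) * (3 * N + 16) := by
      exact_mod_cast h2
    have a2 : (K : ℝ) = n - N - 1 := by
      have : ((K + N + 1 : ℕ) : ℝ) = n := by rw [hK1]
      push_cast at this
      linarith
    have a3 : (5 : ℝ) * N ≤ n := by exact_mod_cast hN1
    have a4 : (n : ℝ) ≤ 5 * N + 5 := by exact_mod_cast hN2.le
    have a5 : (45 : ℝ) ≤ n := by exact_mod_cast hn
    have a6 : (0 : ℝ) ≤ N := by positivity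
    rw [a2] at a1
    -- `4 #bits ≥ (N + 1) (2 n - 5 N - 18) ≥ (n / 5) (n - 18)`
    have a7 : ((N : ℝ) + 1) * (2 * n - 5 * N - 18) ≤ 4 * (bits K N).card := by nlinarith
    have a8 : ((n : ℝ) / 5) * (n - 18) ≤ ((N : ℝ) + 1) * (2 * n - 5 * N - 18) := by
      apply mul_le_mul
      · linarith
      · linarith
      · linarith
      · linarith
    linarith
  calc (2 : ℝ) ^ ((n : ℝ) * (n - 18) / 20) ≤ (2 : ℝ) ^ (((bits K N).card : ℝ)) :=
        Real.rpow_le_rpow_of_exponent_le (by norm_num) h3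
    _ = ((2 ^ (bits K N).card : ℕ) : ℝ) := by rw [Real.rpow_natCast]; push_cast; rfl
    _ ≤ ncs 3 n := by exact_mod_cast h1

end Pool.NCS
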