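import Mathlib

/-!
# MP_73a842: centrally symmetric PL spheres, labelled counts

All vertices are integers.  A complex is the set of its faces, the empty face included.
-/

namespace Pool.NCS

/-- `V n = {±1, …, ±n}`. -/
noncomputable def V (n : ℕ) : Finset ℤ := (Finset.Icc (-(n : ℤ)) n).erase 0

/-- The antipodal image `-s` of a finite set of vertices. -/
def neg (s : Finset ℤ) : Finset ℤ := s.image fun x => -x

/-- `L` arises from the complex `K` by a bistellar move (Pachner move) of dimension `d`: there are disjoint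
nonempty sets `A`, `B` with `d + 2` elements altogether such that `A ∈ K`, `B ∉ K` and the link of `A` in
`K` is the boundary of the simplex `B`; the star `A * ∂B` of `A` is replaced by `∂A * B`. -/
def Flip (d : ℕ) (K L : Set (Finset ℤ)) : Prop :=
  ∃ A B : Finset ℤ, A.Nonempty ∧ B.Nonempty ∧ Disjoint A B ∧ A.card + B.card = d + 2 ∧ B ∉ K ∧
    (∀ t : Finset ℤ, Disjoint t A → (t ∪ A ∈ K ↔ t ⊂ B)) ∧
    L = {s | (s ∈ K ∧ ¬ A ⊆ s) ∨ (B ⊆ s ∧ s ⊆ A ∪ B ∧ ¬ A ⊆ s)}

/-- `K` is a combinatorial (PL) `d`-sphere: it is obtained from the boundary complex of a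
`(d+1)`-simplex by a finite sequence of bistellar moves.  (By Pachner's theorem this says that `K` is PL
homeomorphic to the boundary of the `(d+1)`-simplex.) -/
def PLSphere (d : ℕ) (K : Set (Finset ℤ)) : Prop :=
  ∃ S : Finset ℤ, S.card = d + 2 ∧ Relation.ReflTransGen (Flip d) {s | s ⊂ S} K

/-- `K` is a centrally symmetric `d`-sphere on `V n`: a simplicial complex that is a combinatorial
`d`-sphere, has vertex set `V n`, is invariant under `x ↦ -x`, and has no face containing an antipodal
pair. -/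
structure IsCsSphere (d n : ℕ) (K : Set (Finset ℤ)) : Prop where
  down : ∀ s ∈ K, ∀ t ⊆ s, t ∈ K
  pl : PLSphere d K
  vert : ∀ x : ℤ, {x} ∈ K ↔ x ∈ V n
  cs : ∀ s ∈ K, neg s ∈ K
  free : ∀ s ∈ K, ∀ x ∈ s, -x ∉ s

/-- `K` is cs-`k`-neighborly: every `k` vertices without an antipodal pair form a face. -/
def CsNeighborly (k n : ℕ) (K : Set (Finset ℤ)) : Prop :=
  ∀ s : Finset ℤ, s ⊆ V n → s.card = k → (∀ x ∈ s, -x ∉ s) → s ∈ K

/-- the number of (labelled) cs `d`-spheres on `V n` -/
noncomputable def cs (d n : ℕ) : ℕ := {K : Set (Finset ℤ) | IsCsSphere d n K}.ncard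

/-- the number of (labelled) cs-`⌈d/2⌉`-neighborly cs `d`-spheres on `V n` -/
noncomputable def ncs (d n : ℕ) : ℕ :=
  {K : Set (Finset ℤ) | IsCsSphere d n K ∧ CsNeighborly ((d + 1) / 2) n K}.ncard

end Pool.NCS
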