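import Pool.Agent.Lib.MP_73a842_co.EulerDef

/-!
# NCS-EulerA: `Inv3` for the boundary of the 4-simplex; purity under bistellar moves

`pure_flip`: `s ∈ L`.  If `s ∈ K`, `¬ A ⊆ s`, take `σ ∈ K` with `s ⊆ σ`, `σ.card = 4`; if `¬ A ⊆ σ` then
`σ ∈ L`; otherwise `σ = t ∪ A` with `t ⊂ B`, so `s ⊆ A ∪ B`, and for `a ∈ A \ s` the 4-set `(A ∪ B).erase a` is in `L` and
contains `s`.  If `B ⊆ s ⊆ A ∪ B` and `a ∈ A \ s`, the same 4-set works.
`simplex`: `fN` of `{s | s ⊂ S}` at `j ≤ 4` is `(S.powersetCard j).card = choose 5 j`.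
-/

open Finset

namespace Pool.NCS

theorem inv3_simplex {S : Finset ℤ} (h : S.card = 5) : Inv3 {s | s ⊂ S} := by
  have hf : ∀ j, j < 5 → fN {s | s ⊂ S} j = Nat.choose 5 j := by
    intro j hj
    have h1 : {s : Finset ℤ | s ∈ {s : Finset ℤ | s ⊂ S} ∧ s.card = j} = ↑(S.powersetCard j) := by
      ext s
      rw [Finset.mem_coe, mem_powersetCard]
      constructor
      · rintro ⟨h1, h2⟩
        exact ⟨h1.1, h2⟩
      · rintro ⟨h1, h2⟩
        refine ⟨lt_of_le_of_ne h1 ?_, h2⟩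
        rintro rfl
        omega
    unfold fN
    rw [h1, Set.ncard_coe_finset, card_powersetCard, h]
  refine ⟨?_, ?_, ?_, ?_, ?_⟩
  · refine (S.powerset.finite_toSet).subset ?_
    intro s hs
    exact Finset.mem_coe.2 (mem_powerset.2 (hs : s ⊂ S).1)
  · intro s hs t ht
    exact lt_of_le_of_lt ht (hs : s < S)
  · intro s hs
    obtain ⟨a, ha, hsa⟩ := Finset.exists_of_ssubset (hs : s ⊂ S)
    refine ⟨S.erase a, erase_ssubset ha, ?_, ?_⟩
    · exact subset_erase.2 ⟨(hs : s ⊂ S).1, hsa⟩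
    · rw [card_erase_of_mem ha, h]
  · change (∅ : Finset ℤ) ⊂ S
    rw [empty_ssubset, ← card_pos, h]
    norm_num
  · rw [hf 4 (by norm_num), hf 1 (by norm_num), hf 2 (by norm_num)]
    decide

theorem fin_flip {K L : Set (Finset ℤ)} (h : K.Finite) (hf : Flip 3 K L) : L.Finite := by
  obtain ⟨A, B, hA, hB, hd, hc, hBK, hl, rfl⟩ := hf
  refine (h.union ((A ∪ B).powerset.finite_toSet)).subset ?_
  rintro s (hs | hs)
  · exact Or.inl hs.1
  · exact Or.inr (Finset.mem_coe.2 (mem_powerset.2 hs.2.1))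

theorem down_flip {K L : Set (Finset ℤ)} (h : Inv3 K) (hf : Flip 3 K L) :
    ∀ s ∈ L, ∀ t ⊆ s, t ∈ L := by
  obtain ⟨A, B, hA, hB, hd, hc, hBK, hl, rfl⟩ := hf
  rintro s (hs | hs) t hts
  · exact Or.inl ⟨h.down s hs.1 t hts, fun hA' => hs.2 (hA'.trans hts)⟩
  · have hAt : ¬ A ⊆ t := fun hA' => hs.2.2 (hA'.trans hts)
    by_cases hBt : B ⊆ t
    · exact Or.inr ⟨hBt, hts.trans hs.2.1, hAt⟩
    · left
      refine ⟨?_, hAt⟩
      have h1 : t \ A ⊂ B := by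
        refine ⟨?_, fun h2 => hBt (h2.trans sdiff_subset)⟩
        intro x hx
        rw [mem_sdiff] at hx
        rcases mem_union.1 (hs.2.1 (hts hx.1)) with h2 | h2
        · exact absurd h2 hx.2
        · exact h2
      have h2 : t \ A ∪ A ∈ K := (hl (t \ A) sdiff_disjoint).2 h1
      refine h.down _ h2 t ?_
      intro x hx
      by_cases hxA : x ∈ A
      · exact mem_union_right _ hxA
      · exact mem_union_left _ (mem_sdiff.2 ⟨hx, hxA⟩)

theorem pure_flip {K L : Set (Finset ℤ)} (h : Inv3 K) (hf : Flip 3 K L) :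
    (∀ s ∈ L, ∃ σ ∈ L, s ⊆ σ ∧ σ.card = 4) ∧ ∅ ∈ L := by
  obtain ⟨A, B, hA, hB, hd, hc, hBK, hl, rfl⟩ := hf
  have key : ∀ s : Finset ℤ, s ⊆ A ∪ B → ¬ A ⊆ s →
      ∃ σ ∈ {s : Finset ℤ | (s ∈ K ∧ ¬ A ⊆ s) ∨ (B ⊆ s ∧ s ⊆ A ∪ B ∧ ¬ A ⊆ s)},
        s ⊆ σ ∧ σ.card = 4 := by
    intro s hs hAs
    obtain ⟨a, haA, has⟩ := Finset.not_subset.1 hAs
    have haB : a ∉ B := Finset.disjoint_left.1 hd haA
    refine ⟨(A ∪ B).erase a, Or.inr ⟨?_, erase_subset _ _, ?_⟩, subset_erase.2 ⟨hs, has⟩, ?_⟩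
    · exact subset_erase.2 ⟨subset_union_right, haB⟩
    · exact fun h1 => notMem_erase a _ (h1 haA)
    · rw [card_erase_of_mem (mem_union_left _ haA), card_union_of_disjoint hd, hc]
  constructor
  · rintro s (hs | hs)
    · obtain ⟨σ, hσ, hsσ, hσc⟩ := h.pure s hs.1
      by_cases hAσ : A ⊆ σ
      · refine key s (hsσ.trans ?_) hs.2
        have h1 : σ \ A ∪ A = σ := sdiff_union_of_subset hAσ
        have h2 : σ \ A ⊂ B := (hl (σ \ A) sdiff_disjoint).1 (by rw [h1]; exact hσ)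
        rw [← h1, union_comm]
        exact union_subset_union_right h2.1
      · exact ⟨σ, Or.inl ⟨hσ, hAσ⟩, hsσ, hσc⟩
    · exact key s hs.2.1 hs.2.2
  · left
    refine ⟨h.ne, fun h1 => ?_⟩
    rw [subset_empty] at h1
    exact hA.ne_empty h1

end Pool.NCS
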