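import Pool.Agent.Lib.MP_73a842_co.EulerDef

/-!
# NCS-EulerB: `f_3 + f_0 - f_1` is invariant under bistellar moves

For every `j`: `fN L j + #rem = fN K j + #add` where `rem = {s ⊆ A ∪ B | s.card = j, A ⊆ s, ¬ B ⊆ s}` (exactly the
faces of `K` of size `j` that contain `A`, by the link condition) and
`add = {s ⊆ A ∪ B | s.card = j, B ⊆ s, ¬ A ⊆ s}` (no member of `add` is in `K`, as `B ∉ K`).
Let `a = A.card`, `b = B.card = 5 - a`.  `j = 4`: `#rem = b`, `#add = a`.  `j = 1`: `#rem = 1` iff `a = 1`, else `0`.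
`j = 2`: `#rem = 4, 1, 0, 0` for `a = 1, 2, 3, 4`; `#add` is the same with `b`.  In all four cases
`#add₄ + #add₁ + #rem₂ = #rem₄ + #rem₁ + #add₂`.
-/

open Finset

namespace Pool.NCS

/-- faces of the join containing `X` but not `Y` -/
private def mid (X Y : Finset ℤ) (j : ℕ) : Set (Finset ℤ) :=
  {s | X ⊆ s ∧ s ⊆ X ∪ Y ∧ ¬ Y ⊆ s ∧ s.card = j}

private theorem mid_eq {X Y : Finset ℤ} (hd : Disjoint X Y) {j : ℕ} (hj : j < X.card + Y.card)
    (hX : X.card ≤ j) :
    mid X Y j = ↑((Y.powersetCard (j - X.card)).image (fun t => t ∪ X)) := by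
  ext s
  simp only [mid, Set.mem_ofPred_eq, coe_image, Set.mem_image, mem_coe, mem_powersetCard]
  constructor
  · rintro ⟨h1, h2, -, h4⟩
    refine ⟨s \ X, ⟨?_, ?_⟩, sdiff_union_of_subset h1⟩
    · intro x hx
      rw [mem_sdiff] at hx
      rcases mem_union.1 (h2 hx.1) with h | h
      · exact absurd h hx.2
      · exact h
    · rw [card_sdiff_of_subset h1, h4]
  · rintro ⟨t, ⟨h1, h2⟩, rfl⟩
    have hdt : Disjoint t X := (hd.mono_right h1).symm
    have hc : (t ∪ X).card = j := by
      rw [card_union_of_disjoint hdt, h2]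
      omega
    refine ⟨subset_union_right, ?_, ?_, hc⟩
    · exact union_subset (h1.trans subset_union_right) subset_union_left
    · intro hY
      have : X ∪ Y ⊆ t ∪ X := union_subset subset_union_right hY
      have := card_le_card this
      rw [hc, card_union_of_disjoint hd] at this
      omega

private theorem mid_ncard {X Y : Finset ℤ} (hd : Disjoint X Y) {j : ℕ} (hj : j < X.card + Y.card) :
    (mid X Y j).ncard = if X.card ≤ j then Y.card.choose (j - X.card) else 0 := by
  split_ifs with hX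
  · rw [mid_eq hd hj hX, Set.ncard_coe_finset, card_image_of_injOn, card_powersetCard]
    intro t ht t' ht' h
    have h1 : Disjoint t X := (hd.mono_right (mem_powersetCard.1 ht).1).symm
    have h2 : Disjoint t' X := (hd.mono_right (mem_powersetCard.1 ht').1).symm
    have h' : t ∪ X = t' ∪ X := h
    rw [← union_sdiff_cancel_right h1, ← union_sdiff_cancel_right h2, h']
  · have : mid X Y j = ∅ := by
      ext s
      simp only [mid, Set.mem_ofPred_eq, Set.mem_empty_iff_false, iff_false]
      rintro ⟨h1, -, -, h4⟩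
      have := card_le_card h1
      omega
    rw [this, Set.ncard_empty]

private theorem mid_finite (X Y : Finset ℤ) (j : ℕ) : (mid X Y j).Finite := by
  apply Set.Finite.subset ((X ∪ Y).powerset.finite_toSet)
  rintro s ⟨-, h, -⟩
  exact mem_coe.2 (mem_powerset.2 h)

theorem euler_flip {K L : Set (Finset ℤ)} (hfin : K.Finite) (hdown : ∀ s ∈ K, ∀ t ⊆ s, t ∈ K)
    (h : fN K 4 + fN K 1 = fN K 2) (hf : Flip 3 K L) : fN L 4 + fN L 1 = fN L 2 := by
  obtain ⟨A, B, hA, hB, hd, hc, hBK, hlink, rfl⟩ := hf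
  have key : ∀ j, fN {s | (s ∈ K ∧ ¬ A ⊆ s) ∨ (B ⊆ s ∧ s ⊆ A ∪ B ∧ ¬ A ⊆ s)} j + (mid A B j).ncard
      = fN K j + (mid B A j).ncard := by
    intro j
    let kp : Set (Finset ℤ) := {s | s ∈ K ∧ ¬ A ⊆ s ∧ s.card = j}
    have fkp : kp.Finite := hfin.subset fun s hs => hs.1
    have e1 : {s | s ∈ {s | (s ∈ K ∧ ¬ A ⊆ s) ∨ (B ⊆ s ∧ s ⊆ A ∪ B ∧ ¬ A ⊆ s)} ∧ s.card = j}
        = kp ∪ mid B A j := by
      ext s
      simp only [kp, mid, Set.mem_ofPred_eq, Set.mem_union, union_comm B A]
      tauto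
    have e2 : {s | s ∈ K ∧ s.card = j} = kp ∪ mid A B j := by
      ext s
      simp only [kp, mid, Set.mem_ofPred_eq, Set.mem_union]
      constructor
      · rintro ⟨h1, h2⟩
        by_cases hAs : A ⊆ s
        · right
          have h3 : (s \ A) ∪ A ∈ K := by rwa [sdiff_union_of_subset hAs]
          rw [hlink _ sdiff_disjoint] at h3
          refine ⟨hAs, ?_, ?_, h2⟩
          · rw [← sdiff_union_of_subset hAs, union_comm]
            exact union_subset_union_right h3.1
          · intro hBs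
            apply h3.2
            intro x hx
            exact mem_sdiff.2 ⟨hBs hx, fun hxA => (disjoint_left.1 hd hxA) hx⟩
        · exact Or.inl ⟨h1, hAs, h2⟩
      · rintro (⟨h1, -, h2⟩ | ⟨h1, h2, h3, h4⟩)
        · exact ⟨h1, h2⟩
        · refine ⟨?_, h4⟩
          rw [← sdiff_union_of_subset h1, hlink _ sdiff_disjoint]
          refine ⟨?_, ?_⟩
          · intro x hx
            rw [mem_sdiff] at hx
            rcases mem_union.1 (h2 hx.1) with h | h
            · exact absurd h hx.2
            · exact h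
          · intro hBs
            exact h3 (hBs.trans sdiff_subset)
    have d1 : Disjoint kp (mid B A j) := by
      rw [Set.disjoint_left]
      rintro s ⟨h1, -, -⟩ ⟨h2, -⟩
      exact hBK (hdown s h1 B h2)
    have d2 : Disjoint kp (mid A B j) := by
      rw [Set.disjoint_left]
      rintro s ⟨-, h1, -⟩ ⟨h2, -⟩
      exact h1 h2
    unfold fN
    rw [e1, e2, Set.ncard_union_eq d1 fkp (mid_finite _ _ _),
      Set.ncard_union_eq d2 fkp (mid_finite _ _ _)]
    ring
  have k4 := key 4
  have k1 := key 1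
  have k2 := key 2
  have ha : 1 ≤ A.card := hA.card_pos
  have hb : 1 ≤ B.card := hB.card_pos
  rw [mid_ncard hd (by omega), mid_ncard hd.symm (by omega)] at k4 k1 k2
  obtain ⟨a, ha'⟩ : ∃ a, A.card = a := ⟨_, rfl⟩
  obtain ⟨b, hb'⟩ : ∃ b, B.card = b := ⟨_, rfl⟩
  rw [ha', hb'] at k4 k1 k2 hc
  rw [ha'] at ha
  rw [hb'] at hb
  have h4 : a ≤ 4 := by omega
  interval_cases a
  · obtain rfl : b = 4 := by omega
    norm_num [Nat.choose] at k4 k1 k2
    omega
  · obtain rfl : b = 3 := by omega
    norm_num [Nat.choose] at k4 k1 k2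
    omega
  · obtain rfl : b = 2 := by omega
    norm_num [Nat.choose] at k4 k1 k2
    omega
  · obtain rfl : b = 1 := by omega
    norm_num [Nat.choose] at k4 k1 k2
    omega

end Pool.NCS
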