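import Pool.Agent.Lib.MP_73a842_co.Basic

/-!
# Invariants of bistellar moves in dimension 3
-/

open Finset

namespace Pool.NCS

/-- number of faces with `j` elements -/
noncomputable def fN (K : Set (Finset ℤ)) (j : ℕ) : ℕ := {s | s ∈ K ∧ s.card = j}.ncard

/-- finite pure 3-dimensional complex with `f_3 + f_0 = f_1` -/
structure Inv3 (K : Set (Finset ℤ)) : Prop where
  fin : K.Finite
  down : ∀ s ∈ K, ∀ t ⊆ s, t ∈ K
  pure : ∀ s ∈ K, ∃ σ ∈ K, s ⊆ σ ∧ σ.card = 4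
  ne : ∅ ∈ K
  euler : fN K 4 + fN K 1 = fN K 2

end Pool.NCS
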