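import Pool.Agent.Lib.MP_73a842_co.Defs

/-!
# Facet level: complexes given by their sets of facets
-/

open Finset

namespace Pool.NCS

/-- the complex generated by the facets in `F` -/
def cl (F : Finset (Finset ℤ)) : Set (Finset ℤ) := {s | ∃ σ ∈ F, s ⊆ σ}

/-- all vertices -/
def verts (B : Finset (Finset ℤ)) : Finset ℤ := B.biUnion id

open Classical in
/-- the boundary triangles of a set of tetrahedra: the triangles in exactly one tetrahedron -/
noncomputable def bdry (B : Finset (Finset ℤ)) : Finset (Finset ℤ) :=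
  (B.biUnion fun σ => σ.powersetCard 3).filter fun T => ∃ σ ∈ B, T ⊆ σ ∧ ∀ τ ∈ B, T ⊆ τ → τ = σ

/-- the cone -/
def cone (v : ℤ) (S : Finset (Finset ℤ)) : Finset (Finset ℤ) := S.image (insert v)

/-- antipodal image of a set of facets -/
def negF (F : Finset (Finset ℤ)) : Finset (Finset ℤ) := F.image neg

/-- remove the tetrahedra of `B` and fill in with the cone from `v` over the boundary of `B` -/
noncomputable def ins (F B : Finset (Finset ℤ)) (v : ℤ) : Finset (Finset ℤ) := (F \ B) ∪ cone v (bdry B)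

/-- the same at `B` and `-B` -/
noncomputable def ins2 (F B : Finset (Finset ℤ)) (v : ℤ) : Finset (Finset ℤ) :=
  (F \ (B ∪ negF B)) ∪ (cone v (bdry B) ∪ cone (-v) (bdry (negF B)))

/-- stacked balls: each new tetrahedron is glued along one boundary triangle and has a new vertex -/
inductive Stacked : Finset (Finset ℤ) → Prop
  | single (σ : Finset ℤ) (h : σ.card = 4) : Stacked {σ}
  | step (B : Finset (Finset ℤ)) (T : Finset ℤ) (w : ℤ) (h : Stacked B) (hT : T ∈ bdry B)
      (hw : w ∉ verts B) : Stacked (insert (insert w T) B)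

/-- every triangle is in at most two facets -/
def PM (F : Finset (Finset ℤ)) : Prop := ∀ T : Finset ℤ, T.card = 3 → (F.filter (T ⊆ ·)).card ≤ 2

/-- facet sets of cs-`2`-neighborly cs `3`-spheres on `V n` -/
structure Good (n : ℕ) (F : Finset (Finset ℤ)) : Prop where
  card4 : ∀ σ ∈ F, σ.card = 4
  sub : ∀ σ ∈ F, σ ⊆ V n
  free : ∀ σ ∈ F, ∀ x ∈ σ, -x ∉ σ
  cs : ∀ σ ∈ F, neg σ ∈ F
  pm : PM F
  nb : ∀ x ∈ V n, ∀ y ∈ V n, x ≠ y → x ≠ -y → ∃ σ ∈ F, x ∈ σ ∧ y ∈ σ
  pl : PLSphere 3 (cl F)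

end Pool.NCS
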