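import Pool.Agent.Lib.MP_73a842_co.BaseGood

/-!
# The first flexible ball: definition, membership, boundary triangles
-/

open Finset

namespace Pool.NCS

/-- the first flexible ball, in the base sphere on `V K` -/
def flex1 (c : ℕ → Bool) (K : ℕ) : Finset (Finset ℤ) :=
  insert {-(K : ℤ), (K : ℤ) - 1, -1, -2} (insert {(K : ℤ), -((K : ℤ) - 1), -((K : ℤ) - 2), 1}
    (fan ((K : ℤ) - 1) K (2 :: (dec (-1) (K - 1 - 1) ++ [1])) ∪ strip c ((K : ℤ) - 1) 2 (K - 5)))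

theorem adj_flex1 {K : ℕ} (hK : 8 ≤ K) {p q : ℤ} :
    adj (2 :: (dec (-1) (K - 1 - 1) ++ [1])) p q ↔
      (p = 2 ∧ q = -1) ∨ (-((K : ℤ) - 3) ≤ p ∧ p ≤ -1 ∧ q = p - 1) ∨
        (p = -((K : ℤ) - 2) ∧ q = 1) := by
  rw [adj_down (n := K - 1) (by omega)]
  omega

theorem flex1_strip {c : ℕ → Bool} {K : ℕ} (hK : 8 ≤ K) {σ : Finset ℤ}
    (h : σ ∈ strip c ((K : ℤ) - 1) 2 (K - 5)) : ∃ i r : ℤ, σ = sq i r ∧ r + 2 ≤ i ∧
      i ≤ (K : ℤ) - 1 ∧ 2 ≤ r ∧ (K : ℤ) + 1 ≤ i + r ∧ i + r ≤ (K : ℤ) + 3 := by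
  obtain ⟨i, r, h1, h2, h3, h4, h5, h6⟩ := strip_band (by omega) h
  exact ⟨i, r, h1, h2, h3, h4, by omega, by omega⟩

/-- the members of `flex1` without the two last tetrahedra -/
theorem mem_flex1C {c : ℕ → Bool} {K : ℕ} (hK : 8 ≤ K) {σ : Finset ℤ} :
    σ ∈ fan ((K : ℤ) - 1) K (2 :: (dec (-1) (K - 1 - 1) ++ [1])) ∪ strip c ((K : ℤ) - 1) 2 (K - 5) ↔
      σ ∈ strip c ((K : ℤ) - 1) 2 (K - 5) ∨ σ = {(K : ℤ) - 1, (K : ℤ), 2, -1} ∨
      (∃ p : ℤ, -((K : ℤ) - 3) ≤ p ∧ p ≤ -1 ∧ σ = {(K : ℤ) - 1, (K : ℤ), p, p - 1}) ∨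
      σ = {(K : ℤ) - 1, (K : ℤ), -((K : ℤ) - 2), 1} := by
  rw [mem_union, mem_fan]
  simp only [adj_flex1 hK]
  constructor
  · rintro (⟨p, q, ⟨rfl, rfl⟩ | ⟨h1, h2, rfl⟩ | ⟨rfl, rfl⟩, h3⟩ | h)
    · exact Or.inr (Or.inl h3)
    · exact Or.inr (Or.inr (Or.inl ⟨p, h1, h2, h3⟩))
    · exact Or.inr (Or.inr (Or.inr h3))
    · exact Or.inl h
  · rintro (h | h3 | ⟨p, h1, h2, h3⟩ | h3)
    · exact Or.inr h
    · exact Or.inl ⟨_, _, Or.inl ⟨rfl, rfl⟩, h3⟩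
    · exact Or.inl ⟨_, _, Or.inr (Or.inl ⟨h1, h2, rfl⟩), h3⟩
    · exact Or.inl ⟨_, _, Or.inr (Or.inr ⟨rfl, rfl⟩), h3⟩

theorem mem_flex1 {c : ℕ → Bool} {K : ℕ} (hK : 8 ≤ K) {σ : Finset ℤ} :
    σ ∈ flex1 c K ↔ σ = {-(K : ℤ), (K : ℤ) - 1, -1, -2} ∨
      σ = {(K : ℤ), -((K : ℤ) - 1), -((K : ℤ) - 2), 1} ∨
      σ ∈ strip c ((K : ℤ) - 1) 2 (K - 5) ∨ σ = {(K : ℤ) - 1, (K : ℤ), 2, -1} ∨
      (∃ p : ℤ, -((K : ℤ) - 3) ≤ p ∧ p ≤ -1 ∧ σ = {(K : ℤ) - 1, (K : ℤ), p, p - 1}) ∨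
      σ = {(K : ℤ) - 1, (K : ℤ), -((K : ℤ) - 2), 1} := by
  unfold flex1
  rw [mem_insert, mem_insert, mem_flex1C hK]

theorem subsq {a b c i r : ℤ} : ({a, b, c} : Finset ℤ) ⊆ sq i r ↔
    (a = i ∨ a = i + 1 ∨ a = r ∨ a = r + 1) ∧ (b = i ∨ b = i + 1 ∨ b = r ∨ b = r + 1) ∧
      (c = i ∨ c = i + 1 ∨ c = r ∨ c = r + 1) := sub4

theorem fa1 {K : ℕ} (hK : 8 ≤ K) (c : ℕ → Bool)  :
    {(K : ℤ), 5, (K : ℤ) - 1} ∈ bdry (flex1 c K) := by
  have hf := strip_first (c := c) (i0 := (K : ℤ) - 1) (r0 := 2) (k := K - 5) (by omega)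
  refine bdry_intro (by omega) (by omega) (by omega) ((mem_flex1 hK).2 (Or.inr (Or.inr (Or.inl hf.2.2))))
    (subsq.2 (by omega)) fun τ hτ hs => ?_
  rcases (mem_flex1 hK).1 hτ with rfl | rfl | h | rfl | ⟨q, h3, h4, rfl⟩ | rfl
  · first | rfl | (rw [sub4] at hs; omega)
  · first | rfl | (rw [sub4] at hs; omega)
  · obtain ⟨i, r, rfl, g1, g2, g3, g4, g5⟩ := flex1_strip hK h
    rw [subsq] at hs
    obtain rfl : i = (K : ℤ) - 1 := by omega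
    obtain rfl : r = 2 + 2 := by omega
    rfl
  · first | rfl | (rw [sub4] at hs; omega)
  · rw [sub4] at hs
    omega
  · first | rfl | (rw [sub4] at hs; omega)

theorem fa2 {K : ℕ} (hK : 8 ≤ K) (c : ℕ → Bool)  :
    {(K : ℤ), (K : ℤ) - 1, 1} ∈ bdry (flex1 c K) := by
  refine bdry_intro (by omega) (by omega) (by omega) ((mem_flex1 hK).2 (Or.inr (Or.inr (Or.inr (Or.inr (Or.inr rfl))))))
    (sub4.2 (by omega)) fun τ hτ hs => ?_
  rcases (mem_flex1 hK).1 hτ with rfl | rfl | h | rfl | ⟨q, h3, h4, rfl⟩ | rfl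
  · first | rfl | (rw [sub4] at hs; omega)
  · first | rfl | (rw [sub4] at hs; omega)
  · obtain ⟨i, r, rfl, g1, g2, g3, g4, g5⟩ := flex1_strip hK h
    rw [subsq] at hs
    omega
  · first | rfl | (rw [sub4] at hs; omega)
  · rw [sub4] at hs
    omega
  · first | rfl | (rw [sub4] at hs; omega)

theorem fa3 {K : ℕ} (hK : 8 ≤ K) (c : ℕ → Bool)  :
    {(K : ℤ), 1, -((K : ℤ) - 1)} ∈ bdry (flex1 c K) := by
  refine bdry_intro (by omega) (by omega) (by omega) ((mem_flex1 hK).2 (Or.inr (Or.inl rfl)))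
    (sub4.2 (by omega)) fun τ hτ hs => ?_
  rcases (mem_flex1 hK).1 hτ with rfl | rfl | h | rfl | ⟨q, h3, h4, rfl⟩ | rfl
  · first | rfl | (rw [sub4] at hs; omega)
  · first | rfl | (rw [sub4] at hs; omega)
  · obtain ⟨i, r, rfl, g1, g2, g3, g4, g5⟩ := flex1_strip hK h
    rw [subsq] at hs
    omega
  · first | rfl | (rw [sub4] at hs; omega)
  · rw [sub4] at hs
    omega
  · first | rfl | (rw [sub4] at hs; omega)

theorem fa4 {K : ℕ} (hK : 8 ≤ K) (c : ℕ → Bool)  :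
    {(K : ℤ), -((K : ℤ) - 1), -((K : ℤ) - 2)} ∈ bdry (flex1 c K) := by
  refine bdry_intro (by omega) (by omega) (by omega) ((mem_flex1 hK).2 (Or.inr (Or.inl rfl)))
    (sub4.2 (by omega)) fun τ hτ hs => ?_
  rcases (mem_flex1 hK).1 hτ with rfl | rfl | h | rfl | ⟨q, h3, h4, rfl⟩ | rfl
  · first | rfl | (rw [sub4] at hs; omega)
  · first | rfl | (rw [sub4] at hs; omega)
  · obtain ⟨i, r, rfl, g1, g2, g3, g4, g5⟩ := flex1_strip hK h
    rw [subsq] at hs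
    omega
  · first | rfl | (rw [sub4] at hs; omega)
  · rw [sub4] at hs
    omega
  · first | rfl | (rw [sub4] at hs; omega)

theorem fa5 {K : ℕ} (hK : 8 ≤ K) (c : ℕ → Bool) {p : ℤ} (h1 : -((K : ℤ) - 3) ≤ p) (h2 : p ≤ -1) :
    {(K : ℤ), p, p - 1} ∈ bdry (flex1 c K) := by
  refine bdry_intro (by omega) (by omega) (by omega) ((mem_flex1 hK).2 (Or.inr (Or.inr (Or.inr (Or.inr (Or.inl ⟨p, by omega, by omega, rfl⟩))))))
    (sub4.2 (by omega)) fun τ hτ hs => ?_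
  rcases (mem_flex1 hK).1 hτ with rfl | rfl | h | rfl | ⟨q, h3, h4, rfl⟩ | rfl
  · first | rfl | (rw [sub4] at hs; omega)
  · first | rfl | (rw [sub4] at hs; omega)
  · obtain ⟨i, r, rfl, g1, g2, g3, g4, g5⟩ := flex1_strip hK h
    rw [subsq] at hs
    omega
  · first | rfl | (rw [sub4] at hs; omega)
  · rw [sub4] at hs
    obtain rfl : q = p := by omega
    rfl
  · first | rfl | (rw [sub4] at hs; omega)

theorem fa6 {K : ℕ} (hK : 8 ≤ K) (c : ℕ → Bool)  :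
    {(K : ℤ), 2, -1} ∈ bdry (flex1 c K) := by
  refine bdry_intro (by omega) (by omega) (by omega) ((mem_flex1 hK).2 (Or.inr (Or.inr (Or.inr (Or.inl rfl)))))
    (sub4.2 (by omega)) fun τ hτ hs => ?_
  rcases (mem_flex1 hK).1 hτ with rfl | rfl | h | rfl | ⟨q, h3, h4, rfl⟩ | rfl
  · first | rfl | (rw [sub4] at hs; omega)
  · first | rfl | (rw [sub4] at hs; omega)
  · obtain ⟨i, r, rfl, g1, g2, g3, g4, g5⟩ := flex1_strip hK h
    rw [subsq] at hs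
    omega
  · first | rfl | (rw [sub4] at hs; omega)
  · rw [sub4] at hs
    omega
  · first | rfl | (rw [sub4] at hs; omega)

theorem fa7 {K : ℕ} (hK : 8 ≤ K) (c : ℕ → Bool)  :
    {(K : ℤ), 2, 3} ∈ bdry (flex1 c K) := by
  have hf := strip_first (c := c) (i0 := (K : ℤ) - 1) (r0 := 2) (k := K - 5) (by omega)
  refine bdry_intro (by omega) (by omega) (by omega) ((mem_flex1 hK).2 (Or.inr (Or.inr (Or.inl hf.1))))
    (subsq.2 (by omega)) fun τ hτ hs => ?_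
  rcases (mem_flex1 hK).1 hτ with rfl | rfl | h | rfl | ⟨q, h3, h4, rfl⟩ | rfl
  · first | rfl | (rw [sub4] at hs; omega)
  · first | rfl | (rw [sub4] at hs; omega)
  · obtain ⟨i, r, rfl, g1, g2, g3, g4, g5⟩ := flex1_strip hK h
    rw [subsq] at hs
    obtain rfl : i = (K : ℤ) - 1 := by omega
    obtain rfl : r = 2 := by omega
    rfl
  · first | rfl | (rw [sub4] at hs; omega)
  · rw [sub4] at hs
    omega
  · first | rfl | (rw [sub4] at hs; omega)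

theorem fa8 {K : ℕ} (hK : 8 ≤ K) (c : ℕ → Bool)  :
    {(K : ℤ), 3, 4} ∈ bdry (flex1 c K) := by
  have hf := strip_first (c := c) (i0 := (K : ℤ) - 1) (r0 := 2) (k := K - 5) (by omega)
  refine bdry_intro (by omega) (by omega) (by omega) ((mem_flex1 hK).2 (Or.inr (Or.inr (Or.inl hf.2.1))))
    (subsq.2 (by omega)) fun τ hτ hs => ?_
  rcases (mem_flex1 hK).1 hτ with rfl | rfl | h | rfl | ⟨q, h3, h4, rfl⟩ | rfl
  · first | rfl | (rw [sub4] at hs; omega)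
  · first | rfl | (rw [sub4] at hs; omega)
  · obtain ⟨i, r, rfl, g1, g2, g3, g4, g5⟩ := flex1_strip hK h
    rw [subsq] at hs
    obtain rfl : i = (K : ℤ) - 1 := by omega
    obtain rfl : r = 2 + 1 := by omega
    rfl
  · first | rfl | (rw [sub4] at hs; omega)
  · rw [sub4] at hs
    omega
  · first | rfl | (rw [sub4] at hs; omega)

theorem fa9 {K : ℕ} (hK : 8 ≤ K) (c : ℕ → Bool)  :
    {-(K : ℤ), -1, -2} ∈ bdry (flex1 c K) := by
  refine bdry_intro (by omega) (by omega) (by omega) ((mem_flex1 hK).2 (Or.inl rfl))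
    (sub4.2 (by omega)) fun τ hτ hs => ?_
  rcases (mem_flex1 hK).1 hτ with rfl | rfl | h | rfl | ⟨q, h3, h4, rfl⟩ | rfl
  · first | rfl | (rw [sub4] at hs; omega)
  · first | rfl | (rw [sub4] at hs; omega)
  · obtain ⟨i, r, rfl, g1, g2, g3, g4, g5⟩ := flex1_strip hK h
    rw [subsq] at hs
    omega
  · first | rfl | (rw [sub4] at hs; omega)
  · rw [sub4] at hs
    omega
  · first | rfl | (rw [sub4] at hs; omega)

theorem fa10 {K : ℕ} (hK : 8 ≤ K) (c : ℕ → Bool)  :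
    {-(K : ℤ), (K : ℤ) - 1, -1} ∈ bdry (flex1 c K) := by
  refine bdry_intro (by omega) (by omega) (by omega) ((mem_flex1 hK).2 (Or.inl rfl))
    (sub4.2 (by omega)) fun τ hτ hs => ?_
  rcases (mem_flex1 hK).1 hτ with rfl | rfl | h | rfl | ⟨q, h3, h4, rfl⟩ | rfl
  · first | rfl | (rw [sub4] at hs; omega)
  · first | rfl | (rw [sub4] at hs; omega)
  · obtain ⟨i, r, rfl, g1, g2, g3, g4, g5⟩ := flex1_strip hK h
    rw [subsq] at hs
    omega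
  · first | rfl | (rw [sub4] at hs; omega)
  · rw [sub4] at hs
    omega
  · first | rfl | (rw [sub4] at hs; omega)

end Pool.NCS
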