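import Pool.Agent.Lib.MP_73a842_co.Flex1Def

/-!
# `flex1` is a stacked ball in the base sphere with vertex set `V K`
-/

open Finset

namespace Pool.NCS

theorem flex1_verts {K : ℕ} (hK : 8 ≤ K) (c : ℕ → Bool) : V K ⊆ verts (flex1 c K) := by
  intro x hx
  rw [mem_V] at hx
  rw [mem_verts]
  have key : ∀ σ : Finset ℤ, σ ∈ flex1 c K → x ∈ σ → ∃ σ ∈ flex1 c K, x ∈ σ :=
    fun σ h1 h2 => ⟨σ, h1, h2⟩
  by_cases h1 : x = -(K : ℤ) ∨ x = (K : ℤ) - 1 ∨ x = -1 ∨ x = -2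
  · exact key _ ((mem_flex1 hK).2 (Or.inl rfl)) (by simpa using h1)
  by_cases h2 : x = (K : ℤ) ∨ x = -((K : ℤ) - 1) ∨ x = -((K : ℤ) - 2) ∨ x = 1
  · exact key _ ((mem_flex1 hK).2 (Or.inr (Or.inl rfl))) (by simpa using h2)
  by_cases h3 : 0 < x
  · have h4 : x ∈ verts (strip c ((K : ℤ) - 1) 2 (K - 5)) :=
      (mem_verts_strip (by omega)).2 (by omega)
    obtain ⟨σ, h5, h6⟩ := mem_verts.1 h4
    exact key σ ((mem_flex1 hK).2 (Or.inr (Or.inr (Or.inl h5)))) h6
  · refine key {(K : ℤ) - 1, (K : ℤ), x, x - 1}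
      ((mem_flex1 hK).2 (Or.inr (Or.inr (Or.inr (Or.inr (Or.inl ⟨x, by omega, by omega, rfl⟩)))))) ?_
    simp

/-- every member contains `K` or `K - 1` or is a square; negatives are excluded by signs -/
theorem flex1_neg {K : ℕ} (hK : 8 ≤ K) (c : ℕ → Bool) :
    ∀ σ ∈ flex1 c K, neg σ ∉ flex1 c K := by
  -- every member has a positive element
  have h1 : ∀ σ ∈ flex1 c K, ∃ x ∈ σ, 0 < x := by
    intro σ hσ
    rcases (mem_flex1 hK).1 hσ with rfl | rfl | h | rfl | ⟨q, h3, h4, rfl⟩ | rfl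
    · exact ⟨(K : ℤ) - 1, by simp, by omega⟩
    · exact ⟨(K : ℤ), by simp, by omega⟩
    · obtain ⟨i, r, rfl, g1, g2, g3, g4, g5⟩ := flex1_strip hK h
      exact ⟨i, mem_sq.2 (Or.inl rfl), by omega⟩
    · exact ⟨(K : ℤ), by simp, by omega⟩
    · exact ⟨(K : ℤ), by simp, by omega⟩
    · exact ⟨(K : ℤ), by simp, by omega⟩
  -- the members other than squares
  have h2 : ∀ σ ∈ flex1 c K, (∀ x ∈ σ, 0 < x) ∨ (-(K : ℤ) ∈ σ ∧ (K : ℤ) - 1 ∈ σ ∧ -1 ∈ σ) ∨
      ((K : ℤ) ∈ σ ∧ -((K : ℤ) - 1) ∈ σ ∧ 1 ∈ σ) ∨ ((K : ℤ) ∈ σ ∧ (K : ℤ) - 1 ∈ σ) := by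
    intro σ hσ
    rcases (mem_flex1 hK).1 hσ with rfl | rfl | h | rfl | ⟨q, h3, h4, rfl⟩ | rfl
    · exact Or.inr (Or.inl (by simp))
    · exact Or.inr (Or.inr (Or.inl (by simp)))
    · obtain ⟨i, r, rfl, g1, g2, g3, g4, g5⟩ := flex1_strip hK h
      refine Or.inl fun x hx => ?_
      rw [mem_sq] at hx
      omega
    · exact Or.inr (Or.inr (Or.inr (by simp)))
    · exact Or.inr (Or.inr (Or.inr (by simp)))
    · exact Or.inr (Or.inr (Or.inr (by simp)))
  have h3 : ∀ σ ∈ flex1 c K, -(K : ℤ) ∈ σ → σ = {-(K : ℤ), (K : ℤ) - 1, -1, -2} := by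
    intro σ hσ hx
    rcases (mem_flex1 hK).1 hσ with rfl | rfl | h | rfl | ⟨q, h3, h4, rfl⟩ | rfl
    · rfl
    · simp only [mem_insert, mem_singleton] at hx; omega
    · obtain ⟨i, r, rfl, g1, g2, g3, g4, g5⟩ := flex1_strip hK h
      rw [mem_sq] at hx
      omega
    all_goals
      simp only [mem_insert, mem_singleton] at hx; omega
  have h4 : (neg {-(K : ℤ), (K : ℤ) - 1, -1, -2} : Finset ℤ) ∉ flex1 c K := by
    intro hσ
    rw [neg4] at hσ
    rcases h2 _ hσ with h | ⟨h, -⟩ | ⟨-, -, h⟩ | ⟨-, h⟩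
    · have := h (-((K : ℤ) - 1)) (by simp)
      omega
    · simp only [mem_insert, mem_singleton] at h; omega
    · rcases (mem_flex1 hK).1 hσ with e | e | h | e | ⟨q, h3, h4, e⟩ | e
      · have : (2 : ℤ) ∈ ({-(K : ℤ), (K : ℤ) - 1, -1, -2} : Finset ℤ) := by rw [← e]; simp
        simp only [mem_insert, mem_singleton] at this; omega
      · have : (2 : ℤ) ∈ ({(K : ℤ), -((K : ℤ) - 1), -((K : ℤ) - 2), 1} : Finset ℤ) := by
          rw [← e]; simp
        simp only [mem_insert, mem_singleton] at this; omega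
      · obtain ⟨i, r, e, g1, g2, g3, g4, g5⟩ := flex1_strip hK h
        have : (-((K : ℤ) - 1)) ∈ sq i r := by rw [← e]; simp
        rw [mem_sq] at this
        omega
      · have : (1 : ℤ) ∈ ({(K : ℤ) - 1, (K : ℤ), 2, -1} : Finset ℤ) := by rw [← e]; simp
        simp only [mem_insert, mem_singleton] at this; omega
      · have : (1 : ℤ) ∈ ({(K : ℤ) - 1, (K : ℤ), q, q - 1} : Finset ℤ) := by rw [← e]; simp
        simp only [mem_insert, mem_singleton] at this; omega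
      · have : (2 : ℤ) ∈ ({(K : ℤ) - 1, (K : ℤ), -((K : ℤ) - 2), 1} : Finset ℤ) := by
          rw [← e]; simp
        simp only [mem_insert, mem_singleton] at this; omega
    · simp only [mem_insert, mem_singleton] at h; omega
  intro σ hσ hσ'
  rcases h2 σ hσ with h | h | h | h
  · obtain ⟨x, hx, hx0⟩ := h1 _ hσ'
    have := h (-x) (mem_neg.1 hx)
    omega
  · have e := h3 σ hσ h.1
    rw [e] at hσ'
    exact h4 hσ'
  · have e := h3 _ hσ' (by rw [mem_neg]; simpa using h.1)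
    apply h4
    rw [← e, neg_neg']
    exact hσ
  · have e := h3 _ hσ' (by rw [mem_neg]; simpa using h.1)
    apply h4
    rw [← e, neg_neg']
    exact hσ

theorem flex1_stacked {K : ℕ} (hK : 8 ≤ K) (c : ℕ → Bool) : Stacked (flex1 c K) := by
  have hd : ∀ x : ℤ, x ∈ dec (-1) (K - 1 - 1) ++ [1] ↔ (x ≤ -1 ∧ -((K : ℤ) - 2) ≤ x) ∨ x = 1 := by
    intro x
    rw [List.mem_append, mem_dec, List.mem_singleton]
    omega
  have hnd : (2 :: (dec (-1) (K - 1 - 1) ++ [1])).Nodup := by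
    rw [List.nodup_cons, hd]
    refine ⟨by omega, ?_⟩
    rw [List.nodup_append]
    refine ⟨nodup_dec, by simp, ?_⟩
    intro x hx y hy
    rw [mem_dec] at hx
    simp only [List.mem_singleton] at hy
    omega
  have hl : dec (-1) (K - 1 - 1) ++ [1] = -1 :: (dec (-2) (K - 1 - 2) ++ [1]) := by
    have : K - 1 - 1 = (K - 1 - 2) + 1 := by omega
    rw [this]
    rfl
  have c1 : Chain (fan ((K : ℤ) - 1) K (2 :: (dec (-1) (K - 1 - 1) ++ [1])))
      {(K : ℤ) - 1, (K : ℤ), 2, -1} 2 := by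
    have h1 : (K : ℤ) - 1 ∉ 2 :: (dec (-1) (K - 1 - 1) ++ [1]) := by
      rw [List.mem_cons, hd]; omega
    have h2 : (K : ℤ) ∉ 2 :: (dec (-1) (K - 1 - 1) ++ [1]) := by
      rw [List.mem_cons, hd]; omega
    rw [hl] at h1 h2 hnd ⊢
    exact fan_chain (by omega) hnd h1 h2
  have hv : ∀ x, x ∈ verts (fan ((K : ℤ) - 1) K (2 :: (dec (-1) (K - 1 - 1) ++ [1]))) ↔
      x = (K : ℤ) - 1 ∨ x = (K : ℤ) ∨ x = 2 ∨ (x ≤ -1 ∧ -((K : ℤ) - 2) ≤ x) ∨ x = 1 := by
    intro x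
    have := mem_verts_fan (u := (K : ℤ) - 1) (o := (K : ℤ)) (p := 2) (q := -1)
      (l := dec (-2) (K - 1 - 2) ++ [1]) (x := x)
    rw [← hl] at this
    rw [this, List.mem_cons, hd]
  obtain ⟨σ', w', c2⟩ := strip_chain (c := c) (i0 := (K : ℤ) - 1) (r0 := 2) (k := K - 5)
    (by omega) c1
    (by intro x; simp only [mem_insert, mem_singleton]; omega)
    (by simp) (by intro x h1 h2; rw [hv]; omega)
  have b1 : ({(K : ℤ), -((K : ℤ) - 2), 1} : Finset ℤ) ∈
      bdry (fan ((K : ℤ) - 1) K (2 :: (dec (-1) (K - 1 - 1) ++ [1])) ∪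
        strip c ((K : ℤ) - 1) 2 (K - 5)) := by
    refine bdry_intro (by omega) (by omega) (by omega)
      ((mem_flex1C hK).2 (Or.inr (Or.inr (Or.inr rfl)))) (sub4.2 (by omega)) fun τ hτ hs => ?_
    rcases (mem_flex1C hK).1 hτ with h | rfl | ⟨q, h3, h4, rfl⟩ | rfl
    · obtain ⟨i, r, rfl, g1, g2, g3, g4, g5⟩ := flex1_strip hK h
      rw [subsq] at hs
      omega
    · rw [sub4] at hs; omega
    · rw [sub4] at hs; omega
    · rfl
  have n1 : -((K : ℤ) - 1) ∉ verts (fan ((K : ℤ) - 1) K (2 :: (dec (-1) (K - 1 - 1) ++ [1])) ∪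
        strip c ((K : ℤ) - 1) 2 (K - 5)) := by
    rw [verts_union, mem_union, hv, mem_verts_strip (by omega)]
    omega
  have s1 := Stacked.step _ _ _ c2.1 b1 n1
  have e1 : (insert (-((K : ℤ) - 1)) {(K : ℤ), -((K : ℤ) - 2), 1} : Finset ℤ) =
      {(K : ℤ), -((K : ℤ) - 1), -((K : ℤ) - 2), 1} := by
    ext x; simp only [mem_insert, mem_singleton]; tauto
  rw [e1] at s1
  have b2 : ({(K : ℤ) - 1, -1, -2} : Finset ℤ) ∈
      bdry (insert {(K : ℤ), -((K : ℤ) - 1), -((K : ℤ) - 2), 1}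
        (fan ((K : ℤ) - 1) K (2 :: (dec (-1) (K - 1 - 1) ++ [1])) ∪
        strip c ((K : ℤ) - 1) 2 (K - 5))) := by
    refine bdry_intro (by omega) (by omega) (by omega)
      (mem_insert_of_mem ((mem_flex1C hK).2 (Or.inr (Or.inr (Or.inl
        ⟨-1, by omega, by omega, rfl⟩))))) (sub4.2 (by omega)) fun τ hτ hs => ?_
    rcases mem_insert.1 hτ with rfl | hτ
    · rw [sub4] at hs; omega
    rcases (mem_flex1C hK).1 hτ with h | rfl | ⟨q, h3, h4, rfl⟩ | rfl
    · obtain ⟨i, r, rfl, g1, g2, g3, g4, g5⟩ := flex1_strip hK h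
      rw [subsq] at hs
      omega
    · rw [sub4] at hs; omega
    · rw [sub4] at hs
      obtain rfl : q = -1 := by omega
      rfl
    · rw [sub4] at hs; omega
  have n2 : -(K : ℤ) ∉ verts (insert {(K : ℤ), -((K : ℤ) - 1), -((K : ℤ) - 2), 1}
        (fan ((K : ℤ) - 1) K (2 :: (dec (-1) (K - 1 - 1) ++ [1])) ∪
        strip c ((K : ℤ) - 1) 2 (K - 5))) := by
    rw [verts_insert, mem_union, verts_union, mem_union, hv, mem_verts_strip (by omega)]
    simp only [mem_insert, mem_singleton]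
    omega
  exact Stacked.step _ _ (-(K : ℤ)) s1 b2 n2

theorem flex1_sub (m : ℕ) (hm : 3 ≤ m) (c : ℕ → Bool) : flex1 c (m + 5) ⊆ base (m + 1) := by
  have hK : 8 ≤ m + 5 := by omega
  have eK : ((m + 5 : ℕ) : ℤ) = ((m + 4 : ℕ) : ℤ) + 1 := by push_cast; ring
  intro σ hσ
  rcases (mem_flex1 hK).1 hσ with rfl | rfl | h | rfl | ⟨q, h3, h4, rfl⟩ | rfl
  · have := base_extra2 m
    convert this using 2
    · rw [eK]
    · congr 1
      omega
  · have := base_extra1 m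
    convert this using 2
    congr 1
    · omega
    · congr 1
      omega
  · obtain ⟨i, r, rfl, g1, g2, g3, g4, g5⟩ := flex1_strip hK h
    exact base_sq (m + 1) g3 g1 (by push_cast at g2 ⊢; omega)
  · have := base_path m (p := 2) (q := -1) ((adj_down (by omega)).2 (by omega))
    convert this using 2
    · omega
    · rw [eK]
  · have := base_path m (p := q) (q := q - 1) ((adj_down (by omega)).2 (by omega))
    convert this using 2
    · omega
    · rw [eK]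
  · have := base_path m (p := -(((m + 5 : ℕ) : ℤ) - 2)) (q := 1)
      ((adj_down (by omega)).2 (by omega))
    convert this using 2
    · omega
    · rw [eK]

end Pool.NCS
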