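import Pool.Agent.Lib.MP_73a842_co.Strip

/-!
# The paths in the link of `K`
-/

open Finset

namespace Pool.NCS

def X (K : ℕ) : ℕ → List ℤ
  | 0 => inc (-((K : ℤ) - 1)) (K - 1) ++ [2, 3, 4]
  | i + 1 => (-((K : ℤ) + i + 1)) :: (X K i ++ [(K : ℤ) + i + 1, 3 * i + 5, 3 * i + 6, 3 * i + 7])

/-- head of `X K i` -/
def yy (K i : ℕ) : ℤ := if i = 0 then -((K : ℤ) - 1) else -((K : ℤ) + i)

theorem yy_succ (K i : ℕ) : yy K (i + 1) = -((K : ℤ) + i + 1) := by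
  simp [yy]; ring

theorem yy_bd {K : ℕ} (i : ℕ) :
    (yy K i = -((K : ℤ) - 1) ∧ i = 0) ∨ (yy K i = -((K : ℤ) + i) ∧ 1 ≤ i) := by
  unfold yy
  split_ifs with h
  · exact Or.inl ⟨rfl, h⟩
  · exact Or.inr ⟨rfl, by omega⟩

theorem X_ne_nil (K i : ℕ) : X K i ≠ [] := by
  cases i with
  | zero => simp [X]
  | succ i => simp [X]

theorem head_X {K : ℕ} (hK : 8 ≤ K) (i : ℕ) : (X K i).head (X_ne_nil K i) = yy K i := by
  cases i with
  | zero =>
    have h0 : inc (-((K : ℤ) - 1)) (K - 1) ≠ [] := inc_ne_nil (by omega)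
    simp only [X]
    rw [List.head_append_of_ne_nil h0, head_inc]
    simp [yy]
  | succ i =>
    rw [yy_succ]
    simp [X]

theorem getLast_X (K i : ℕ) : (X K i).getLast (X_ne_nil K i) = 3 * i + 4 := by
  cases i with
  | zero => simp [X]
  | succ i =>
    have : X K (i + 1) = ((-((K : ℤ) + i + 1)) :: (X K i ++ [(K : ℤ) + i + 1, 3 * i + 5, 3 * i + 6])) ++
        [3 * (i : ℤ) + 7] := by
      simp [X]
    simp only [this]
    rw [List.getLast_append_singleton]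
    push_cast
    ring

theorem mem_X {K : ℕ} (hK : 8 ≤ K) (i : ℕ) {x : ℤ} : x ∈ X K i ↔
    (-((K : ℤ) + i) ≤ x ∧ x ≤ -1 ∧ x ≠ -(K : ℤ)) ∨ (2 ≤ x ∧ x ≤ 3 * i + 4) ∨
      ((K : ℤ) + 1 ≤ x ∧ x ≤ K + i) := by
  induction i with
  | zero =>
    simp only [X, List.mem_append, mem_inc, List.mem_cons, List.not_mem_nil, or_false]
    omega
  | succ i ih =>
    simp only [X, List.mem_append, ih, List.mem_cons, List.not_mem_nil, or_false]
    push_cast
    omega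

theorem nodup_X {K : ℕ} (hK : 8 ≤ K) {i : ℕ} (hi : 3 * i + 5 ≤ K) : (X K i).Nodup := by
  induction i with
  | zero =>
    simp only [X]
    rw [List.nodup_append]
    refine ⟨nodup_inc, by decide, ?_⟩
    intro x hx y hy
    rw [mem_inc] at hx
    simp only [List.mem_cons, List.not_mem_nil, or_false] at hy
    omega
  | succ i ih =>
    simp only [X]
    rw [List.nodup_cons, List.nodup_append]
    refine ⟨?_, ih (by omega), ?_, ?_⟩
    · rw [List.mem_append, mem_X hK]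
      simp only [List.mem_cons, List.not_mem_nil, or_false]
      omega
    · simp only [List.nodup_cons, List.mem_cons, List.not_mem_nil, or_false, not_or]
      refine ⟨⟨by omega, by omega, by omega⟩, ⟨by omega, by omega⟩, by omega, by simp, by simp⟩
    · intro x hx y hy
      rw [mem_X hK] at hx
      simp only [List.mem_cons, List.not_mem_nil, or_false] at hy
      omega

theorem adj_X_zero {K : ℕ} (hK : 8 ≤ K) {p q : ℤ} : adj (X K 0) p q ↔
    (-((K : ℤ) - 1) ≤ p ∧ p ≤ -2 ∧ q = p + 1) ∨ (p = -1 ∧ q = 2) ∨ (p = 2 ∧ q = 3) ∨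
      (p = 3 ∧ q = 4) := by
  have h0 : inc (-((K : ℤ) - 1)) (K - 1) ≠ [] := inc_ne_nil (by omega)
  simp only [X]
  rw [adj_append h0 (by simp), adj_inc, getLast_inc]
  simp only [adj, List.head_cons, or_false]
  omega

theorem adj_X_succ {K : ℕ} (hK : 8 ≤ K) (i : ℕ) {p q : ℤ} : adj (X K (i + 1)) p q ↔
    (p = -((K : ℤ) + i + 1) ∧ q = yy K i) ∨ adj (X K i) p q ∨
      (p = 3 * i + 4 ∧ q = (K : ℤ) + i + 1) ∨ (p = (K : ℤ) + i + 1 ∧ q = 3 * i + 5) ∨
      (p = 3 * i + 5 ∧ q = 3 * i + 6) ∨ (p = 3 * i + 6 ∧ q = 3 * i + 7) := by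
  have h0 : X K i ++ [(K : ℤ) + i + 1, 3 * i + 5, 3 * i + 6, 3 * i + 7] ≠ [] := by simp
  have h1 : adj (X K (i + 1)) p q ↔
      adj ([-((K : ℤ) + i + 1)] ++ (X K i ++ [(K : ℤ) + i + 1, 3 * i + 5, 3 * i + 6, 3 * i + 7])) p q :=
    Iff.rfl
  rw [h1, adj_append (by simp) h0, adj_append (X_ne_nil K i) (by simp), getLast_X,
    List.head_append_of_ne_nil (X_ne_nil K i), head_X hK]
  simp only [adj, List.getLast_singleton, List.head_cons, false_or, or_false]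

theorem adj_X_neg {K : ℕ} (hK : 8 ≤ K) (i : ℕ) : adj (X K i) (-2) (-1) := by
  induction i with
  | zero =>
    rw [adj_X_zero hK]
    exact Or.inl ⟨by omega, by norm_num, by norm_num⟩
  | succ i ih => rw [adj_X_succ hK]; exact Or.inr (Or.inl ih)

theorem adj_X_last {K : ℕ} (hK : 8 ≤ K) (i : ℕ) : adj (X K i) (3 * i + 3) (3 * i + 4) := by
  cases i with
  | zero =>
    rw [adj_X_zero hK]
    exact Or.inr (Or.inr (Or.inr ⟨by norm_num, by norm_num⟩))
  | succ i =>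
    rw [adj_X_succ hK]
    exact Or.inr (Or.inr (Or.inr (Or.inr (Or.inr ⟨by push_cast; ring, by push_cast; ring⟩))))

theorem adj_X_last' {K : ℕ} (hK : 8 ≤ K) {i : ℕ} (hi : 3 * i + 5 ≤ K) {p q : ℤ}
    (h : adj (X K i) p q) : p ≠ 3 * i + 4 ∧ (q = 3 * i + 4 → p = 3 * i + 3) := by
  cases i with
  | zero =>
    rw [adj_X_zero hK] at h
    push_cast
    omega
  | succ i =>
    have hy := yy_bd (K := K) i
    rw [adj_X_succ hK] at h
    rcases h with h | h | h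
    · push_cast; omega
    · have h1 := (mem_X hK i).1 (adj_mem h).1
      have h2 := (mem_X hK i).1 (adj_mem h).2
      push_cast
      omega
    · push_cast; omega

/-- bounds for consecutive elements -/
theorem adj_X_bd {K : ℕ} (hK : 8 ≤ K) {i : ℕ} (hi : 3 * i + 5 ≤ K) {p q : ℤ}
    (h : adj (X K i) p q) : p ≠ q ∧
      ((-((K : ℤ) + i) ≤ p ∧ p ≤ -1 ∧ p ≠ -(K : ℤ)) ∨ (2 ≤ p ∧ p ≤ 3 * i + 4) ∨
      ((K : ℤ) + 1 ≤ p ∧ p ≤ K + i)) ∧
      ((-((K : ℤ) + i) ≤ q ∧ q ≤ -1 ∧ q ≠ -(K : ℤ)) ∨ (2 ≤ q ∧ q ≤ 3 * i + 4) ∨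
      ((K : ℤ) + 1 ≤ q ∧ q ≤ K + i)) :=
  ⟨adj_ne (nodup_X hK hi) h, (mem_X hK i).1 (adj_mem h).1, (mem_X hK i).1 (adj_mem h).2⟩

/-- the fan path -/
theorem adj_P {K : ℕ} (hK : 8 ≤ K) (i : ℕ) {a b : ℤ} {p q : ℤ} :
    adj (a :: b :: 1 :: X K i) p q ↔ (p = a ∧ q = b) ∨ (p = b ∧ q = 1) ∨
      (p = 1 ∧ q = yy K i) ∨ adj (X K i) p q := by
  have h1 : adj (1 :: X K i) p q ↔ adj ([1] ++ X K i) p q := Iff.rfl
  rw [adj_cons, adj_cons, h1, adj_append (by simp) (X_ne_nil K i), head_X hK]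
  simp only [adj, List.getLast_singleton, false_or]

end Pool.NCS
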