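import Pool.Agent.Lib.MP_73a842_co.Flex1Stack
import Pool.Agent.Lib.MP_73a842_co.XList

/-!
# The flexible balls: definition, membership, boundary triangles
-/

open Finset

namespace Pool.NCS

/-- the part of the flexible ball without the two last tetrahedra -/
def flexC (c : ℕ → Bool) (K i : ℕ) : Finset (Finset ℤ) :=
  fan ((K : ℤ) + i + 1) K ((3 * (i : ℤ) + 5) :: ((K : ℤ) - 1) :: 1 :: X K i) ∪
    strip c ((K : ℤ) - 1) (3 * (i : ℤ) + 5) (K - 3 * i - 8)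

/-- the flexible ball in the sphere on `V (K + i + 1)` -/
def flexBall (c : ℕ → Bool) (K i : ℕ) : Finset (Finset ℤ) :=
  insert {-((K : ℤ) + i + 1), 1, (K : ℤ), yy K i} (insert {(K : ℤ) + i + 1, -(K : ℤ), -1, -2}
    (flexC c K i))

theorem flex_strip {c : ℕ → Bool} {K i : ℕ} (hK : 3 * i + 11 ≤ K) {σ : Finset ℤ}
    (h : σ ∈ strip c ((K : ℤ) - 1) (3 * (i : ℤ) + 5) (K - 3 * i - 8)) : ∃ j r : ℤ, σ = sq j r ∧
      r + 2 ≤ j ∧ j ≤ (K : ℤ) - 1 ∧ 3 * (i : ℤ) + 5 ≤ r ∧ (K : ℤ) + 3 * i + 4 ≤ j + r ∧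
      j + r ≤ (K : ℤ) + 3 * i + 6 := by
  obtain ⟨j, r, h1, h2, h3, h4, h5, h6⟩ := strip_band (by omega) h
  exact ⟨j, r, h1, h2, h3, h4, by omega, by omega⟩

theorem mem_flexC {c : ℕ → Bool} {K i : ℕ} (hK : 3 * i + 11 ≤ K) {σ : Finset ℤ} :
    σ ∈ flexC c K i ↔ σ ∈ strip c ((K : ℤ) - 1) (3 * (i : ℤ) + 5) (K - 3 * i - 8) ∨
      σ = {(K : ℤ) + i + 1, (K : ℤ), 3 * (i : ℤ) + 5, (K : ℤ) - 1} ∨
      σ = {(K : ℤ) + i + 1, (K : ℤ), (K : ℤ) - 1, 1} ∨
      σ = {(K : ℤ) + i + 1, (K : ℤ), 1, yy K i} ∨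
      (∃ p q : ℤ, adj (X K i) p q ∧ σ = {(K : ℤ) + i + 1, (K : ℤ), p, q}) := by
  unfold flexC
  rw [mem_union, mem_fan]
  simp only [adj_P (show 8 ≤ K by omega)]
  constructor
  · rintro (⟨p, q, ⟨rfl, rfl⟩ | ⟨rfl, rfl⟩ | ⟨rfl, rfl⟩ | h, h3⟩ | h)
    · exact Or.inr (Or.inl h3)
    · exact Or.inr (Or.inr (Or.inl h3))
    · exact Or.inr (Or.inr (Or.inr (Or.inl h3)))
    · exact Or.inr (Or.inr (Or.inr (Or.inr ⟨p, q, h, h3⟩)))
    · exact Or.inl h
  · rintro (h | h | h | h | ⟨p, q, h, h'⟩)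
    · exact Or.inr h
    · exact Or.inl ⟨_, _, Or.inl ⟨rfl, rfl⟩, h⟩
    · exact Or.inl ⟨_, _, Or.inr (Or.inl ⟨rfl, rfl⟩), h⟩
    · exact Or.inl ⟨_, _, Or.inr (Or.inr (Or.inl ⟨rfl, rfl⟩)), h⟩
    · exact Or.inl ⟨_, _, Or.inr (Or.inr (Or.inr h)), h'⟩

theorem mem_flexBall {c : ℕ → Bool} {K i : ℕ} (hK : 3 * i + 11 ≤ K) {σ : Finset ℤ} :
    σ ∈ flexBall c K i ↔ σ = {-((K : ℤ) + i + 1), 1, (K : ℤ), yy K i} ∨
      σ = {(K : ℤ) + i + 1, -(K : ℤ), -1, -2} ∨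
      σ ∈ strip c ((K : ℤ) - 1) (3 * (i : ℤ) + 5) (K - 3 * i - 8) ∨
      σ = {(K : ℤ) + i + 1, (K : ℤ), 3 * (i : ℤ) + 5, (K : ℤ) - 1} ∨
      σ = {(K : ℤ) + i + 1, (K : ℤ), (K : ℤ) - 1, 1} ∨
      σ = {(K : ℤ) + i + 1, (K : ℤ), 1, yy K i} ∨
      (∃ p q : ℤ, adj (X K i) p q ∧ σ = {(K : ℤ) + i + 1, (K : ℤ), p, q}) := by
  unfold flexBall
  rw [mem_insert, mem_insert, mem_flexC hK]

/-- two sets `{u, o, p, q}`, `{u, o, p', q'}` with `{p, q} = {p', q'}` -/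
theorem four_eq {u o p q p' q' : ℤ} (h : (p = p' ∧ q = q') ∨ (p = q' ∧ q = p')) :
    ({u, o, p, q} : Finset ℤ) = {u, o, p', q'} := by
  rcases h with ⟨rfl, rfl⟩ | ⟨rfl, rfl⟩
  · rfl
  · ext x
    simp only [mem_insert, mem_singleton]
    tauto

theorem ga1 {K i : ℕ} (hK : 3 * i + 11 ≤ K) (c : ℕ → Bool)  :
    {(K : ℤ), 3 * (i : ℤ) + 8, (K : ℤ) - 1} ∈ bdry (flexBall c K i) := by
  have hK8 : 8 ≤ K := by omega
  have hi5 : 3 * i + 5 ≤ K := by omega
  have hy := yy_bd (K := K) i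
  have hf := strip_first (c := c) (i0 := (K : ℤ) - 1) (r0 := 3 * (i : ℤ) + 5) (k := K - 3 * i - 8) (by omega)
  refine bdry_intro (by omega) (by omega) (by omega) ((mem_flexBall hK).2 (Or.inr (Or.inr (Or.inl hf.2.2))))
    (subsq.2 (by omega)) fun τ hτ hs => ?_
  rcases (mem_flexBall hK).1 hτ with rfl | rfl | h | rfl | rfl | rfl | ⟨p', q', h, rfl⟩
  · first | rfl | (rw [sub4] at hs; omega)
  · first | rfl | (rw [sub4] at hs; omega)
  · obtain ⟨j, r, rfl, g1, g2, g3, g4, g5⟩ := flex_strip hK h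
    rw [subsq] at hs
    obtain rfl : j = (K : ℤ) - 1 := by omega
    obtain rfl : r = 3 * (i : ℤ) + 5 + 2 := by omega
    rfl
  · first | rfl | (rw [sub4] at hs; omega)
  · first | rfl | (rw [sub4] at hs; omega)
  · first | rfl | (rw [sub4] at hs; omega)
  · have g1 := adj_X_bd hK8 hi5 h
    have g2 := adj_X_last' hK8 hi5 h
    rw [sub4] at hs
    omega

theorem ga2 {K i : ℕ} (hK : 3 * i + 11 ≤ K) (c : ℕ → Bool)  :
    {(K : ℤ), (K : ℤ) - 1, 1} ∈ bdry (flexBall c K i) := by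
  have hK8 : 8 ≤ K := by omega
  have hi5 : 3 * i + 5 ≤ K := by omega
  have hy := yy_bd (K := K) i
  refine bdry_intro (by omega) (by omega) (by omega) ((mem_flexBall hK).2 (Or.inr (Or.inr (Or.inr (Or.inr (Or.inl rfl))))))
    (sub4.2 (by omega)) fun τ hτ hs => ?_
  rcases (mem_flexBall hK).1 hτ with rfl | rfl | h | rfl | rfl | rfl | ⟨p', q', h, rfl⟩
  · first | rfl | (rw [sub4] at hs; omega)
  · first | rfl | (rw [sub4] at hs; omega)
  · obtain ⟨j, r, rfl, g1, g2, g3, g4, g5⟩ := flex_strip hK h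
    rw [subsq] at hs
    omega
  · first | rfl | (rw [sub4] at hs; omega)
  · first | rfl | (rw [sub4] at hs; omega)
  · first | rfl | (rw [sub4] at hs; omega)
  · have g1 := adj_X_bd hK8 hi5 h
    have g2 := adj_X_last' hK8 hi5 h
    rw [sub4] at hs
    omega

theorem ga3 {K i : ℕ} (hK : 3 * i + 11 ≤ K) (c : ℕ → Bool)  :
    {(K : ℤ), 1, -((K : ℤ) + i + 1)} ∈ bdry (flexBall c K i) := by
  have hK8 : 8 ≤ K := by omega
  have hi5 : 3 * i + 5 ≤ K := by omega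
  have hy := yy_bd (K := K) i
  refine bdry_intro (by omega) (by omega) (by omega) ((mem_flexBall hK).2 (Or.inl rfl))
    (sub4.2 (by omega)) fun τ hτ hs => ?_
  rcases (mem_flexBall hK).1 hτ with rfl | rfl | h | rfl | rfl | rfl | ⟨p', q', h, rfl⟩
  · first | rfl | (rw [sub4] at hs; omega)
  · first | rfl | (rw [sub4] at hs; omega)
  · obtain ⟨j, r, rfl, g1, g2, g3, g4, g5⟩ := flex_strip hK h
    rw [subsq] at hs
    omega
  · first | rfl | (rw [sub4] at hs; omega)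
  · first | rfl | (rw [sub4] at hs; omega)
  · first | rfl | (rw [sub4] at hs; omega)
  · have g1 := adj_X_bd hK8 hi5 h
    have g2 := adj_X_last' hK8 hi5 h
    rw [sub4] at hs
    omega

theorem ga4 {K i : ℕ} (hK : 3 * i + 11 ≤ K) (c : ℕ → Bool)  :
    {(K : ℤ), -((K : ℤ) + i + 1), yy K i} ∈ bdry (flexBall c K i) := by
  have hK8 : 8 ≤ K := by omega
  have hi5 : 3 * i + 5 ≤ K := by omega
  have hy := yy_bd (K := K) i
  refine bdry_intro (by omega) (by omega) (by omega) ((mem_flexBall hK).2 (Or.inl rfl))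
    (sub4.2 (by omega)) fun τ hτ hs => ?_
  rcases (mem_flexBall hK).1 hτ with rfl | rfl | h | rfl | rfl | rfl | ⟨p', q', h, rfl⟩
  · first | rfl | (rw [sub4] at hs; omega)
  · first | rfl | (rw [sub4] at hs; omega)
  · obtain ⟨j, r, rfl, g1, g2, g3, g4, g5⟩ := flex_strip hK h
    rw [subsq] at hs
    omega
  · first | rfl | (rw [sub4] at hs; omega)
  · first | rfl | (rw [sub4] at hs; omega)
  · first | rfl | (rw [sub4] at hs; omega)
  · have g1 := adj_X_bd hK8 hi5 h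
    have g2 := adj_X_last' hK8 hi5 h
    rw [sub4] at hs
    omega

theorem ga5 {K i : ℕ} (hK : 3 * i + 11 ≤ K) (c : ℕ → Bool) {p q : ℤ} (hpq : adj (X K i) p q) :
    {(K : ℤ), p, q} ∈ bdry (flexBall c K i) := by
  have hK8 : 8 ≤ K := by omega
  have hi5 : 3 * i + 5 ≤ K := by omega
  have hy := yy_bd (K := K) i
  have hbd := adj_X_bd hK8 hi5 hpq
  refine bdry_intro (by omega) (by omega) (by omega) ((mem_flexBall hK).2 (Or.inr (Or.inr (Or.inr (Or.inr (Or.inr (Or.inr ⟨_, _, hpq, rfl⟩)))))))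
    (sub4.2 (by omega)) fun τ hτ hs => ?_
  rcases (mem_flexBall hK).1 hτ with rfl | rfl | h | rfl | rfl | rfl | ⟨p', q', h, rfl⟩
  · first | rfl | (rw [sub4] at hs; omega)
  · first | rfl | (rw [sub4] at hs; omega)
  · obtain ⟨j, r, rfl, g1, g2, g3, g4, g5⟩ := flex_strip hK h
    rw [subsq] at hs
    omega
  · first | rfl | (rw [sub4] at hs; omega)
  · first | rfl | (rw [sub4] at hs; omega)
  · first | rfl | (rw [sub4] at hs; omega)
  · have g1 := adj_X_bd hK8 hi5 h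
    have g2 := adj_X_last' hK8 hi5 h
    rw [sub4] at hs
    exact four_eq (by omega)

theorem ga6 {K i : ℕ} (hK : 3 * i + 11 ≤ K) (c : ℕ → Bool)  :
    {(K : ℤ), 3 * (i : ℤ) + 4, (K : ℤ) + i + 1} ∈ bdry (flexBall c K i) := by
  have hK8 : 8 ≤ K := by omega
  have hi5 : 3 * i + 5 ≤ K := by omega
  have hy := yy_bd (K := K) i
  refine bdry_intro (by omega) (by omega) (by omega) ((mem_flexBall hK).2 (Or.inr (Or.inr (Or.inr (Or.inr (Or.inr (Or.inr ⟨_, _, (adj_X_last (by omega) i), rfl⟩)))))))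
    (sub4.2 (by omega)) fun τ hτ hs => ?_
  rcases (mem_flexBall hK).1 hτ with rfl | rfl | h | rfl | rfl | rfl | ⟨p', q', h, rfl⟩
  · first | rfl | (rw [sub4] at hs; omega)
  · first | rfl | (rw [sub4] at hs; omega)
  · obtain ⟨j, r, rfl, g1, g2, g3, g4, g5⟩ := flex_strip hK h
    rw [subsq] at hs
    omega
  · first | rfl | (rw [sub4] at hs; omega)
  · first | rfl | (rw [sub4] at hs; omega)
  · first | rfl | (rw [sub4] at hs; omega)
  · have g1 := adj_X_bd hK8 hi5 h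
    have g2 := adj_X_last' hK8 hi5 h
    rw [sub4] at hs
    exact four_eq (by omega)

theorem ga7 {K i : ℕ} (hK : 3 * i + 11 ≤ K) (c : ℕ → Bool)  :
    {(K : ℤ), (K : ℤ) + i + 1, 3 * (i : ℤ) + 5} ∈ bdry (flexBall c K i) := by
  have hK8 : 8 ≤ K := by omega
  have hi5 : 3 * i + 5 ≤ K := by omega
  have hy := yy_bd (K := K) i
  refine bdry_intro (by omega) (by omega) (by omega) ((mem_flexBall hK).2 (Or.inr (Or.inr (Or.inr (Or.inl rfl)))))
    (sub4.2 (by omega)) fun τ hτ hs => ?_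
  rcases (mem_flexBall hK).1 hτ with rfl | rfl | h | rfl | rfl | rfl | ⟨p', q', h, rfl⟩
  · first | rfl | (rw [sub4] at hs; omega)
  · first | rfl | (rw [sub4] at hs; omega)
  · obtain ⟨j, r, rfl, g1, g2, g3, g4, g5⟩ := flex_strip hK h
    rw [subsq] at hs
    omega
  · first | rfl | (rw [sub4] at hs; omega)
  · first | rfl | (rw [sub4] at hs; omega)
  · first | rfl | (rw [sub4] at hs; omega)
  · have g1 := adj_X_bd hK8 hi5 h
    have g2 := adj_X_last' hK8 hi5 h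
    rw [sub4] at hs
    omega

theorem ga8 {K i : ℕ} (hK : 3 * i + 11 ≤ K) (c : ℕ → Bool)  :
    {(K : ℤ), 3 * (i : ℤ) + 5, 3 * (i : ℤ) + 6} ∈ bdry (flexBall c K i) := by
  have hK8 : 8 ≤ K := by omega
  have hi5 : 3 * i + 5 ≤ K := by omega
  have hy := yy_bd (K := K) i
  have hf := strip_first (c := c) (i0 := (K : ℤ) - 1) (r0 := 3 * (i : ℤ) + 5) (k := K - 3 * i - 8) (by omega)
  refine bdry_intro (by omega) (by omega) (by omega) ((mem_flexBall hK).2 (Or.inr (Or.inr (Or.inl hf.1))))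
    (subsq.2 (by omega)) fun τ hτ hs => ?_
  rcases (mem_flexBall hK).1 hτ with rfl | rfl | h | rfl | rfl | rfl | ⟨p', q', h, rfl⟩
  · first | rfl | (rw [sub4] at hs; omega)
  · first | rfl | (rw [sub4] at hs; omega)
  · obtain ⟨j, r, rfl, g1, g2, g3, g4, g5⟩ := flex_strip hK h
    rw [subsq] at hs
    obtain rfl : j = (K : ℤ) - 1 := by omega
    obtain rfl : r = 3 * (i : ℤ) + 5 := by omega
    rfl
  · first | rfl | (rw [sub4] at hs; omega)
  · first | rfl | (rw [sub4] at hs; omega)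
  · first | rfl | (rw [sub4] at hs; omega)
  · have g1 := adj_X_bd hK8 hi5 h
    have g2 := adj_X_last' hK8 hi5 h
    rw [sub4] at hs
    omega

theorem ga9 {K i : ℕ} (hK : 3 * i + 11 ≤ K) (c : ℕ → Bool)  :
    {(K : ℤ), 3 * (i : ℤ) + 6, 3 * (i : ℤ) + 7} ∈ bdry (flexBall c K i) := by
  have hK8 : 8 ≤ K := by omega
  have hi5 : 3 * i + 5 ≤ K := by omega
  have hy := yy_bd (K := K) i
  have hf := strip_first (c := c) (i0 := (K : ℤ) - 1) (r0 := 3 * (i : ℤ) + 5) (k := K - 3 * i - 8) (by omega)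
  refine bdry_intro (by omega) (by omega) (by omega) ((mem_flexBall hK).2 (Or.inr (Or.inr (Or.inl hf.2.1))))
    (subsq.2 (by omega)) fun τ hτ hs => ?_
  rcases (mem_flexBall hK).1 hτ with rfl | rfl | h | rfl | rfl | rfl | ⟨p', q', h, rfl⟩
  · first | rfl | (rw [sub4] at hs; omega)
  · first | rfl | (rw [sub4] at hs; omega)
  · obtain ⟨j, r, rfl, g1, g2, g3, g4, g5⟩ := flex_strip hK h
    rw [subsq] at hs
    obtain rfl : j = (K : ℤ) - 1 := by omega
    obtain rfl : r = 3 * (i : ℤ) + 5 + 1 := by omega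
    rfl
  · first | rfl | (rw [sub4] at hs; omega)
  · first | rfl | (rw [sub4] at hs; omega)
  · first | rfl | (rw [sub4] at hs; omega)
  · have g1 := adj_X_bd hK8 hi5 h
    have g2 := adj_X_last' hK8 hi5 h
    rw [sub4] at hs
    omega

theorem ga10 {K i : ℕ} (hK : 3 * i + 11 ≤ K) (c : ℕ → Bool)  :
    {-(K : ℤ), -1, -2} ∈ bdry (flexBall c K i) := by
  have hK8 : 8 ≤ K := by omega
  have hi5 : 3 * i + 5 ≤ K := by omega
  have hy := yy_bd (K := K) i
  refine bdry_intro (by omega) (by omega) (by omega) ((mem_flexBall hK).2 (Or.inr (Or.inl rfl)))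
    (sub4.2 (by omega)) fun τ hτ hs => ?_
  rcases (mem_flexBall hK).1 hτ with rfl | rfl | h | rfl | rfl | rfl | ⟨p', q', h, rfl⟩
  · first | rfl | (rw [sub4] at hs; omega)
  · first | rfl | (rw [sub4] at hs; omega)
  · obtain ⟨j, r, rfl, g1, g2, g3, g4, g5⟩ := flex_strip hK h
    rw [subsq] at hs
    omega
  · first | rfl | (rw [sub4] at hs; omega)
  · first | rfl | (rw [sub4] at hs; omega)
  · first | rfl | (rw [sub4] at hs; omega)
  · have g1 := adj_X_bd hK8 hi5 h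
    have g2 := adj_X_last' hK8 hi5 h
    rw [sub4] at hs
    omega

theorem ga11 {K i : ℕ} (hK : 3 * i + 11 ≤ K) (c : ℕ → Bool)  :
    {-(K : ℤ), (K : ℤ) + i + 1, -1} ∈ bdry (flexBall c K i) := by
  have hK8 : 8 ≤ K := by omega
  have hi5 : 3 * i + 5 ≤ K := by omega
  have hy := yy_bd (K := K) i
  refine bdry_intro (by omega) (by omega) (by omega) ((mem_flexBall hK).2 (Or.inr (Or.inl rfl)))
    (sub4.2 (by omega)) fun τ hτ hs => ?_
  rcases (mem_flexBall hK).1 hτ with rfl | rfl | h | rfl | rfl | rfl | ⟨p', q', h, rfl⟩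
  · first | rfl | (rw [sub4] at hs; omega)
  · first | rfl | (rw [sub4] at hs; omega)
  · obtain ⟨j, r, rfl, g1, g2, g3, g4, g5⟩ := flex_strip hK h
    rw [subsq] at hs
    omega
  · first | rfl | (rw [sub4] at hs; omega)
  · first | rfl | (rw [sub4] at hs; omega)
  · first | rfl | (rw [sub4] at hs; omega)
  · have g1 := adj_X_bd hK8 hi5 h
    have g2 := adj_X_last' hK8 hi5 h
    rw [sub4] at hs
    omega

end Pool.NCS
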