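import Pool.Agent.Lib.MP_73a842_co.FlexStack

/-!
# The flexible spheres
-/

open Finset

namespace Pool.NCS

/-- the spheres: `flex c K i` is on `V (K + i + 1)` -/
noncomputable def flex (c : ℕ → ℕ → Bool) (K : ℕ) : ℕ → Finset (Finset ℤ)
  | 0 => ins2 (base (K - 4)) (flex1 (c 0) K) ((K : ℤ) + 1)
  | i + 1 => ins2 (flex c K i) (flexBall (c (i + 1)) K i) (((K + i + 1 : ℕ) : ℤ) + 1)

/-- squares are never removed except by their strip -/
theorem sq_notMem_flex1 {K : ℕ} (hK : 8 ≤ K) (c : ℕ → Bool) {i r : ℤ} (h1 : 2 ≤ r)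
    (h2 : r + 2 ≤ i) (hs : sq i r ∉ strip c ((K : ℤ) - 1) 2 (K - 5)) :
    sq i r ∉ flex1 c K ∧ neg (sq i r) ∉ flex1 c K := by
  constructor
  · intro h
    have a1 : ∀ x ∈ sq i r, 2 ≤ x := by
      intro x hx
      rw [mem_sq] at hx
      omega
    rcases (mem_flex1 hK).1 h with e | e | h | e | ⟨q, h3, h4, e⟩ | e
    · rw [e] at a1
      have := a1 (-1) (by simp)
      omega
    · rw [e] at a1
      have := a1 1 (by simp)
      omega
    · exact hs h
    · rw [e] at a1
      have := a1 (-1) (by simp)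
      omega
    · rw [e] at a1
      have := a1 q (by simp)
      omega
    · rw [e] at a1
      have := a1 1 (by simp)
      omega
  · intro h
    have a1 : ∀ x ∈ neg (sq i r), x ≤ -2 := by
      intro x hx
      rw [mem_neg, mem_sq] at hx
      omega
    rcases (mem_flex1 hK).1 h with e | e | h | e | ⟨q, h3, h4, e⟩ | e
    · rw [e] at a1
      have := a1 ((K : ℤ) - 1) (by simp)
      omega
    · rw [e] at a1
      have := a1 (K : ℤ) (by simp)
      omega
    · obtain ⟨j, s, e, g1, g2, g3, g4, g5⟩ := flex1_strip hK h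
      rw [e] at a1
      have := a1 j (mem_sq.2 (Or.inl rfl))
      omega
    · rw [e] at a1
      have := a1 (K : ℤ) (by simp)
      omega
    · rw [e] at a1
      have := a1 (K : ℤ) (by simp)
      omega
    · rw [e] at a1
      have := a1 (K : ℤ) (by simp)
      omega

theorem sq_notMem_flexBall {K i : ℕ} (hK : 3 * i + 11 ≤ K) (c : ℕ → Bool) {j r : ℤ} (h1 : 2 ≤ r)
    (h2 : r + 2 ≤ j) (h3 : j ≤ (K : ℤ) - 1)
    (hs : sq j r ∉ strip c ((K : ℤ) - 1) (3 * (i : ℤ) + 5) (K - 3 * i - 8)) :
    sq j r ∉ flexBall c K i ∧ neg (sq j r) ∉ flexBall c K i := by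
  have a1 : ∀ x ∈ sq j r, 2 ≤ x ∧ x ≤ K := by
    intro x hx
    rw [mem_sq] at hx
    omega
  have a2 : ∀ x ∈ neg (sq j r), x ≤ -2 := by
    intro x hx
    rw [mem_neg, mem_sq] at hx
    omega
  constructor
  · intro h
    rcases (mem_flexBall hK).1 h with e | e | h | e | e | e | ⟨p', q', h, e⟩
    · rw [e] at a1
      have := a1 1 (by simp)
      omega
    · rw [e] at a1
      have := a1 (-1) (by simp)
      omega
    · exact hs h
    · rw [e] at a1
      have := a1 ((K : ℤ) + i + 1) (by simp)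
      omega
    · rw [e] at a1
      have := a1 ((K : ℤ) + i + 1) (by simp)
      omega
    · rw [e] at a1
      have := a1 ((K : ℤ) + i + 1) (by simp)
      omega
    · rw [e] at a1
      have := a1 ((K : ℤ) + i + 1) (by simp)
      omega
  · intro h
    rcases (mem_flexBall hK).1 h with e | e | h | e | e | e | ⟨p', q', h, e⟩
    · rw [e] at a2
      have := a2 1 (by simp)
      omega
    · rw [e] at a2
      have := a2 ((K : ℤ) + i + 1) (by simp)
      omega
    · obtain ⟨j, s, e, g1, g2, g3, g4, g5⟩ := flex_strip hK h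
      rw [e] at a2
      have := a2 j (mem_sq.2 (Or.inl rfl))
      omega
    · rw [e] at a2
      have := a2 (K : ℤ) (by simp)
      omega
    · rw [e] at a2
      have := a2 (K : ℤ) (by simp)
      omega
    · rw [e] at a2
      have := a2 (K : ℤ) (by simp)
      omega
    · rw [e] at a2
      have := a2 (K : ℤ) (by simp)
      omega

/-- a set inside `[-K, K]` is in `ins2 F B v`, `v > K`, iff it is in `F` and not in `B`, `-B` -/
theorem mem_ins2_old {F B : Finset (Finset ℤ)} {v : ℤ} {σ : Finset ℤ} (h : ∀ x ∈ σ, -v < x ∧ x < v) :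
    σ ∈ ins2 F B v ↔ σ ∈ F ∧ σ ∉ B ∧ neg σ ∉ B := by
  rw [mem_ins2]
  constructor
  · rintro (h1 | ⟨T, -, e⟩ | ⟨T, -, e⟩)
    · exact h1
    · have := h v (by rw [← e]; simp)
      omega
    · have := h (-v) (by rw [← e]; simp)
      omega
  · exact Or.inl

/-- the unused squares are still there -/
theorem flex_sq {c : ℕ → ℕ → Bool} {K : ℕ} (hK8 : 8 ≤ K) (i : ℕ) (hK : 3 * i + 8 ≤ K) {j r : ℤ}
    (h1 : r + 2 ≤ j) (h2 : j ≤ (K : ℤ) - 1) (h3 : (K : ℤ) + 3 * i + 4 ≤ j + r) :
    sq j r ∈ flex c K i := by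
  induction i with
  | zero =>
    rw [flex, mem_ins2_old (by intro x hx; rw [mem_sq] at hx; omega)]
    push_cast at h3
    refine ⟨base_sq (K - 4) (by omega) h1 (by omega), sq_notMem_flex1 hK8 _ (by omega) h1 ?_⟩
    intro h
    obtain ⟨j', r', e, g1, g2, g3, g4, g5⟩ := flex1_strip hK8 h
    have := sq_inj h1 g1 e
    omega
  | succ i ih =>
    push_cast at h3
    rw [flex, mem_ins2_old (by intro x hx; rw [mem_sq] at hx; push_cast; omega)]
    refine ⟨ih (by omega) (by omega), sq_notMem_flexBall (by omega) _ (by omega) h1 h2 ?_⟩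
    intro h
    obtain ⟨j', r', e, g1, g2, g3, g4, g5⟩ := flex_strip (by omega) h
    have := sq_inj h1 g1 e
    omega

/-- the next ball fits, first step -/
theorem next_zero {c : ℕ → ℕ → Bool} {K : ℕ} (hK : 11 ≤ K) (c' : ℕ → Bool) :
    flexBall c' K 0 ⊆ flex c K 0 := by
  have hK8 : 8 ≤ K := by omega
  have hy : yy K 0 = -((K : ℤ) - 1) := by simp [yy]
  intro σ hσ
  rcases (mem_flexBall (by omega)).1 hσ with rfl | rfl | h | rfl | rfl | rfl | ⟨p, q, h, rfl⟩
  · refine ins2_of_bdry_neg (fa10 hK8 (c 0)) fun x => ?_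
    rw [hy]
    simp only [mem_insert, mem_singleton]; push_cast; omega
  · refine ins2_of_bdry (fa9 hK8 (c 0)) fun x => ?_
    simp only [mem_insert, mem_singleton]; push_cast; omega
  · obtain ⟨j, r, rfl, g1, g2, g3, g4, g5⟩ := flex_strip (by omega) h
    exact flex_sq hK8 0 (by omega) g1 g2 (by omega)
  · refine ins2_of_bdry (fa1 hK8 (c 0)) fun x => ?_
    simp only [mem_insert, mem_singleton]; push_cast; omega
  · refine ins2_of_bdry (fa2 hK8 (c 0)) fun x => ?_
    simp only [mem_insert, mem_singleton]; push_cast; omega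
  · refine ins2_of_bdry (fa3 hK8 (c 0)) fun x => ?_
    rw [hy]
    simp only [mem_insert, mem_singleton]; push_cast; omega
  · rcases (adj_X_zero hK8).1 h with ⟨h1, h2, rfl⟩ | ⟨rfl, rfl⟩ | ⟨rfl, rfl⟩ | ⟨rfl, rfl⟩
    · by_cases h3 : p = -((K : ℤ) - 1)
      · refine ins2_of_bdry (fa4 hK8 (c 0)) fun x => ?_
        simp only [mem_insert, mem_singleton]; push_cast; omega
      · refine ins2_of_bdry (fa5 hK8 (c 0) (p := p + 1) (by omega) (by omega)) fun x => ?_
        simp only [mem_insert, mem_singleton]; push_cast; omega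
    · refine ins2_of_bdry (fa6 hK8 (c 0)) fun x => ?_
      simp only [mem_insert, mem_singleton]; push_cast; omega
    · refine ins2_of_bdry (fa7 hK8 (c 0)) fun x => ?_
      simp only [mem_insert, mem_singleton]; push_cast; omega
    · refine ins2_of_bdry (fa8 hK8 (c 0)) fun x => ?_
      simp only [mem_insert, mem_singleton]; push_cast; omega

/-- the next ball fits, later steps -/
theorem next_succ {c : ℕ → ℕ → Bool} {K i : ℕ} (hK : 3 * (i + 1) + 11 ≤ K) (c' : ℕ → Bool) :
    flexBall c' K (i + 1) ⊆ flex c K (i + 1) := by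
  have hK8 : 8 ≤ K := by omega
  have hKi : 3 * i + 11 ≤ K := by omega
  have hy := yy_succ K i
  intro σ hσ
  rcases (mem_flexBall hK).1 hσ with rfl | rfl | h | rfl | rfl | rfl | ⟨p, q, h, rfl⟩
  · refine ins2_of_bdry_neg (ga11 hKi (c (i + 1))) fun x => ?_
    rw [hy]
    simp only [mem_insert, mem_singleton]; push_cast; omega
  · refine ins2_of_bdry (ga10 hKi (c (i + 1))) fun x => ?_
    simp only [mem_insert, mem_singleton]; push_cast; omega
  · obtain ⟨j, r, rfl, g1, g2, g3, g4, g5⟩ := flex_strip hK h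
    exact flex_sq hK8 (i + 1) (by omega) g1 g2 (by omega)
  · refine ins2_of_bdry (ga1 hKi (c (i + 1))) fun x => ?_
    simp only [mem_insert, mem_singleton]; push_cast; omega
  · refine ins2_of_bdry (ga2 hKi (c (i + 1))) fun x => ?_
    simp only [mem_insert, mem_singleton]; push_cast; omega
  · refine ins2_of_bdry (ga3 hKi (c (i + 1))) fun x => ?_
    rw [hy]
    simp only [mem_insert, mem_singleton]; push_cast; omega
  · rcases (adj_X_succ hK8 i).1 h with ⟨rfl, rfl⟩ | h | ⟨rfl, rfl⟩ | ⟨rfl, rfl⟩ | ⟨rfl, rfl⟩ |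
      ⟨rfl, rfl⟩
    · refine ins2_of_bdry (ga4 hKi (c (i + 1))) fun x => ?_
      simp only [mem_insert, mem_singleton]; push_cast; omega
    · refine ins2_of_bdry (ga5 hKi (c (i + 1)) h) fun x => ?_
      simp only [mem_insert, mem_singleton]; push_cast; omega
    · refine ins2_of_bdry (ga6 hKi (c (i + 1))) fun x => ?_
      simp only [mem_insert, mem_singleton]; push_cast; omega
    · refine ins2_of_bdry (ga7 hKi (c (i + 1))) fun x => ?_
      simp only [mem_insert, mem_singleton]; push_cast; omega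
    · refine ins2_of_bdry (ga8 hKi (c (i + 1))) fun x => ?_
      simp only [mem_insert, mem_singleton]; push_cast; omega
    · refine ins2_of_bdry (ga9 hKi (c (i + 1))) fun x => ?_
      simp only [mem_insert, mem_singleton]; push_cast; omega

theorem flex_good (c : ℕ → ℕ → Bool) {K : ℕ} (i : ℕ) (hK : 3 * i + 8 ≤ K) :
    Good (K + i + 1) (flex c K i) := by
  induction i with
  | zero =>
    obtain ⟨m, rfl⟩ : ∃ m, K = m + 5 := ⟨K - 5, by omega⟩
    have hK8 : 8 ≤ m + 5 := by omega
    have h1 := (base_good (m + 1)).1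
    have h2 : Good (m + 5) (base (m + 5 - 4)) := by
      have e1 : m + 1 + 4 = m + 5 := by omega
      have e2 : m + 5 - 4 = m + 1 := by omega
      rw [e2, ← e1]
      exact h1
    have hs : flex1 (c 0) (m + 5) ⊆ base (m + 5 - 4) := by
      have e2 : m + 5 - 4 = m + 1 := by omega
      rw [e2]
      exact flex1_sub m (by omega) (c 0)
    exact good_step h2 (flex1_stacked hK8 _) hs (flex1_verts hK8 _) (flex1_neg hK8 _)
  | succ i ih =>
    have hKi : 3 * i + 11 ≤ K := by omega
    have hs : flexBall (c (i + 1)) K i ⊆ flex c K i := by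
      cases i with
      | zero => exact next_zero (by omega) _
      | succ i => exact next_succ (by omega) _
    exact good_step (ih (by omega)) (flexBall_stacked hKi _) hs (flexBall_verts hKi _)
      (flexBall_neg hKi _)

/-- the bits can be read off -/
theorem flex_bit (c : ℕ → ℕ → Bool) {K : ℕ} (i : ℕ) (hK : 3 * i + 8 ≤ K) {s m : ℕ} (hs : s ≤ i)
    (hm : 2 * m + 3 * s + 9 ≤ K) :
    sq ((K : ℤ) - 2 - m) (3 * s + 5 + m) ∈ flex c K i ↔ c s m = false := by
  have hK8 : 8 ≤ K := by omega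
  have h1 : (3 * (s : ℤ) + 5 + m) + 2 ≤ (K : ℤ) - 2 - m := by omega
  have hb : ∀ x ∈ sq ((K : ℤ) - 2 - m) (3 * s + 5 + m), 2 ≤ x ∧ x ≤ K := by
    intro x hx
    rw [mem_sq] at hx
    omega
  induction i with
  | zero =>
    obtain rfl : s = 0 := by omega
    rw [flex, mem_ins2_old (fun x hx => by have := hb x hx; omega)]
    have h2 : sq ((K : ℤ) - 2 - m) (3 * (0 : ℕ) + 5 + m) ∈ base (K - 4) :=
      base_sq (K - 4) (by omega) h1 (by omega)
    have h3 := strip_bit (c := c 0) (i0 := (K : ℤ) - 1) (r0 := 2) (k := K - 5) (by omega) (m := m)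
      (by omega)
    have e : sq ((K : ℤ) - 2 - m) (3 * (0 : ℕ) + 5 + m) = sq ((K : ℤ) - 1 - 1 - m) (2 + 3 + m) := by
      congr 1 <;> (push_cast; ring)
    rw [← e] at h3
    constructor
    · rintro ⟨-, h4, -⟩
      by_contra hc
      apply h4
      exact (mem_flex1 hK8).2 (Or.inr (Or.inr (Or.inl (h3.2 (by simpa using hc)))))
    · intro hc
      have h4 : sq ((K : ℤ) - 2 - m) (3 * (0 : ℕ) + 5 + m) ∉
          strip (c 0) ((K : ℤ) - 1) 2 (K - 5) := by
        rw [h3, hc]
        simp
      exact ⟨h2, sq_notMem_flex1 hK8 _ (by omega) h1 h4⟩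
  | succ i ih =>
    rw [flex, mem_ins2_old (fun x hx => by have := hb x hx; push_cast; omega)]
    have hKi : 3 * i + 11 ≤ K := by omega
    by_cases hsi : s ≤ i
    · have h5 := ih (by omega) hsi
      refine Iff.trans ?_ h5
      constructor
      · exact fun h => h.1
      · intro h
        refine ⟨h, sq_notMem_flexBall hKi _ (by omega) h1 (by omega) ?_⟩
        intro h
        obtain ⟨j', r', e, g1, g2, g3, g4, g5⟩ := flex_strip hKi h
        have := sq_inj h1 g1 e
        omega
    · obtain rfl : s = i + 1 := by omega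
      have h2 : sq ((K : ℤ) - 2 - m) (3 * ((i + 1 : ℕ) : ℤ) + 5 + m) ∈ flex c K i :=
        flex_sq hK8 i (by omega) h1 (by omega) (by push_cast; omega)
      have h3 := strip_bit (c := c (i + 1)) (i0 := (K : ℤ) - 1) (r0 := 3 * (i : ℤ) + 5)
        (k := K - 3 * i - 8) (by omega) (m := m) (by omega)
      have e : sq ((K : ℤ) - 2 - m) (3 * ((i + 1 : ℕ) : ℤ) + 5 + m) =
          sq ((K : ℤ) - 1 - 1 - m) (3 * (i : ℤ) + 5 + 3 + m) := by
        congr 1 <;> (push_cast; ring)
      rw [← e] at h3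
      constructor
      · rintro ⟨-, h4, -⟩
        by_contra hc
        apply h4
        exact (mem_flexBall hKi).2 (Or.inr (Or.inr (Or.inl (h3.2 (by simpa using hc)))))
      · intro hc
        refine ⟨h2, sq_notMem_flexBall hKi _ (by omega) h1 (by omega) ?_⟩
        rw [h3, hc]
        simp

end Pool.NCS
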