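import Pool.Agent.Lib.MP_73a842_co.FlexBall

/-!
# `flexBall` is a stacked ball with vertex set `V (K + i + 1)`
-/

open Finset

namespace Pool.NCS

theorem flexBall_verts {K i : ℕ} (hK : 3 * i + 11 ≤ K) (c : ℕ → Bool) :
    V (K + i + 1) ⊆ verts (flexBall c K i) := by
  have hK8 : 8 ≤ K := by omega
  intro x hx
  rw [mem_V] at hx
  push_cast at hx
  rw [mem_verts]
  have key : ∀ σ : Finset ℤ, σ ∈ flexBall c K i → x ∈ σ → ∃ σ ∈ flexBall c K i, x ∈ σ :=
    fun σ h1 h2 => ⟨σ, h1, h2⟩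
  by_cases h1 : x = -((K : ℤ) + i + 1) ∨ x = 1 ∨ x = (K : ℤ) ∨ x = yy K i
  · exact key _ ((mem_flexBall hK).2 (Or.inl rfl)) (by simpa using h1)
  by_cases h2 : x = (K : ℤ) + i + 1 ∨ x = -(K : ℤ) ∨ x = -1 ∨ x = -2
  · exact key _ ((mem_flexBall hK).2 (Or.inr (Or.inl rfl))) (by simpa using h2)
  by_cases h3 : 3 * (i : ℤ) + 5 ≤ x ∧ x ≤ K
  · have h4 : x ∈ verts (strip c ((K : ℤ) - 1) (3 * (i : ℤ) + 5) (K - 3 * i - 8)) :=
      (mem_verts_strip (by omega)).2 (by omega)
    obtain ⟨σ, h5, h6⟩ := mem_verts.1 h4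
    exact key σ ((mem_flexBall hK).2 (Or.inr (Or.inr (Or.inl h5)))) h6
  · have hX : x ∈ X K i := (mem_X hK8 i).2 (by omega)
    have hv : x ∈ verts (fan ((K : ℤ) + i + 1) K
        ((3 * (i : ℤ) + 5) :: ((K : ℤ) - 1) :: 1 :: X K i)) := by
      rw [mem_verts_fan]
      exact Or.inr (Or.inr (by simp [hX]))
    obtain ⟨σ, h5, h6⟩ := mem_verts.1 hv
    refine key σ ?_ h6
    unfold flexBall flexC
    exact mem_insert_of_mem (mem_insert_of_mem (mem_union_left _ h5))

theorem flexBall_neg {K i : ℕ} (hK : 3 * i + 11 ≤ K) (c : ℕ → Bool) :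
    ∀ σ ∈ flexBall c K i, neg σ ∉ flexBall c K i := by
  have hK8 : 8 ≤ K := by omega
  have hi5 : 3 * i + 5 ≤ K := by omega
  have hy := yy_bd (K := K) i
  set v : ℤ := (K : ℤ) + i + 1 with hv
  -- every member has a positive element
  have h1 : ∀ σ ∈ flexBall c K i, ∃ x ∈ σ, 0 < x := by
    intro σ hσ
    rcases (mem_flexBall hK).1 hσ with rfl | rfl | h | rfl | rfl | rfl | ⟨p', q', h, rfl⟩
    · exact ⟨1, by simp, by omega⟩
    · exact ⟨v, by simp [hv], by omega⟩
    · obtain ⟨j, r, rfl, g1, g2, g3, g4, g5⟩ := flex_strip hK h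
      exact ⟨j, mem_sq.2 (Or.inl rfl), by omega⟩
    all_goals exact ⟨(K : ℤ), by simp, by omega⟩
  have h2 : ∀ σ ∈ flexBall c K i, (∀ x ∈ σ, 0 < x) ∨ v ∈ σ ∨ -v ∈ σ := by
    intro σ hσ
    rcases (mem_flexBall hK).1 hσ with rfl | rfl | h | rfl | rfl | rfl | ⟨p', q', h, rfl⟩
    · exact Or.inr (Or.inr (by simp [hv]))
    · exact Or.inr (Or.inl (by simp [hv]))
    · obtain ⟨j, r, rfl, g1, g2, g3, g4, g5⟩ := flex_strip hK h
      refine Or.inl fun x hx => ?_
      rw [mem_sq] at hx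
      omega
    all_goals exact Or.inr (Or.inl (by simp [hv]))
  have h3 : ∀ σ ∈ flexBall c K i, -v ∈ σ → σ = {-v, 1, (K : ℤ), yy K i} := by
    intro σ hσ hx
    rcases (mem_flexBall hK).1 hσ with rfl | rfl | h | rfl | rfl | rfl | ⟨p', q', h, rfl⟩
    · rfl
    · simp only [mem_insert, mem_singleton] at hx; omega
    · obtain ⟨j, r, rfl, g1, g2, g3, g4, g5⟩ := flex_strip hK h
      rw [mem_sq] at hx
      omega
    · simp only [mem_insert, mem_singleton] at hx; omega
    · simp only [mem_insert, mem_singleton] at hx; omega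
    · simp only [mem_insert, mem_singleton] at hx; omega
    · have := adj_X_bd hK8 hi5 h
      simp only [mem_insert, mem_singleton] at hx; omega
  have h3' : ∀ σ ∈ flexBall c K i, -(K : ℤ) ∈ σ → σ = {v, -(K : ℤ), -1, -2} := by
    intro σ hσ hx
    rcases (mem_flexBall hK).1 hσ with rfl | rfl | h | rfl | rfl | rfl | ⟨p', q', h, rfl⟩
    · simp only [mem_insert, mem_singleton] at hx; omega
    · rfl
    · obtain ⟨j, r, rfl, g1, g2, g3, g4, g5⟩ := flex_strip hK h
      rw [mem_sq] at hx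
      omega
    · simp only [mem_insert, mem_singleton] at hx; omega
    · simp only [mem_insert, mem_singleton] at hx; omega
    · simp only [mem_insert, mem_singleton] at hx; omega
    · have := adj_X_bd hK8 hi5 h
      simp only [mem_insert, mem_singleton] at hx; omega
  have h4 : (neg {-v, 1, (K : ℤ), yy K i} : Finset ℤ) ∉ flexBall c K i := by
    intro hσ
    rw [neg4] at hσ
    have e := h3' _ hσ (by simp)
    have h5 : -yy K i ∈ ({v, -(K : ℤ), -1, -2} : Finset ℤ) := by rw [← e]; simp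
    simp only [mem_insert, mem_singleton] at h5
    have h6 : -yy K i ≠ v := by omega
    omega
  intro σ hσ hσ'
  rcases h2 σ hσ with h | h | h
  · obtain ⟨x, hx, hx0⟩ := h1 _ hσ'
    have := h (-x) (mem_neg.1 hx)
    omega
  · have e := h3 _ hσ' (by rw [mem_neg]; simpa using h)
    apply h4
    rw [← e, neg_neg']
    exact hσ
  · have e := h3 σ hσ h
    rw [e] at hσ'
    exact h4 hσ'

theorem flexBall_stacked {K i : ℕ} (hK : 3 * i + 11 ≤ K) (c : ℕ → Bool) :
    Stacked (flexBall c K i) := by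
  have hK8 : 8 ≤ K := by omega
  have hi5 : 3 * i + 5 ≤ K := by omega
  have hy := yy_bd (K := K) i
  have hyX : yy K i ∈ X K i := by rw [← head_X hK8]; exact List.head_mem _
  have hnd : ((3 * (i : ℤ) + 5) :: ((K : ℤ) - 1) :: 1 :: X K i).Nodup := by
    rw [List.nodup_cons, List.nodup_cons, List.nodup_cons]
    refine ⟨?_, ?_, ?_, nodup_X hK8 hi5⟩
    · rw [List.mem_cons, List.mem_cons, mem_X hK8]; omega
    · rw [List.mem_cons, mem_X hK8]; omega
    · rw [mem_X hK8]; omega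
  have c1 : Chain (fan ((K : ℤ) + i + 1) K ((3 * (i : ℤ) + 5) :: ((K : ℤ) - 1) :: 1 :: X K i))
      {(K : ℤ) + i + 1, (K : ℤ), 3 * (i : ℤ) + 5, (K : ℤ) - 1} (3 * (i : ℤ) + 5) := by
    refine fan_chain (by omega) hnd ?_ ?_
    · rw [List.mem_cons, List.mem_cons, List.mem_cons, mem_X hK8]; omega
    · rw [List.mem_cons, List.mem_cons, List.mem_cons, mem_X hK8]; omega
  have hv : ∀ x, x ∈ verts (fan ((K : ℤ) + i + 1) K
      ((3 * (i : ℤ) + 5) :: ((K : ℤ) - 1) :: 1 :: X K i)) ↔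
      x = (K : ℤ) + i + 1 ∨ x = (K : ℤ) ∨ x = 3 * (i : ℤ) + 5 ∨ x = (K : ℤ) - 1 ∨ x = 1 ∨
        x ∈ X K i := by
    intro x
    rw [mem_verts_fan, List.mem_cons, List.mem_cons, List.mem_cons]
  obtain ⟨σ', w', c2⟩ := strip_chain (c := c) (i0 := (K : ℤ) - 1) (r0 := 3 * (i : ℤ) + 5)
    (k := K - 3 * i - 8) (by omega) c1
    (by intro x; simp only [mem_insert, mem_singleton]; omega)
    (by simp) (by intro x h1 h2; rw [hv, mem_X hK8]; omega)
  have c3 : Stacked (flexC c K i) := c2.1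
  have b1 : ({(K : ℤ) + i + 1, -1, -2} : Finset ℤ) ∈ bdry (flexC c K i) := by
    refine bdry_intro (by omega) (by omega) (by omega)
      ((mem_flexC hK).2 (Or.inr (Or.inr (Or.inr (Or.inr ⟨_, _, adj_X_neg hK8 i, rfl⟩)))))
      (sub4.2 (by omega)) fun τ hτ hs => ?_
    rcases (mem_flexC hK).1 hτ with h | rfl | rfl | rfl | ⟨p', q', h, rfl⟩
    · obtain ⟨j, r, rfl, g1, g2, g3, g4, g5⟩ := flex_strip hK h
      rw [subsq] at hs
      omega
    · rw [sub4] at hs; omega
    · rw [sub4] at hs; omega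
    · rw [sub4] at hs; omega
    · have g1 := adj_X_bd hK8 hi5 h
      rw [sub4] at hs
      exact four_eq (by omega)
  have n1 : -(K : ℤ) ∉ verts (flexC c K i) := by
    unfold flexC
    rw [verts_union, mem_union, hv, mem_verts_strip (by omega), mem_X hK8]
    omega
  have s1 := Stacked.step _ _ _ c3 b1 n1
  have e1 : (insert (-(K : ℤ)) {(K : ℤ) + i + 1, -1, -2} : Finset ℤ) =
      {(K : ℤ) + i + 1, -(K : ℤ), -1, -2} := by
    ext x; simp only [mem_insert, mem_singleton]; tauto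
  rw [e1] at s1
  have b2 : ({1, (K : ℤ), yy K i} : Finset ℤ) ∈
      bdry (insert {(K : ℤ) + i + 1, -(K : ℤ), -1, -2} (flexC c K i)) := by
    refine bdry_intro (by omega) (by omega) (by omega)
      (mem_insert_of_mem ((mem_flexC hK).2 (Or.inr (Or.inr (Or.inr (Or.inl rfl))))))
      (sub4.2 (by omega)) fun τ hτ hs => ?_
    rcases mem_insert.1 hτ with rfl | hτ
    · rw [sub4] at hs; omega
    rcases (mem_flexC hK).1 hτ with h | rfl | rfl | rfl | ⟨p', q', h, rfl⟩
    · obtain ⟨j, r, rfl, g1, g2, g3, g4, g5⟩ := flex_strip hK h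
      rw [subsq] at hs
      omega
    · rw [sub4] at hs; omega
    · rw [sub4] at hs; omega
    · rfl
    · have g1 := adj_X_bd hK8 hi5 h
      rw [sub4] at hs
      omega
  have n2 : -((K : ℤ) + i + 1) ∉
      verts (insert {(K : ℤ) + i + 1, -(K : ℤ), -1, -2} (flexC c K i)) := by
    unfold flexC
    rw [verts_insert, mem_union, verts_union, mem_union, hv, mem_verts_strip (by omega), mem_X hK8]
    simp only [mem_insert, mem_singleton]
    omega
  exact Stacked.step _ _ _ s1 b2 n2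

end Pool.NCS
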