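import Pool.Agent.Lib.MP_73a842_co.Basic

/-!
# NCS-Flips: bistellar moves at the facet level
-/

open Finset

namespace Pool.NCS

private theorem flips_sub_erase {s A B : Finset ℤ} {a : ℤ} (h : s ⊆ A ∪ B) (ha : a ∉ s) :
    s ⊆ (A ∪ B).erase a := fun x hx =>
  mem_erase.2 ⟨fun h0 => ha (h0 ▸ hx), h hx⟩

theorem flip_of_facets {F : Finset (Finset ℤ)} {A B : Finset ℤ} (hA : A.Nonempty) (hB : B.Nonempty)
    (hd : Disjoint A B) (hc : A.card + B.card = 5)
    (h1 : ∀ σ ∈ F, A ⊆ σ → ∃ b ∈ B, σ = (A ∪ B).erase b)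
    (h2 : ∀ b ∈ B, (A ∪ B).erase b ∈ F)
    (h3 : ∀ σ ∈ F, ¬ B ⊆ σ) :
    Flip 3 (cl F) (cl ((F.filter fun σ => ¬ A ⊆ σ) ∪ A.image fun a => (A ∪ B).erase a)) := by
  refine ⟨A, B, hA, hB, hd, hc, ?_, ?_, ?_⟩
  · rintro ⟨σ, hσ, h⟩
    exact h3 σ hσ h
  · intro t ht
    constructor
    · rintro ⟨σ, hσ, h⟩
      obtain ⟨b, hb, rfl⟩ := h1 σ hσ (subset_union_right.trans h)
      have htb : b ∉ t := fun h0 => (mem_erase.1 (h (mem_union_left _ h0))).1 rfl
      refine ⟨fun x hx => ?_, fun h0 => htb (h0 hb)⟩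
      have hx1 := (mem_erase.1 (h (mem_union_left _ hx))).2
      rcases mem_union.1 hx1 with h0 | h0
      · exact absurd h0 (disjoint_left.1 ht hx)
      · exact h0
    · intro h
      obtain ⟨b, hb, hbt⟩ := exists_of_ssubset h
      refine ⟨(A ∪ B).erase b, h2 b hb, flips_sub_erase ?_ ?_⟩
      · exact union_subset (h.1.trans subset_union_right) subset_union_left
      · intro h0
        rcases mem_union.1 h0 with h0 | h0
        · exact hbt h0
        · exact disjoint_left.1 hd h0 hb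
  · ext s
    constructor
    · rintro ⟨σ, hσ, h⟩
      rcases mem_union.1 hσ with hσ | hσ
      · obtain ⟨hF, hAσ⟩ := mem_filter.1 hσ
        exact Or.inl ⟨⟨σ, hF, h⟩, fun h0 => hAσ (h0.trans h)⟩
      · obtain ⟨a, ha, rfl⟩ := mem_image.1 hσ
        have has : a ∉ s := fun h0 => (mem_erase.1 (h h0)).1 rfl
        have hnA : ¬ A ⊆ s := fun h0 => has (h0 ha)
        have hsub : s ⊆ A ∪ B := h.trans (erase_subset _ _)
        by_cases hBs : B ⊆ s
        · exact Or.inr ⟨hBs, hsub, hnA⟩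
        · obtain ⟨b, hb, hbs⟩ := not_subset.1 hBs
          exact Or.inl ⟨⟨(A ∪ B).erase b, h2 b hb, flips_sub_erase hsub hbs⟩, hnA⟩
    · rintro (⟨⟨σ, hσ, h⟩, hnA⟩ | ⟨-, hsub, hnA⟩)
      · by_cases hAσ : A ⊆ σ
        · obtain ⟨b, hb, rfl⟩ := h1 σ hσ hAσ
          obtain ⟨a, ha, has⟩ := not_subset.1 hnA
          exact ⟨(A ∪ B).erase a, mem_union_right _ (mem_image_of_mem _ ha),
            flips_sub_erase (h.trans (erase_subset _ _)) has⟩
        · exact ⟨σ, mem_union_left _ (mem_filter.2 ⟨hσ, hAσ⟩), h⟩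
      · obtain ⟨a, ha, has⟩ := not_subset.1 hnA
        exact ⟨(A ∪ B).erase a, mem_union_right _ (mem_image_of_mem _ ha),
          flips_sub_erase hsub has⟩

end Pool.NCS
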