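import Pool.Agent.Lib.MP_73a842_co.BStep

/-!
# NCS-StackA: stacked balls have all their edges in the boundary

`edge_mem` by induction on `Stacked` (`bdry_single`, `bdry_step`): let `e ⊆ σ ∈ insert (insert w T) B`.
If `σ ∈ B`, take `S ∈ bdry B` with `e ⊆ S`; if `S = T` then `e ⊆ insert w e`.  If `σ = insert w T`, then `e ⊆ T`
(use `insert w e`) or `e = {w, x}` (use `insert w e'` with `x ∈ e' ⊆ T`, `e'.card = 2`).
-/

open Finset

namespace Pool.NCS

private theorem notMem_of_bdry {B : Finset (Finset ℤ)} {T : Finset ℤ} {w : ℤ} (hT : T ∈ bdry B)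
    (hw : w ∉ verts B) : w ∉ T := by
  intro h
  obtain ⟨-, σ, hσ, hs, -⟩ := mem_bdry.1 hT
  exact hw (mem_verts.2 ⟨σ, hσ, hs h⟩)

theorem Stacked.card4 {B : Finset (Finset ℤ)} (h : Stacked B) : ∀ σ ∈ B, σ.card = 4 := by
  induction h with
  | single σ h =>
    intro τ hτ
    rw [mem_singleton.1 hτ, h]
  | step B T w h hT hw ih =>
    intro τ hτ
    rcases mem_insert.1 hτ with h1 | h1
    · rw [h1, card_insert_of_notMem (notMem_of_bdry hT hw), (mem_bdry.1 hT).1]
    · exact ih τ h1

theorem Stacked.edge_mem {B : Finset (Finset ℤ)} (h : Stacked B) {σ : Finset ℤ} (hσ : σ ∈ B)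
    {e : Finset ℤ} (he : e ⊆ σ) (hc : e.card = 2) : ∃ T ∈ bdry B, e ⊆ T := by
  induction h generalizing σ with
  | single σ' h' =>
    rw [mem_singleton.1 hσ] at he
    obtain ⟨T, h1, h2, h3⟩ := Finset.exists_subsuperset_card_eq (n := 3) he (by omega) (by omega)
    exact ⟨T, (bdry_single h').2 ⟨h2, h3⟩, h1⟩
  | step B T w hB hT hw ih =>
    have hwT : w ∉ T := notMem_of_bdry hT hw
    have hTc : T.card = 3 := (mem_bdry.1 hT).1
    rcases mem_insert.1 hσ with h1 | h1
    · subst h1
      by_cases hwe : w ∈ e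
      · obtain ⟨e', h2, h3, h4⟩ := Finset.exists_subsuperset_card_eq (n := 2) (s := e.erase w) (t := T)
          (by
            intro x hx
            rcases mem_erase.1 hx with ⟨h5, h6⟩
            rcases mem_insert.1 (he h6) with h7 | h7
            · exact absurd h7 h5
            · exact h7)
          (by
            rw [card_erase_of_mem hwe]
            omega) (by omega)
        refine ⟨insert w e', (bdry_step hT hw).2 (Or.inr ⟨e', h3, h4, rfl⟩), ?_⟩
        intro x hx
        by_cases hxw : x = w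
        · rw [hxw]
          exact mem_insert_self _ _
        · exact mem_insert_of_mem (h2 (mem_erase.2 ⟨hxw, hx⟩))
      · refine ⟨insert w e, (bdry_step hT hw).2 (Or.inr ⟨e, ?_, hc, rfl⟩), subset_insert _ _⟩
        intro x hx
        rcases mem_insert.1 (he hx) with h7 | h7
        · exact absurd (h7 ▸ hx) hwe
        · exact h7
    · obtain ⟨S, hS, heS⟩ := ih h1 he
      by_cases hST : S = T
      · subst hST
        exact ⟨insert w e, (bdry_step hT hw).2 (Or.inr ⟨e, heS, hc, rfl⟩), subset_insert _ _⟩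
      · exact ⟨S, (bdry_step hT hw).2 (Or.inl ⟨hS, hST⟩), heS⟩

end Pool.NCS
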