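import Pool.Agent.Lib.MP_73a842_co.Flips
import Pool.Agent.Lib.MP_73a842_co.StackA

/-!
# NCS-InsFlip: inserting a vertex in a stacked ball is a sequence of bistellar moves

`single`: `flip_of_facets` with `A = σ`, `B = {v}`.  `step`: `flip_of_facets` with `A = T`, `B = {v, w}` for the
facet set `ins F B v`: the facets containing `T` are `insert v T` (as `T ∈ bdry B`) and, by `PM F` (`T` is in a
tetrahedron of `B ⊆ F` and in `insert w T ∈ F \ B`), only `insert w T`; no facet contains `{v, w}` since the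
facets containing `v` are `insert v S`, `S ∈ bdry B`, and `w ∉ verts B`, `w ≠ v`.  Then `bdry_step` shows that
the new facet set is `ins F (insert (insert w T) B) v`.
-/

open Finset

namespace Pool.NCS

private theorem nm {F B : Finset (Finset ℤ)} (hs : B ⊆ F) {v : ℤ}
    (hv : v ∉ verts F) {S : Finset ℤ} (hS : S ∈ bdry B) : v ∉ S := by
  intro h
  obtain ⟨-, σ, hσ, hsub, -⟩ := mem_bdry.1 hS
  exact hv (mem_verts.2 ⟨σ, hs hσ, hsub h⟩)

theorem ins_single {F : Finset (Finset ℤ)} {σ : Finset ℤ} (hσ : σ ∈ F) (h4 : ∀ τ ∈ F, τ.card = 4)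
    {v : ℤ} (hv : v ∉ verts F) : Flip 3 (cl F) (cl (ins F {σ} v)) := by
  have hvσ : v ∉ σ := fun h => hv (mem_verts.2 ⟨σ, hσ, h⟩)
  have hσ4 := h4 σ hσ
  have hne : σ.Nonempty := by
    rw [← card_pos]; omega
  have hunion : σ ∪ {v} = insert v σ := by rw [union_comm, ← insert_eq]
  have herase : (σ ∪ {v}).erase v = σ := by rw [hunion, erase_insert hvσ]
  have h := flip_of_facets (F := F) (A := σ) (B := {v}) hne (singleton_nonempty v)
    (disjoint_singleton_right.2 hvσ) (by rw [hσ4, card_singleton])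
    (fun τ hτ hsub => ⟨v, mem_singleton_self v, by
      rw [herase]
      exact (eq_of_subset_of_card_le hsub (by rw [h4 τ hτ, hσ4])).symm⟩)
    (fun b hb => by
      rw [mem_singleton.1 hb, herase]
      exact hσ)
    (fun τ hτ hsub => hv (mem_verts.2 ⟨τ, hτ, singleton_subset_iff.1 hsub⟩))
  have e : ins F {σ} v = (F.filter fun τ => ¬ σ ⊆ τ) ∪ σ.image fun a => (σ ∪ {v}).erase a := by
    ext τ
    rw [mem_ins, mem_union, mem_filter, mem_image]
    constructor
    · rintro (⟨h1, h2⟩ | ⟨S, hS, rfl⟩)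
      · refine Or.inl ⟨h1, fun hsub => h2 ?_⟩
        rw [mem_singleton]
        exact (eq_of_subset_of_card_le hsub (by rw [h4 τ h1, hσ4])).symm
      · rw [bdry_single hσ4] at hS
        obtain ⟨x, hx, hSx⟩ : ∃ x ∈ σ, S = σ.erase x := by
          have h1 : (σ \ S).card = 1 := by
            rw [card_sdiff_of_subset hS.1, hσ4, hS.2]
          obtain ⟨x, hx⟩ := card_eq_one.1 h1
          have hx' : x ∈ σ \ S := by rw [hx]; exact mem_singleton_self x
          rw [mem_sdiff] at hx'
          refine ⟨x, hx'.1, eq_of_subset_of_card_le ?_ ?_⟩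
          · intro y hy
            exact mem_erase.2 ⟨fun e => hx'.2 (e ▸ hy), hS.1 hy⟩
          · rw [card_erase_of_mem hx'.1, hσ4, hS.2]
        refine Or.inr ⟨x, hx, ?_⟩
        rw [hunion, hSx, erase_insert_of_ne]
        rintro rfl
        exact hvσ hx
    · rintro (⟨h1, h2⟩ | ⟨a, ha, rfl⟩)
      · refine Or.inl ⟨h1, fun h3 => h2 ?_⟩
        rw [mem_singleton.1 h3]
      · refine Or.inr ⟨σ.erase a, (bdry_single hσ4).2 ⟨erase_subset _ _, ?_⟩, ?_⟩
        · rw [card_erase_of_mem ha, hσ4]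
        · rw [hunion, erase_insert_of_ne]
          rintro rfl
          exact hvσ ha
  rw [e]
  exact h

theorem ins_step {F : Finset (Finset ℤ)} (h4 : ∀ τ ∈ F, τ.card = 4) (hp : PM F)
    {B : Finset (Finset ℤ)} {T : Finset ℤ} {w : ℤ} (hB : Stacked B) (hT : T ∈ bdry B)
    (hw : w ∉ verts B) (hs : insert (insert w T) B ⊆ F) {v : ℤ} (hv : v ∉ verts F) :
    Flip 3 (cl (ins F B v)) (cl (ins F (insert (insert w T) B) v)) := by
  have hBF : B ⊆ F := fun τ hτ => hs (mem_insert_of_mem hτ)
  have hwT : insert w T ∈ F := hs (mem_insert_self _ _)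
  have hwT' : insert w T ∉ B := fun h => hw (mem_verts.2 ⟨_, h, mem_insert_self _ _⟩)
  obtain ⟨hT3, σ0, hσ0, hTσ0, hu⟩ := mem_bdry.1 hT
  have hvT : v ∉ T := nm hBF hv hT
  have hwnT : w ∉ T := fun h => hw (mem_verts.2 ⟨σ0, hσ0, hTσ0 h⟩)
  have hvw : v ≠ w := by
    rintro rfl
    exact hv (mem_verts.2 ⟨_, hwT, mem_insert_self _ _⟩)
  -- facets of `F` containing `T`
  have hfac : ∀ τ ∈ F, τ ∉ B → T ⊆ τ → τ = insert w T := by
    intro τ hτ hτB hsub
    by_contra hne
    have h1 : ({σ0, insert w T, τ} : Finset (Finset ℤ)) ⊆ F.filter (T ⊆ ·) := by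
      intro ρ hρ
      simp only [mem_insert, mem_singleton] at hρ
      rcases hρ with rfl | rfl | rfl
      · exact mem_filter.2 ⟨hBF hσ0, hTσ0⟩
      · exact mem_filter.2 ⟨hwT, subset_insert _ _⟩
      · exact mem_filter.2 ⟨hτ, hsub⟩
    have h2 : ({σ0, insert w T, τ} : Finset (Finset ℤ)).card = 3 := by
      rw [card_insert_of_notMem, card_insert_of_notMem, card_singleton]
      · rw [mem_singleton]; exact fun e => hne e.symm
      · rw [mem_insert, mem_singleton, not_or]
        exact ⟨fun e => hwT' (e ▸ hσ0), fun e => hτB (e ▸ hσ0)⟩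
    have h3 := card_le_card h1
    have h5 := hp T hT3
    omega
  have hvm : v ∈ T ∪ {v, w} := mem_union_right _ (by simp)
  have hwm : w ∈ T ∪ {v, w} := mem_union_right _ (by simp)
  have hev : (T ∪ {v, w}).erase v = insert w T := by
    ext x
    simp only [mem_erase, mem_union, mem_insert, mem_singleton]
    constructor
    · rintro ⟨h1, h2 | h2 | h2⟩
      · exact Or.inr h2
      · exact absurd h2 h1
      · exact Or.inl h2
    · rintro (h1 | h1)
      · exact ⟨fun e => hvw (e ▸ h1), Or.inr (Or.inr h1)⟩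
      · exact ⟨fun e => hvT (e ▸ h1), Or.inl h1⟩
  have hew : (T ∪ {v, w}).erase w = insert v T := by
    ext x
    simp only [mem_erase, mem_union, mem_insert, mem_singleton]
    constructor
    · rintro ⟨h1, h2 | h2 | h2⟩
      · exact Or.inr h2
      · exact Or.inl h2
      · exact absurd h2 h1
    · rintro (h1 | h1)
      · exact ⟨fun e => hvw (h1.symm.trans e), Or.inr (Or.inl h1)⟩
      · exact ⟨fun e => hwnT (e ▸ h1), Or.inl h1⟩
  have h := flip_of_facets (F := ins F B v) (A := T) (B := {v, w})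
    (card_pos.1 (by omega)) (insert_nonempty _ _)
    (by
      rw [disjoint_insert_right, disjoint_singleton_right]
      exact ⟨hvT, hwnT⟩)
    (by rw [hT3, card_pair hvw])
    (by
      intro τ hτ hsub
      rcases mem_ins.1 hτ with ⟨h1, h2⟩ | ⟨S, hS, rfl⟩
      · exact ⟨v, by simp, by rw [hev]; exact hfac τ h1 h2 hsub⟩
      · refine ⟨w, by simp, ?_⟩
        rw [hew]
        have hTS : T ⊆ S := fun x hx => (mem_insert.1 (hsub hx)).resolve_left
          (fun e => hvT (e ▸ hx))
        rw [eq_of_subset_of_card_le hTS (by rw [(mem_bdry.1 hS).1, hT3])])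
    (by
      intro b hb
      simp only [mem_insert, mem_singleton] at hb
      rcases hb with rfl | rfl
      · rw [hev]
        exact mem_ins.2 (Or.inl ⟨hwT, hwT'⟩)
      · rw [hew]
        exact mem_ins.2 (Or.inr ⟨T, hT, rfl⟩))
    (by
      intro τ hτ hsub
      have h1 : v ∈ τ := hsub (by simp)
      have h2 : w ∈ τ := hsub (by simp)
      rcases mem_ins.1 hτ with ⟨h3, -⟩ | ⟨S, hS, rfl⟩
      · exact hv (mem_verts.2 ⟨τ, h3, h1⟩)
      · rcases mem_insert.1 h2 with e | h3
        · exact hvw e.symm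
        · obtain ⟨-, σ, hσ, hsσ, -⟩ := mem_bdry.1 hS
          exact hw (mem_verts.2 ⟨σ, hσ, hsσ h3⟩))
  have e : ins F (insert (insert w T) B) v =
      ((ins F B v).filter fun τ => ¬ T ⊆ τ) ∪ T.image fun a => (T ∪ {v, w}).erase a := by
    ext τ
    rw [mem_ins, mem_union, mem_filter, mem_image, mem_ins]
    constructor
    · rintro (⟨h1, h2⟩ | ⟨S, hS, rfl⟩)
      · rw [mem_insert, not_or] at h2
        refine Or.inl ⟨Or.inl ⟨h1, h2.2⟩, fun hsub => h2.1 (hfac τ h1 h2.2 hsub)⟩
      · rcases (bdry_step hT hw).1 hS with ⟨h1, h2⟩ | ⟨e, he, hec, rfl⟩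
        · refine Or.inl ⟨Or.inr ⟨S, h1, rfl⟩, fun hsub => h2 ?_⟩
          have hTS : T ⊆ S := fun x hx => (mem_insert.1 (hsub hx)).resolve_left
            (fun e => hvT (e ▸ hx))
          exact (eq_of_subset_of_card_le hTS (by rw [(mem_bdry.1 h1).1, hT3])).symm
        · right
          have h1 : (T \ e).card = 1 := by rw [card_sdiff_of_subset he, hT3, hec]
          obtain ⟨x, hx⟩ := card_eq_one.1 h1
          have hx' : x ∈ T \ e := by rw [hx]; exact mem_singleton_self x
          rw [mem_sdiff] at hx'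
          have hxe : e = T.erase x := by
            refine eq_of_subset_of_card_le ?_ ?_
            · intro y hy
              exact mem_erase.2 ⟨fun e' => hx'.2 (e' ▸ hy), he hy⟩
            · rw [card_erase_of_mem hx'.1, hT3, hec]
          refine ⟨x, hx'.1, ?_⟩
          rw [hxe]
          ext y
          simp only [mem_erase, mem_union, mem_insert, mem_singleton]
          constructor
          · rintro ⟨h2, h3 | h3 | h3⟩
            · exact Or.inr (Or.inr ⟨h2, h3⟩)
            · exact Or.inl h3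
            · exact Or.inr (Or.inl h3)
          · rintro (h2 | h2 | h2)
            · exact ⟨fun e' => hvT (h2 ▸ e'.symm ▸ hx'.1), Or.inr (Or.inl h2)⟩
            · exact ⟨fun e' => hwnT (h2 ▸ e'.symm ▸ hx'.1), Or.inr (Or.inr h2)⟩
            · exact ⟨h2.1, Or.inl h2.2⟩
    · rintro (⟨h1 | ⟨S, hS, rfl⟩, h3⟩ | ⟨a, ha, rfl⟩)
      · refine Or.inl ⟨h1.1, ?_⟩
        rw [mem_insert, not_or]
        refine ⟨fun e => h3 ?_, h1.2⟩
        rw [e]
        exact subset_insert _ _
      · refine Or.inr ⟨S, (bdry_step hT hw).2 (Or.inl ⟨hS, fun e => h3 ?_⟩), rfl⟩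
        rw [e]
        exact subset_insert _ _
      · refine Or.inr ⟨insert w (T.erase a), (bdry_step hT hw).2 (Or.inr ⟨T.erase a,
          erase_subset _ _, ?_, rfl⟩), ?_⟩
        · rw [card_erase_of_mem ha, hT3]
        · ext y
          simp only [mem_erase, mem_union, mem_insert, mem_singleton]
          constructor
          · rintro (h2 | h2 | h2)
            · exact ⟨fun e' => hvT (h2 ▸ e'.symm ▸ ha), Or.inr (Or.inl h2)⟩
            · exact ⟨fun e' => hwnT (h2 ▸ e'.symm ▸ ha), Or.inr (Or.inr h2)⟩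
            · exact ⟨h2.1, Or.inl h2.2⟩
          · rintro ⟨h2, h3 | h3 | h3⟩
            · exact Or.inr (Or.inr ⟨h2, h3⟩)
            · exact Or.inl h3
            · exact Or.inr (Or.inl h3)
  rw [e]
  exact h

end Pool.NCS
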