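import Pool.Agent.Lib.MP_73a842_co.IsoDef
import Pool.Agent.Lib.MP_73a842_co.Count

/-!
# The number of isomorphism classes
-/

open Finset

namespace Pool.NCS

theorem card_V (n : ℕ) : (V n).card = 2 * n := by
  unfold V
  rw [card_erase_of_mem (by simp), Int.card_Icc]
  omega

theorem Iso.refl (n : ℕ) (K : Set (Finset ℤ)) : Iso n K K :=
  ⟨id, Set.bijOn_id _, fun s _ => by rw [image_id]⟩

/-- the total function of a permutation of `V n` -/
noncomputable def ext (n : ℕ) (e : Equiv.Perm {x // x ∈ V n}) (x : ℤ) : ℤ :=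
  if h : x ∈ V n then ((e ⟨x, h⟩ : {x // x ∈ V n}) : ℤ) else 0

/-- transport of a complex along a permutation of `V n` -/
noncomputable def trans (n : ℕ) (K : Set (Finset ℤ)) (e : Equiv.Perm {x // x ∈ V n}) :
    Set (Finset ℤ) :=
  {t | t ⊆ V n ∧ t.image (ext n e) ∈ K}

theorem fiber_le {d n : ℕ} {K : Set (Finset ℤ)} :
    {L | IsCsSphere d n L ∧ Iso n K L}.ncard ≤ (2 * n).factorial := by
  classical
  -- every `L` in the set is `trans n K e` for a permutation `e` (the inverse of the isomorphism)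
  have hsub : {L | IsCsSphere d n L ∧ Iso n K L} ⊆ Set.range (trans n K) := by
    rintro L ⟨hL, f, hf, hs⟩
    -- inverse permutation
    let g : {x // x ∈ V n} → {x // x ∈ V n} := fun x => ⟨f x, hf.mapsTo x.2⟩
    have hg : Function.Bijective g := by
      constructor
      · intro x y hxy
        have : f x = f y := congrArg Subtype.val hxy
        exact Subtype.ext (hf.injOn x.2 y.2 this)
      · intro y
        obtain ⟨x, hx, hxy⟩ := hf.surjOn y.2
        exact ⟨⟨x, hx⟩, Subtype.ext hxy⟩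
    let e : Equiv.Perm {x // x ∈ V n} := (Equiv.ofBijective g hg).symm
    have hfe : ∀ x : {x // x ∈ V n}, f (e x : ℤ) = x := by
      intro x
      have : g (e x) = x := (Equiv.ofBijective g hg).apply_symm_apply x
      exact congrArg Subtype.val this
    have key : ∀ t : Finset ℤ, t ⊆ V n → (t.image (NCS.ext n e) ∈ K ↔ t ∈ L) := by
      intro t ht
      have hsV : t.image (NCS.ext n e) ⊆ V n := by
        intro y hy
        obtain ⟨x, hx, rfl⟩ := mem_image.1 hy
        unfold NCS.ext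
        rw [dif_pos (ht hx)]
        exact (e ⟨x, ht hx⟩).2
      have himg : (t.image (NCS.ext n e)).image f = t := by
        rw [image_image]
        refine (image_congr (g := id) ?_).trans image_id
        intro x hx
        have hx' : x ∈ V n := ht hx
        simp only [Function.comp_apply, NCS.ext, dif_pos hx', hfe, id]
      rw [hs _ hsV, himg]
    refine ⟨e, ?_⟩
    ext t
    constructor
    · rintro ⟨ht, h⟩
      exact (key t ht).1 h
    · intro h
      have ht : t ⊆ V n := fun x hx =>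
        (hL.vert x).1 (hL.down t h {x} (singleton_subset_iff.2 hx))
      exact ⟨ht, (key t ht).2 h⟩
  refine (Set.ncard_le_ncard hsub (Set.finite_range _)).trans ?_
  rw [← Set.image_univ]
  refine (Set.ncard_image_le Set.finite_univ).trans ?_
  rw [Set.ncard_univ, Nat.card_eq_fintype_card, Fintype.card_perm, Fintype.card_coe, card_V]

theorem ncs_le_types (n : ℕ) : ncs 3 n ≤ (2 * n).factorial * types 2 n := by
  classical
  have hfin : {S : Set (Finset ℤ) | IsCsSphere 3 n S ∧ CsNeighborly 2 n S}.Finite :=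
    (finite_cs 3 n).subset fun S hS => hS.1
  have h1 : ncs 3 n = {S : Set (Finset ℤ) | IsCsSphere 3 n S ∧ CsNeighborly 2 n S}.ncard := rfl
  have h2 : types 2 n = ((fun K => {L | IsCsSphere 3 n L ∧ Iso n K L}) ''
    {K | IsCsSphere 3 n K ∧ CsNeighborly 2 n K}).ncard := rfl
  rw [h1, h2]
  set S := {K : Set (Finset ℤ) | IsCsSphere 3 n K ∧ CsNeighborly 2 n K} with hS
  set φ : Set (Finset ℤ) → Set (Set (Finset ℤ)) := fun K => {L | IsCsSphere 3 n L ∧ Iso n K L} with hφ
  have e1 : S.ncard = hfin.toFinset.card := Set.ncard_eq_toFinset_card S hfin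
  have e2 : (φ '' S).ncard = (hfin.toFinset.image φ).card := by
    rw [← Set.ncard_coe_finset, coe_image, Set.Finite.coe_toFinset]
  rw [e1, e2]
  refine card_le_mul_card_image _ _ fun a ha => ?_
  obtain ⟨K, hK, rfl⟩ := mem_image.1 ha
  have hsub : ((hfin.toFinset.filter fun x => φ x = φ K : Finset (Set (Finset ℤ))) : Set (Set (Finset ℤ))) ⊆
      {L | IsCsSphere 3 n L ∧ Iso n K L} := by
    intro L hL
    rw [mem_coe, mem_filter] at hL
    have hLS : L ∈ S := (Set.Finite.mem_toFinset hfin).1 hL.1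
    have : L ∈ φ L := ⟨hLS.1, Iso.refl n L⟩
    rw [hL.2] at this
    exact this
  rw [← Set.ncard_coe_finset]
  exact (Set.ncard_le_ncard hsub ((finite_cs 3 n).subset fun L hL => hL.1)).trans fiber_le

theorem log_two_mul_le {n : ℕ} (hn : 0 < n) :
    Real.log (2 * n) ≤ 2 * Real.sqrt (2 * n) := by
  have h0 : (0 : ℝ) < n := by exact_mod_cast hn
  have a4 : (0 : ℝ) < Real.sqrt (2 * n) := Real.sqrt_pos.2 (by positivity)
  have a5 := Real.log_le_sub_one_of_pos a4
  have a6 : Real.log (Real.sqrt (2 * n)) = Real.log (2 * n) / 2 := Real.log_sqrt (by positivity)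
  rw [a6] at a5
  linarith

/-- `(2n)! ≤ 2^(8 n √(2n))` -/
theorem fact_le {n : ℕ} (hn : 0 < n) :
    ((2 * n).factorial : ℝ) ≤ (2 : ℝ) ^ (8 * (n : ℝ) * Real.sqrt (2 * n)) := by
  have h0 : (0 : ℝ) < n := by exact_mod_cast hn
  have a1 : ((2 * n).factorial : ℝ) ≤ ((2 * n : ℕ) : ℝ) ^ (2 * n) := by
    exact_mod_cast Nat.factorial_le_pow (2 * n)
  refine a1.trans ?_
  have a10 : (0 : ℝ) < ((2 * n : ℕ) : ℝ) ^ (2 * n) := by
    have : (0 : ℝ) < ((2 * n : ℕ) : ℝ) := by push_cast; linarith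
    positivity
  refine (Real.log_le_log_iff a10 (by positivity)).1 ?_
  rw [Real.log_pow, Real.log_rpow (by norm_num)]
  have a3 := log_two_mul_le hn
  have a7 : (0.5 : ℝ) < Real.log 2 := by have := Real.log_two_gt_d9; linarith
  push_cast
  have a8 : 2 * (n : ℝ) * Real.log (2 * n) ≤ 2 * (n : ℝ) * (2 * Real.sqrt (2 * n)) :=
    mul_le_mul_of_nonneg_left a3 (by positivity)
  have a9 : 8 * (n : ℝ) * Real.sqrt (2 * n) * 0.5 ≤ 8 * (n : ℝ) * Real.sqrt (2 * n) * Real.log 2 :=
    mul_le_mul_of_nonneg_left a7.le (by positivity)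
  linarith

theorem types_lower {c : ℝ} (hc : c < 1 / 20) :
    ∃ n₀ : ℕ, ∀ n : ℕ, n₀ ≤ n → (2 : ℝ) ^ (c * (n : ℝ) ^ 2) ≤ types 2 n := by
  -- `c n² + 8 n √(2n) ≤ n (n - 18) / 20` for large `n`
  have hd : 0 < 1 / 20 - c := by linarith
  obtain ⟨M, hM⟩ := exists_nat_gt (((30 : ℝ) / (1 / 20 - c)) ^ 2)
  refine ⟨max M 45, fun n hn => ?_⟩
  have hn45 : 45 ≤ n := le_trans (le_max_right _ _) hn
  have hnM : (M : ℝ) ≤ n := by exact_mod_cast le_trans (le_max_left _ _) hn
  have hn0 : (45 : ℝ) ≤ n := by exact_mod_cast hn45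
  have h1 := ncs_lower n hn45
  have h2 : (ncs 3 n : ℝ) ≤ ((2 * n).factorial : ℝ) * types 2 n := by
    exact_mod_cast ncs_le_types n
  have h3 := fact_le (n := n) (by omega)
  -- `√(2n) ≤ (1/20 - c)/16 · n` etc.
  have h4 : (30 : ℝ) ≤ (1 / 20 - c) * Real.sqrt n := by
    have : (30 : ℝ) / (1 / 20 - c) ≤ Real.sqrt n := by
      apply Real.le_sqrt_of_sq_le
      exact (hM.trans_le hnM).le
    rw [div_le_iff₀ hd] at this
    linarith
  have h5 : Real.sqrt (2 * n) ≤ 1.5 * Real.sqrt n := by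
    rw [Real.sqrt_mul (by norm_num)]
    have : Real.sqrt 2 ≤ 1.5 := by
      rw [Real.sqrt_le_left (by norm_num)]
      norm_num
    exact mul_le_mul_of_nonneg_right this (Real.sqrt_nonneg _)
  have h6 : (1 : ℝ) ≤ Real.sqrt n := by
    rw [Real.one_le_sqrt]
    linarith
  have h7 : Real.sqrt n * Real.sqrt n = n := Real.mul_self_sqrt (by linarith)
  have h8 : c * (n : ℝ) ^ 2 + 8 * (n : ℝ) * Real.sqrt (2 * n) ≤ (n : ℝ) * (n - 18) / 20 := by
    have b1 : 8 * (n : ℝ) * Real.sqrt (2 * n) ≤ 12 * (n : ℝ) * Real.sqrt n := by nlinarith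
    have b2 : 30 * ((n : ℝ) * Real.sqrt n) ≤ (1 / 20 - c) * (n : ℝ) ^ 2 := by
      have b3 : 30 * ((n : ℝ) * Real.sqrt n) ≤ ((1 / 20 - c) * Real.sqrt n) * ((n : ℝ) * Real.sqrt n) :=
        mul_le_mul_of_nonneg_right h4 (by positivity)
      calc 30 * ((n : ℝ) * Real.sqrt n) ≤ ((1 / 20 - c) * Real.sqrt n) * ((n : ℝ) * Real.sqrt n) := b3
        _ = (1 / 20 - c) * (n : ℝ) * (Real.sqrt n * Real.sqrt n) := by ring
        _ = (1 / 20 - c) * (n : ℝ) ^ 2 := by rw [h7]; ring
    have b4 : (n : ℝ) ≤ (n : ℝ) * Real.sqrt n := by nlinarith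
    nlinarith
  have h9 : (2 : ℝ) ^ (c * (n : ℝ) ^ 2) * (2 : ℝ) ^ (8 * (n : ℝ) * Real.sqrt (2 * n)) ≤
      (2 : ℝ) ^ ((n : ℝ) * (n - 18) / 20) := by
    rw [← Real.rpow_add (by norm_num)]
    exact Real.rpow_le_rpow_of_exponent_le (by norm_num) h8
  have h10 : (2 : ℝ) ^ (8 * (n : ℝ) * Real.sqrt (2 * n)) * (2 : ℝ) ^ (c * (n : ℝ) ^ 2) ≤
      (2 : ℝ) ^ (8 * (n : ℝ) * Real.sqrt (2 * n)) * types 2 n := by
    rw [mul_comm]
    exact h9.trans (h1.trans (h2.trans (mul_le_mul_of_nonneg_right h3 (by positivity))))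
  exact le_of_mul_le_mul_left h10 (by positivity)

end Pool.NCS
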