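import Pool.Agent.Lib.MP_73a842_co.Defs

/-!
# Isomorphism classes of cs-`k`-neighborly cs `(2k-1)`-spheres
-/

namespace Pool.NCS

/-- `K` and `L`, complexes on the vertex set `V n`, are isomorphic: some bijection of the vertex sets maps
faces exactly onto faces. -/
def Iso (n : ℕ) (K L : Set (Finset ℤ)) : Prop :=
  ∃ f : ℤ → ℤ, Set.BijOn f (V n) (V n) ∧ ∀ s ⊆ V n, (s ∈ K ↔ s.image f ∈ L)

/-- The number of isomorphism classes of cs-`k`-neighborly cs combinatorial `(2k-1)`-spheres with `2n`
vertices: the number of different classes `{L | L ≅ K}`. -/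
noncomputable def types (k n : ℕ) : ℕ :=
  ((fun K => {L | IsCsSphere (2 * k - 1) n L ∧ Iso n K L}) ''
    {K | IsCsSphere (2 * k - 1) n K ∧ CsNeighborly k n K}).ncard

end Pool.NCS
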