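import Pool.Agent.Lib.MP_73a842_co.EulerA
import Pool.Agent.Lib.MP_73a842_co.EulerB
import Pool.Agent.Lib.MP_73a842_co.Fin

/-!
# NCS-Upper: the upper bound for the number of cs 3-spheres

`inv3`: induction along the moves.  `few_facets`: `f_3 ≤ f_1 ≤ choose (2n) 2 ≤ 2 n^2`.  `cs_upper`: `K` is
determined by its set of facets `{σ ∈ K | σ.card = 4}` (`pure`, `down`), a nonempty subset with at most `2 n^2`
elements of a set with `choose (2n) 4 ≤ (2n)^4` elements; the nonempty subsets with at most `m`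
elements are the ranges of maps `Fin m → _`.
-/

open Finset

namespace Pool.NCS

theorem inv3_pl {K : Set (Finset ℤ)} (h : PLSphere 3 K) : Inv3 K := by
  obtain ⟨S, hS, hr⟩ := h
  induction hr with
  | refl => exact inv3_simplex hS
  | tail _ hf ih =>
    exact ⟨fin_flip ih.fin hf, down_flip ih hf, (pure_flip ih hf).1, (pure_flip ih hf).2,
      euler_flip ih.fin ih.down ih.euler hf⟩

private theorem card_V (n : ℕ) : (V n).card = 2 * n := by
  unfold V
  rw [card_erase_of_mem (by simp), Int.card_Icc]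
  omega

private theorem sub_V {n : ℕ} {K : Set (Finset ℤ)} (h : IsCsSphere 3 n K) {s : Finset ℤ}
    (hs : s ∈ K) : s ⊆ V n := by
  intro x hx
  exact (h.vert x).1 (h.down s hs {x} (singleton_subset_iff.2 hx))

theorem few_facets {n : ℕ} {K : Set (Finset ℤ)} (h : IsCsSphere 3 n K) : fN K 4 ≤ 2 * n ^ 2 := by
  have h1 := (inv3_pl h.pl).euler
  have h2 : fN K 2 ≤ ((V n).powersetCard 2).card := by
    rw [← Set.ncard_coe_finset]
    refine Set.ncard_le_ncard ?_ (Finset.finite_toSet _)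
    rintro s ⟨hs, hc⟩
    exact Finset.mem_coe.2 (mem_powersetCard.2 ⟨sub_V h hs, hc⟩)
  rw [card_powersetCard, card_V, Nat.choose_two_right] at h2
  have h3 : 2 * n * (2 * n - 1) / 2 ≤ 2 * n ^ 2 := by
    have h4 : 2 * n * (2 * n - 1) ≤ 2 * n * (2 * n) := Nat.mul_le_mul_left _ (Nat.sub_le _ _)
    have h5 : 2 * n * (2 * n) = 2 * n ^ 2 * 2 := by ring
    rw [h5, mul_comm (2 * n ^ 2) 2] at h4
    exact Nat.div_le_of_le_mul h4
  omega

theorem cs_upper (n : ℕ) : cs 3 n ≤ (2 * n) ^ (8 * n ^ 2) := by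
  set P : Finset (Finset ℤ) := (V n).powersetCard 4 with hP
  set m : ℕ := 2 * n ^ 2 with hm
  let g : (Fin m → ↥P) → Set (Finset ℤ) := fun f => {s | ∃ i, s ⊆ (f i : Finset ℤ)}
  have hsub : {K : Set (Finset ℤ) | IsCsSphere 3 n K} ⊆ g '' Set.univ := by
    intro K hK
    have hK' : IsCsSphere 3 n K := hK
    have hI := inv3_pl hK'.pl
    have hfin : ({s | s ∈ K ∧ s.card = 4} : Set (Finset ℤ)).Finite :=
      hI.fin.subset fun s hs => hs.1
    obtain ⟨σ₀, hσ₀, -, hσ₀c⟩ := hI.pure ∅ hI.ne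
    have : Nonempty ↥hfin.toFinset := ⟨⟨σ₀, hfin.mem_toFinset.2 ⟨hσ₀, hσ₀c⟩⟩⟩
    have hcard : hfin.toFinset.card ≤ m := by
      rw [← Set.ncard_eq_toFinset_card _ hfin]
      exact few_facets hK'
    obtain ⟨e⟩ : Nonempty (↥hfin.toFinset ↪ Fin m) :=
      Function.Embedding.nonempty_of_card_le (by simpa using hcard)
    have hs : Function.Surjective (Function.invFun e) := Function.invFun_surjective e.injective
    have hmem : ∀ σ : ↥hfin.toFinset, (σ : Finset ℤ) ∈ P := fun σ => by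
      have h1 := hfin.mem_toFinset.1 σ.2
      exact mem_powersetCard.2 ⟨sub_V hK' h1.1, h1.2⟩
    refine ⟨fun i => ⟨((Function.invFun e i : ↥hfin.toFinset) : Finset ℤ), hmem _⟩,
      Set.mem_univ _, ?_⟩
    ext s
    constructor
    · rintro ⟨i, hi⟩
      have h1 := hfin.mem_toFinset.1 (Function.invFun e i).2
      exact hI.down _ h1.1 s hi
    · intro hsK
      obtain ⟨σ, hσ, hsσ, hσc⟩ := hI.pure s hsK
      obtain ⟨i, hi⟩ := hs ⟨σ, hfin.mem_toFinset.2 ⟨hσ, hσc⟩⟩
      refine ⟨i, ?_⟩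
      change s ⊆ ((Function.invFun e i : ↥hfin.toFinset) : Finset ℤ)
      rw [hi]
      exact hsσ
  have h1 : cs 3 n ≤ (Set.univ : Set (Fin m → ↥P)).ncard :=
    (Set.ncard_le_ncard hsub (Set.toFinite _)).trans (Set.ncard_image_le Set.finite_univ)
  rw [Set.ncard_univ, Nat.card_fun, Nat.card_eq_fintype_card, Nat.card_eq_fintype_card,
    Fintype.card_coe, Fintype.card_fin, hP, card_powersetCard, card_V] at h1
  refine h1.trans ?_
  have h2 : (2 * n).choose 4 ≤ (2 * n) ^ 4 := by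
    have := Nat.choose_le_pow_div (α := ℚ) 4 (2 * n)
    have h3 : ((2 * n : ℕ) : ℚ) ^ 4 / (Nat.factorial 4 : ℕ) ≤ ((2 * n : ℕ) : ℚ) ^ 4 := by
      apply div_le_self (by positivity)
      norm_num [Nat.factorial]
    exact_mod_cast this.trans h3
  calc (2 * n).choose 4 ^ m ≤ ((2 * n) ^ 4) ^ m := Nat.pow_le_pow_left h2 m
    _ = (2 * n) ^ (8 * n ^ 2) := by rw [← pow_mul, hm]; congr 1; ring

end Pool.NCS
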