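import Pool.Agent.Lib.MP_73a842_co.Iso
import Pool.Agent.Lib.MP_73a842_co.Upper

/-!
# Comparison of `cs 3 n` and `ncs 3 n`
-/

open Finset

namespace Pool.NCS

theorem log_cs_le (n : ℕ) (hn : 90 ≤ n) :
    Real.log (cs 3 n) ≤ 200 * Real.logb 2 (2 * n) * Real.log (ncs 3 n) := by
  have hn0 : (90 : ℝ) ≤ n := by exact_mod_cast hn
  have h1 := ncs_lower n (by omega)
  have h2 := cs_upper n
  have hl2 : 0 < Real.log 2 := Real.log_pos (by norm_num)
  have hl : 0 ≤ Real.log (2 * n) := Real.log_nonneg (by linarith)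
  have hncs : (0 : ℝ) < ncs 3 n := lt_of_lt_of_le (by positivity) h1
  -- lower bound
  have h3 : (n : ℝ) ^ 2 / 25 * Real.log 2 ≤ Real.log (ncs 3 n) := by
    have a1 : Real.log ((2 : ℝ) ^ ((n : ℝ) * (n - 18) / 20)) ≤ Real.log (ncs 3 n) :=
      Real.log_le_log (by positivity) h1
    rw [Real.log_rpow (by norm_num)] at a1
    refine le_trans ?_ a1
    apply mul_le_mul_of_nonneg_right _ hl2.le
    nlinarith
  -- upper bound
  have h4 : Real.log (cs 3 n) ≤ 8 * (n : ℝ) ^ 2 * Real.log (2 * n) := by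
    rcases Nat.eq_zero_or_pos (cs 3 n) with h | h
    · rw [h]
      simp only [Nat.cast_zero, Real.log_zero]
      positivity
    · have a1 : (cs 3 n : ℝ) ≤ ((2 * n : ℕ) : ℝ) ^ (8 * n ^ 2) := by exact_mod_cast h2
      have a2 := Real.log_le_log (by exact_mod_cast h) a1
      rw [Real.log_pow] at a2
      push_cast at a2
      exact a2
  refine h4.trans ?_
  have h5 : 8 * (n : ℝ) ^ 2 * Real.log (2 * n) =
      200 * Real.logb 2 (2 * n) * ((n : ℝ) ^ 2 / 25 * Real.log 2) := by
    unfold Real.logb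
    field_simp
    ring
  rw [h5]
  apply mul_le_mul_of_nonneg_left h3
  have : 0 ≤ Real.logb 2 (2 * n) := by
    unfold Real.logb
    positivity
  positivity

end Pool.NCS
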