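import Pool.Agent.Lib.MP_73a842_co.Basic

/-!
# Paths and fans
-/

open Finset

namespace Pool.NCS

/-- `p`, `q` are consecutive in the list -/
def adj : List ℤ → ℤ → ℤ → Prop
  | [], _, _ => False
  | [_], _, _ => False
  | a :: b :: l, p, q => (p = a ∧ q = b) ∨ adj (b :: l) p q

/-- the tetrahedra `{u, o, p, q}`, `p q` consecutive in the list -/
def fan (u o : ℤ) : List ℤ → Finset (Finset ℤ)
  | [] => ∅
  | [_] => ∅
  | p :: q :: l => insert {u, o, p, q} (fan u o (q :: l))

/-- `a, a + 1, …, a + m - 1` -/
def inc (a : ℤ) : ℕ → List ℤ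
  | 0 => []
  | m + 1 => a :: inc (a + 1) m

/-- `a, a - 1, …, a - m + 1` -/
def dec (a : ℤ) : ℕ → List ℤ
  | 0 => []
  | m + 1 => a :: dec (a - 1) m

theorem mem_fan {u o : ℤ} {l : List ℤ} {σ : Finset ℤ} :
    σ ∈ fan u o l ↔ ∃ p q, adj l p q ∧ σ = {u, o, p, q} := by
  induction l with
  | nil => simp [fan, adj]
  | cons a l ih =>
    cases l with
    | nil => simp [fan, adj]
    | cons b l =>
      simp only [fan, mem_insert, ih, adj]
      constructor
      · rintro (h | ⟨p, q, h, h'⟩)
        · exact ⟨a, b, Or.inl ⟨rfl, rfl⟩, h⟩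
        · exact ⟨p, q, Or.inr h, h'⟩
      · rintro ⟨p, q, ⟨rfl, rfl⟩ | h, h'⟩
        · exact Or.inl h'
        · exact Or.inr ⟨p, q, h, h'⟩

theorem adj_mem {l : List ℤ} {p q : ℤ} (h : adj l p q) : p ∈ l ∧ q ∈ l := by
  induction l with
  | nil => exact h.elim
  | cons a l ih =>
    cases l with
    | nil => exact h.elim
    | cons b l =>
      rcases h with ⟨rfl, rfl⟩ | h
      · simp
      · have := ih h
        exact ⟨List.mem_cons_of_mem _ this.1, List.mem_cons_of_mem _ this.2⟩

theorem adj_ne {l : List ℤ} (hl : l.Nodup) {p q : ℤ} (h : adj l p q) : p ≠ q := by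
  induction l with
  | nil => exact h.elim
  | cons a l ih =>
    cases l with
    | nil => exact h.elim
    | cons b l =>
      rcases h with ⟨rfl, rfl⟩ | h
      · intro h
        rw [List.nodup_cons] at hl
        exact hl.1 (by simp [h])
      · exact ih (List.nodup_cons.1 hl).2 h

theorem adj_cons {a b : ℤ} {l : List ℤ} {p q : ℤ} :
    adj (a :: b :: l) p q ↔ (p = a ∧ q = b) ∨ adj (b :: l) p q := Iff.rfl

theorem adj_append {l m : List ℤ} (hl : l ≠ []) (hm : m ≠ []) {p q : ℤ} :
    adj (l ++ m) p q ↔ adj l p q ∨ (p = l.getLast hl ∧ q = m.head hm) ∨ adj m p q := by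
  induction l with
  | nil => exact absurd rfl hl
  | cons a l ih =>
    cases l with
    | nil =>
      cases m with
      | nil => exact absurd rfl hm
      | cons b m => simp [adj]
    | cons b l =>
      have := ih (by simp)
      simp only [List.cons_append, adj_cons] at this ⊢
      rw [this]
      simp only [List.getLast_cons_cons]
      tauto

theorem mem_inc {a : ℤ} {m : ℕ} {x : ℤ} : x ∈ inc a m ↔ a ≤ x ∧ x < a + m := by
  induction m generalizing a with
  | zero => simp [inc]
  | succ m ih =>
    simp only [inc, List.mem_cons, ih]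
    push_cast
    omega

theorem mem_dec {a : ℤ} {m : ℕ} {x : ℤ} : x ∈ dec a m ↔ x ≤ a ∧ a - m < x := by
  induction m generalizing a with
  | zero => simp [dec]
  | succ m ih =>
    simp only [dec, List.mem_cons, ih]
    push_cast
    omega

theorem nodup_inc {a : ℤ} {m : ℕ} : (inc a m).Nodup := by
  induction m generalizing a with
  | zero => simp [inc]
  | succ m ih =>
    simp only [inc, List.nodup_cons]
    refine ⟨fun h => ?_, ih⟩
    rw [mem_inc] at h
    omega

theorem nodup_dec {a : ℤ} {m : ℕ} : (dec a m).Nodup := by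
  induction m generalizing a with
  | zero => simp [dec]
  | succ m ih =>
    simp only [dec, List.nodup_cons]
    refine ⟨fun h => ?_, ih⟩
    rw [mem_dec] at h
    omega

theorem adj_inc {a : ℤ} {m : ℕ} {p q : ℤ} :
    adj (inc a m) p q ↔ a ≤ p ∧ p + 1 < a + m ∧ q = p + 1 := by
  induction m generalizing a with
  | zero => simp [inc, adj]; omega
  | succ m ih =>
    cases m with
    | zero => simp [inc, adj]; omega
    | succ m =>
      have := @ih (a + 1)
      simp only [inc, adj_cons] at this ⊢
      rw [this]
      push_cast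
      omega

theorem adj_dec {a : ℤ} {m : ℕ} {p q : ℤ} :
    adj (dec a m) p q ↔ p ≤ a ∧ a - m < p - 1 ∧ q = p - 1 := by
  induction m generalizing a with
  | zero => simp [dec, adj]; omega
  | succ m ih =>
    cases m with
    | zero => simp [dec, adj]; omega
    | succ m =>
      have := @ih (a - 1)
      simp only [dec, adj_cons] at this ⊢
      rw [this]
      push_cast
      omega

theorem inc_ne_nil {a : ℤ} {m : ℕ} (h : 0 < m) : inc a m ≠ [] := by
  cases m with
  | zero => omega
  | succ m => simp [inc]

theorem dec_ne_nil {a : ℤ} {m : ℕ} (h : 0 < m) : dec a m ≠ [] := by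
  cases m with
  | zero => omega
  | succ m => simp [dec]

theorem head_inc {a : ℤ} {m : ℕ} (h : inc a m ≠ []) : (inc a m).head h = a := by
  cases m with
  | zero => exact absurd rfl h
  | succ m => simp [inc]

theorem head_dec {a : ℤ} {m : ℕ} (h : dec a m ≠ []) : (dec a m).head h = a := by
  cases m with
  | zero => exact absurd rfl h
  | succ m => simp [dec]

theorem getLast_inc {a : ℤ} {m : ℕ} (h : inc a m ≠ []) : (inc a m).getLast h = a + m - 1 := by
  induction m generalizing a with
  | zero => exact absurd rfl h
  | succ m ih =>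
    cases m with
    | zero => simp [inc]
    | succ m =>
      have h' : inc (a + 1) (m + 1) ≠ [] := by simp [inc]
      have := ih h'
      simp only [inc] at this h ⊢
      rw [List.getLast_cons (by simp), this]
      push_cast
      ring

theorem getLast_dec {a : ℤ} {m : ℕ} (h : dec a m ≠ []) : (dec a m).getLast h = a - m + 1 := by
  induction m generalizing a with
  | zero => exact absurd rfl h
  | succ m ih =>
    cases m with
    | zero => simp [dec]
    | succ m =>
      have h' : dec (a - 1) (m + 1) ≠ [] := by simp [dec]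
      have := ih h'
      simp only [dec] at this h ⊢
      rw [List.getLast_cons (by simp), this]
      push_cast
      ring

theorem mem_verts_fan {u o p q : ℤ} {l : List ℤ} {x : ℤ} :
    x ∈ verts (fan u o (p :: q :: l)) ↔ x = u ∨ x = o ∨ x ∈ (p :: q :: l) := by
  induction l generalizing p q with
  | nil => simp [fan, mem_verts]
  | cons r l ih =>
    rw [fan, verts_insert, mem_union, ih]
    simp only [mem_insert, mem_singleton, List.mem_cons]
    tauto

/-- the fan over a path, built from the end of the path to its head -/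
theorem fan_chain {u o : ℤ} (huo : u ≠ o) {p q : ℤ} {l : List ℤ} (hn : (p :: q :: l).Nodup)
    (hu : u ∉ p :: q :: l) (ho : o ∉ p :: q :: l) :
    Chain (fan u o (p :: q :: l)) {u, o, p, q} p := by
  induction l generalizing p q with
  | nil =>
    simp only [List.mem_cons, List.not_mem_nil, or_false, not_or, List.nodup_cons] at hn hu ho
    simp only [fan]
    have : (insert {u, o, p, q} ∅ : Finset (Finset ℤ)) = {{u, o, p, q}} := rfl
    rw [this]
    refine Chain.single (card_four huo hu.1 hu.2 ho.1 ho.2 hn.1) (by simp)
  | cons r l ih =>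
    rw [List.nodup_cons] at hn
    have h1 := ih hn.2 (fun h => hu (List.mem_cons_of_mem _ h)) (fun h => ho (List.mem_cons_of_mem _ h))
    have e : ({u, o, p, q} : Finset ℤ) = insert p {u, o, q} := by
      ext x
      simp only [mem_insert, mem_singleton]
      tauto
    rw [fan, e]
    simp only [List.mem_cons, not_or] at hu ho hn
    refine h1.step (T := {u, o, q}) ?_ (by simp) (card_three huo hu.2.1 ho.2.1) ?_
    · intro x
      simp only [mem_insert, mem_singleton]
      tauto
    · rw [mem_verts_fan]
      simp only [List.mem_cons, not_or]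
      exact ⟨fun h => hu.1 h.symm, fun h => ho.1 h.symm, hn.1⟩

/-- a fan added in front of a leaf -/
theorem Chain.fan {u o : ℤ} {l : List ℤ} {p : ℤ} {B : Finset (Finset ℤ)} {σ : Finset ℤ} {w : ℤ}
    (h : Chain B σ w) (hT : {u, o, p} ⊆ σ) (hw : w ∈ ({u, o, p} : Finset ℤ))
    (hc : ({u, o, p} : Finset ℤ).card = 3) (hl : l.Nodup) (hn : ∀ x ∈ l, x ∉ verts B) :
    ∃ σ' w', Chain (B ∪ fan u o (p :: l)) σ' w' := by
  induction l generalizing p B σ w with
  | nil => exact ⟨σ, w, by simpa [NCS.fan] using h⟩
  | cons q l ih =>
    have hq : q ∉ verts B := hn q (by simp)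
    have h1 := h.step hT hw hc hq
    have hsub : ∀ x ∈ ({u, o, p} : Finset ℤ), x ∈ verts B := fun x hx =>
      mem_verts.2 ⟨σ, h.2.1, hT hx⟩
    have hu : u ≠ q := fun e => hq (e ▸ hsub u (by simp))
    have ho : o ≠ q := fun e => hq (e ▸ hsub o (by simp))
    have huo : u ≠ o := by
      rintro rfl
      have := card_le_two (a := u) (b := p)
      simp only [insert_eq_of_mem, mem_insert, true_or] at hc
      omega
    rw [List.nodup_cons] at hl
    have h2 := ih (p := q) h1 (by intro x; simp only [mem_insert, mem_singleton]; tauto) (by simp)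
      (card_three huo hu ho) hl.2 (fun x hx hx' => by
        rw [verts_insert, mem_union] at hx'
        rcases hx' with hx' | hx'
        · rcases mem_insert.1 hx' with rfl | hx'
          · exact hl.1 hx
          · exact hn x (by simp [hx]) (hsub x hx')
        · exact hn x (by simp [hx]) hx')
    obtain ⟨σ', w', h3⟩ := h2
    refine ⟨σ', w', ?_⟩
    have e : B ∪ NCS.fan u o (p :: q :: l) =
        insert (insert q {u, o, p}) B ∪ NCS.fan u o (q :: l) := by
      have e1 : ({u, o, p, q} : Finset ℤ) = insert q {u, o, p} := by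
        ext x
        simp only [mem_insert, mem_singleton]
        tauto
      rw [NCS.fan, e1, union_insert, insert_union]
    rw [e]
    exact h3

end Pool.NCS
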